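import Pool.Agent.U562.HD.Gauss
set_option autoImplicit false

/-! Jensen, Young and scaling for lower integrals -/

namespace Pool.Agent.U562.HD

open MeasureTheory Complex Set Metric Filter Topology
open scoped ENNReal NNReal RealInnerProductSpace Real

/-- Jensen -/
lemma jens {α : Type*} [MeasurableSpace α] (ν : Measure α) {p : ℝ} (hp : 1 ≤ p)
    {f : α → ℝ≥0∞} (hf : AEMeasurable f ν) :
    (∫⁻ x, f x ∂ν) ^ p ≤ (∫⁻ x, f x ^ p ∂ν) * (ν univ) ^ (p - 1) := by
  rcases hp.eq_or_lt with h1 | h1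
  · rw [← h1]; simp
  · have hc : p.HolderConjugate (Real.conjExponent p) := Real.HolderConjugate.conjExponent h1
    have h := ENNReal.lintegral_mul_le_Lp_mul_Lq ν hc hf (aemeasurable_const (b := (1 : ℝ≥0∞)))
    simp only [Pi.mul_apply, mul_one, ENNReal.one_rpow, lintegral_const, one_mul] at h
    calc (∫⁻ x, f x ∂ν) ^ p ≤ ((∫⁻ x, f x ^ p ∂ν) ^ (1 / p) *
          (ν univ) ^ (1 / (Real.conjExponent p))) ^ p := ENNReal.rpow_le_rpow h (by linarith)
      _ = (∫⁻ x, f x ^ p ∂ν) * (ν univ) ^ (p - 1) := by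
          rw [ENNReal.mul_rpow_of_nonneg _ _ (by linarith), ← ENNReal.rpow_mul, ← ENNReal.rpow_mul,
            one_div_mul_cancel (by linarith), ENNReal.rpow_one]
          congr 2
          rw [Real.conjExponent]; field_simp

variable {V : Type*} [NormedAddCommGroup V] [InnerProductSpace ℝ V] [FiniteDimensional ℝ V]
  [MeasurableSpace V] [BorelSpace V]

/-- Young's inequality -/
lemma young {p : ℝ} (hp : 1 ≤ p) {F Γ : V → ℝ≥0∞} (hF : Measurable F) (hΓ : Measurable Γ)
    (ht : ∫⁻ z, Γ z ≠ ∞) :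
    ∫⁻ y, (∫⁻ z, F (y - z) * Γ z) ^ p ≤ (∫⁻ z, Γ z) ^ p * ∫⁻ y, F y ^ p := by
  have hj : Measurable fun q : V × V => F (q.1 - q.2) := hF.comp (measurable_fst.sub measurable_snd)
  have h1 : ∀ y, (∫⁻ z, F (y - z) * Γ z) ^ p ≤ (∫⁻ z, F (y - z) ^ p * Γ z) *
      (∫⁻ z, Γ z) ^ (p - 1) := by
    intro y
    have hm : Measurable fun z => F (y - z) := hF.comp (measurable_const.sub measurable_id)
    have hmp : Measurable fun z => F (y - z) ^ p := hm.pow_const p
    have h := jens (volume.withDensity Γ) hp (f := fun z => F (y - z)) hm.aemeasurable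
    rw [lintegral_withDensity_eq_lintegral_mul _ hΓ hm,
      lintegral_withDensity_eq_lintegral_mul _ hΓ hmp,
      withDensity_apply _ MeasurableSet.univ, Measure.restrict_univ] at h
    simp only [Pi.mul_apply] at h
    calc (∫⁻ z, F (y - z) * Γ z) ^ p = (∫⁻ z, Γ z * F (y - z)) ^ p := by
          congr 2; funext z; ring
      _ ≤ _ := h
      _ = _ := by congr 2; funext z; ring
  calc ∫⁻ y, (∫⁻ z, F (y - z) * Γ z) ^ p
      ≤ ∫⁻ y, (∫⁻ z, F (y - z) ^ p * Γ z) * (∫⁻ z, Γ z) ^ (p - 1) := lintegral_mono h1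
    _ = (∫⁻ y, ∫⁻ z, F (y - z) ^ p * Γ z) * (∫⁻ z, Γ z) ^ (p - 1) := by
        rw [lintegral_mul_const _ (Measurable.lintegral_prod_right'
          (f := fun q : V × V => F (q.1 - q.2) ^ p * Γ q.2)
          ((hj.pow_const p).mul (hΓ.comp measurable_snd)))]
    _ = (∫⁻ z, ∫⁻ y, F (y - z) ^ p * Γ z) * (∫⁻ z, Γ z) ^ (p - 1) := by
        rw [lintegral_lintegral_swap
          ((hj.pow_const p).mul (hΓ.comp measurable_snd)).aemeasurable]
    _ = (∫⁻ z, (∫⁻ y, F y ^ p) * Γ z) * (∫⁻ z, Γ z) ^ (p - 1) := by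
        congr 2; funext z
        have hm : Measurable fun y => F (y - z) ^ p :=
          (hF.comp (measurable_id.sub measurable_const)).pow_const p
        rw [lintegral_mul_const _ hm]
        congr 1
        exact lintegral_sub_right_eq_self (fun y => F y ^ p) z
    _ = (∫⁻ z, Γ z) ^ p * ∫⁻ y, F y ^ p := by
        rw [lintegral_const_mul _ hΓ]
        by_cases h0 : ∫⁻ z, Γ z = 0
        · rw [h0, mul_zero, zero_mul, ENNReal.zero_rpow_of_pos (by linarith), zero_mul]
        have : (∫⁻ z, Γ z) ^ p = (∫⁻ z, Γ z) * (∫⁻ z, Γ z) ^ (p - 1) := by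
          conv_rhs => rw [← ENNReal.rpow_one (∫⁻ z, Γ z)]
          rw [← ENNReal.rpow_mul, ← ENNReal.rpow_add _ _ h0 ht]
          congr 1; ring
        rw [this]; ring

/-- Young's inequality for a finite measure on a parameter space -/
lemma young' {W : Type*} [MeasurableSpace W] (ν : Measure W) [IsFiniteMeasure ν] {p : ℝ}
    (hp : 1 ≤ p) {F : V → ℝ≥0∞} {φ : W → V} (hF : Measurable F) (hφ : Measurable φ) :
    ∫⁻ y, (∫⁻ w, F (y - φ w) ∂ν) ^ p ≤ (ν univ) ^ p * ∫⁻ y, F y ^ p := by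
  have hj : Measurable fun q : V × W => F (q.1 - φ q.2) :=
    hF.comp (measurable_fst.sub (hφ.comp measurable_snd))
  have h1 : ∀ y, (∫⁻ w, F (y - φ w) ∂ν) ^ p ≤ (∫⁻ w, F (y - φ w) ^ p ∂ν) *
      (ν univ) ^ (p - 1) := by
    intro y
    have hm : Measurable fun w => F (y - φ w) := hF.comp (measurable_const.sub hφ)
    exact jens ν hp hm.aemeasurable
  calc ∫⁻ y, (∫⁻ w, F (y - φ w) ∂ν) ^ p
      ≤ ∫⁻ y, (∫⁻ w, F (y - φ w) ^ p ∂ν) * (ν univ) ^ (p - 1) := lintegral_mono h1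
    _ = (∫⁻ y, ∫⁻ w, F (y - φ w) ^ p ∂ν) * (ν univ) ^ (p - 1) := by
        rw [lintegral_mul_const _ (Measurable.lintegral_prod_right'
          (f := fun q : V × W => F (q.1 - φ q.2) ^ p) (hj.pow_const p))]
    _ = (∫⁻ w, (∫⁻ y, F (y - φ w) ^ p) ∂ν) * (ν univ) ^ (p - 1) := by
        rw [lintegral_lintegral_swap (hj.pow_const p).aemeasurable]
    _ = (∫⁻ _, (∫⁻ y, F y ^ p) ∂ν) * (ν univ) ^ (p - 1) := by
        congr 2; funext w
        exact lintegral_sub_right_eq_self (fun y => F y ^ p) (φ w)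
    _ = (ν univ) ^ p * ∫⁻ y, F y ^ p := by
        rw [lintegral_const]
        by_cases h0 : ν univ = 0
        · rw [h0, mul_zero, zero_mul, ENNReal.zero_rpow_of_pos (by linarith), zero_mul]
        have : (ν univ) ^ p = (ν univ) * (ν univ) ^ (p - 1) := by
          conv_rhs => rw [← ENNReal.rpow_one (ν univ)]
          rw [← ENNReal.rpow_mul, ← ENNReal.rpow_add _ _ h0 (measure_ne_top ν univ)]
          congr 1; ring
        rw [this]; ring

/-- scaling -/
lemma lint_smul {r : ℝ} (hr : 0 < r) (F : V → ℝ≥0∞) (hF : Measurable F) :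
    ∫⁻ x, F (r • x) = ENNReal.ofReal ((r ^ Module.finrank ℝ V)⁻¹) * ∫⁻ x, F x := by
  have h := Measure.map_addHaar_smul (volume : Measure V) hr.ne'
  rw [← lintegral_map hF (measurable_const_smul r), h, lintegral_smul_measure,
    abs_of_pos (by positivity)]
  rfl

end Pool.Agent.U562.HD
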