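import Pool.Agent.U562.HD.Geo
set_option autoImplicit false

/-! The extension operator of the paraboloid in `ℝ³` -/

namespace Pool.Agent.U562.HD

open MeasureTheory Complex Set Metric Filter Topology
open scoped ENNReal NNReal RealInnerProductSpace Real

abbrev E (n : ℕ) := EuclideanSpace ℝ (Fin n)

/-- the paraboloid -/
noncomputable def Phi (x : E 2) : E 3 := !₂[x 0, x 1, x 0 ^ 2 + x 1 ^ 2]

/-- the Fourier extension operator of the paraboloid over `U` -/
noncomputable def ext (U : Set (E 2)) (f : E 2 → ℂ) (ξ : E 3) : ℂ :=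
  ∫ x in U, cexp (-((⟪Phi x, ξ⟫ : ℝ) : ℂ) * I) * f x

/-- space time coordinates -/
noncomputable def psi (ξ : E 3) : ℝ × E 2 := (ξ 2, !₂[ξ 0, ξ 1])

lemma psi_mp : MeasurePreserving psi (volume : Measure (E 3)) (volume.prod volume) := by
  have h1 : MeasurePreserving (fun ξ : E 3 => (WithLp.ofLp ξ : Fin 3 → ℝ)) :=
    PiLp.volume_preserving_ofLp (Fin 3)
  have h2 := volume_preserving_piFinSuccAbove (fun _ : Fin 3 => ℝ) (Fin.last 2)
  have h3 : MeasurePreserving (fun w : Fin 2 → ℝ => (WithLp.toLp 2 w : E 2)) :=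
    PiLp.volume_preserving_toLp (Fin 2)
  have h4 := (MeasurePreserving.id (volume : Measure ℝ)).prod h3
  have h5 := (h4.comp h2).comp h1
  have e : psi = (Prod.map id (fun w : Fin 2 → ℝ => (WithLp.toLp 2 w : E 2)) ∘
      (MeasurableEquiv.piFinSuccAbove (fun _ : Fin 3 => ℝ) (Fin.last 2))) ∘
      (fun ξ : E 3 => (WithLp.ofLp ξ : Fin 3 → ℝ)) := by
    funext ξ
    refine Prod.ext rfl ?_
    ext i
    fin_cases i <;> rfl
  rw [e]
  exact h5

lemma ext_eq (U : Set (E 2)) (f : E 2 → ℂ) (ξ : E 3) :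
    ext U f ξ = ∫ y in U, ph (psi ξ).1 (psi ξ).2 y * f y := by
  unfold ext
  congr 1; funext x
  congr 2
  unfold Phi psi
  have h1 : ‖x‖ ^ 2 = x 0 ^ 2 + x 1 ^ 2 := by
    rw [EuclideanSpace.real_norm_sq_eq]; simp [Fin.sum_univ_two]
  simp only [PiLp.inner_apply, Fin.sum_univ_three, Fin.sum_univ_two, h1]
  simp

lemma ext_Ft {U : Set (E 2)} (hU : MeasurableSet U) (f : E 2 → ℂ) (ξ : E 3) :
    ext U f ξ = Ft (psi ξ).1 (U.indicator f) (psi ξ).2 := by
  rw [ext_eq]
  unfold Ft
  rw [← integral_indicator hU]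
  congr 1; funext y
  by_cases h : y ∈ U
  · rw [indicator_of_mem h, indicator_of_mem h]
  · rw [indicator_of_notMem h, indicator_of_notMem h, mul_zero]

lemma Ft_sm {V : Type*} [NormedAddCommGroup V] [InnerProductSpace ℝ V] [FiniteDimensional ℝ V]
    [MeasurableSpace V] [BorelSpace V] {f : V → ℂ} (hf : Measurable f) :
    StronglyMeasurable (fun P : ℝ × V => Ft P.1 f P.2) := by
  have h1 : StronglyMeasurable (fun q : (ℝ × V) × V => ph q.1.1 q.1.2 q.2 * f q.2) := by
    have h2 : Continuous (fun q : (ℝ × V) × V => ph q.1.1 q.1.2 q.2) :=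
      ph_cc (by fun_prop) (by fun_prop) (by fun_prop)
    exact (h2.measurable.mul (hf.comp measurable_snd)).stronglyMeasurable
  exact h1.integral_prod_right'

lemma ext_norm {U : Set (E 2)} (hU : MeasurableSet U) {f : E 2 → ℂ}
    (hf : Measurable (U.indicator f)) (q : ℝ≥0∞) :
    eLpNorm (ext U f) q volume =
      eLpNorm (fun P : ℝ × E 2 => Ft P.1 (U.indicator f) P.2) q (volume.prod volume) := by
  have e : ext U f = (fun P : ℝ × E 2 => Ft P.1 (U.indicator f) P.2) ∘ psi := by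
    funext ξ; exact ext_Ft hU f ξ
  rw [e]
  exact eLpNorm_comp_measurePreserving (Ft_sm hf).aestronglyMeasurable psi_mp

/-- modulations on the paraboloid are translations of the extension -/
lemma ext_mod (U : Set (E 2)) (f : E 2 → ℂ) (η ξ : E 3) :
    ext U (fun x => cexp (((⟪Phi x, η⟫ : ℝ) : ℂ) * I) * f x) ξ = ext U f (ξ - η) := by
  unfold ext
  congr 1; funext x
  rw [← mul_assoc, ← Complex.exp_add, inner_sub_right]
  congr 2
  push_cast; ring

lemma ext_mod_norm {U : Set (E 2)} (hU : MeasurableSet U) {f : E 2 → ℂ}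
    (hf : Measurable (U.indicator f)) (q : ℝ≥0∞) (η : E 3) :
    eLpNorm (ext U (fun x => cexp (((⟪Phi x, η⟫ : ℝ) : ℂ) * I) * f x)) q volume =
      eLpNorm (ext U f) q volume := by
  have e : ext U (fun x => cexp (((⟪Phi x, η⟫ : ℝ) : ℂ) * I) * f x) =
      ext U f ∘ fun ξ => ξ - η := by
    funext ξ; exact ext_mod U f η ξ
  rw [e]
  have e2 : ext U f = (fun P : ℝ × E 2 => Ft P.1 (U.indicator f) P.2) ∘ psi := by
    funext ξ; exact ext_Ft hU f ξ
  have hm : AEStronglyMeasurable (ext U f) volume := by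
    rw [e2]
    exact (Ft_sm hf).aestronglyMeasurable.comp_measurePreserving psi_mp
  exact eLpNorm_comp_measurePreserving hm (measurePreserving_sub_right volume η)

/-- removing a null set -/
lemma ext_null {U S : Set (E 2)} (hS : volume S = 0) (f : E 2 → ℂ) : ext U f = ext (U \ S) f := by
  funext ξ
  unfold ext
  have h : (U \ S : Set (E 2)) =ᵐ[volume] U := diff_null_ae_eq_self hS
  rw [Measure.restrict_congr_set h]

lemma strip_meas {γ : ℝ → ℝ} (hγ : Measurable γ) (c ρ β : ℝ) :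
    MeasurableSet {w : ℝ × ℝ | |w.2 - γ w.1| < c ∧ |w.1 - β| < ρ} := by
  have h1 : Measurable fun w : ℝ × ℝ => |w.2 - γ w.1| :=
    continuous_abs.measurable.comp (measurable_snd.sub (hγ.comp measurable_fst))
  have h2 : Measurable fun w : ℝ × ℝ => |w.1 - β| :=
    continuous_abs.measurable.comp (measurable_fst.sub measurable_const)
  exact (measurableSet_lt h1 measurable_const).inter (measurableSet_lt h2 measurable_const)

/-- strips around graphs -/
lemma strip_vol {γ : ℝ → ℝ} (hγ : Measurable γ) {c ρ β : ℝ} :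
    volume {w : ℝ × ℝ | |w.2 - γ w.1| < c ∧ |w.1 - β| < ρ} ≤
      ENNReal.ofReal (2 * c) * ENNReal.ofReal (2 * ρ) := by
  have hm : MeasurableSet {w : ℝ × ℝ | |w.2 - γ w.1| < c ∧ |w.1 - β| < ρ} := strip_meas hγ c ρ β
  rw [Measure.volume_eq_prod, Measure.prod_apply hm]
  calc ∫⁻ u, volume (Prod.mk u ⁻¹' {w : ℝ × ℝ | |w.2 - γ w.1| < c ∧ |w.1 - β| < ρ})
      ≤ ∫⁻ u, (ball β ρ).indicator (fun _ => ENNReal.ofReal (2 * c)) u := by
        apply lintegral_mono
        intro u
        beta_reduce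
        by_cases h : |u - β| < ρ
        · rw [indicator_of_mem (by rw [mem_ball, Real.dist_eq]; exact h)]
          calc volume (Prod.mk u ⁻¹' {w : ℝ × ℝ | |w.2 - γ w.1| < c ∧ |w.1 - β| < ρ})
              ≤ volume (ball (γ u) c) := by
                apply measure_mono
                intro v hv
                have : |v - γ u| < c := hv.1
                rw [mem_ball, Real.dist_eq]; exact this
            _ = _ := Real.volume_ball _ _
        · have : Prod.mk u ⁻¹' {w : ℝ × ℝ | |w.2 - γ w.1| < c ∧ |w.1 - β| < ρ} = ∅ := by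
            rw [eq_empty_iff_forall_notMem]
            intro v hv
            exact h hv.2
          rw [this, measure_empty]
          exact bot_le
    _ = ENNReal.ofReal (2 * c) * ENNReal.ofReal (2 * ρ) := by
        rw [lintegral_indicator measurableSet_ball, setLIntegral_const, Real.volume_ball]

/-- `K` is covered by `N` graphs of `L`-Lipschitz functions over the coordinate axes -/
def LipCurves (N : ℕ) (L : ℝ≥0) (K : Set (E 2)) : Prop :=
  ∃ (γ : Fin N → ℝ → ℝ) (j : Fin N → Fin 2), (∀ i, LipschitzWith L (γ i)) ∧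
    ∀ x ∈ K, ∃ i, x (1 - j i) = γ i (x (j i))

lemma coord_le (x y : E 2) (i : Fin 2) : |x i - y i| ≤ dist x y := by
  have := EuclideanSpace.norm_eq (x - y)
  rw [dist_eq_norm]
  have h := PiLp.norm_apply_le (x - y) i
  simpa using h

lemma strip_E2 {γ : ℝ → ℝ} (hγ : Measurable γ) (j : Fin 2) {c ρ β : ℝ} :
    volume {x : E 2 | |x (1 - j) - γ (x j)| < c ∧ |x j - β| < ρ} ≤
      ENNReal.ofReal (2 * c) * ENNReal.ofReal (2 * ρ) := by
  have h1 : MeasurePreserving (fun ξ : E 2 => (WithLp.ofLp ξ : Fin 2 → ℝ)) :=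
    PiLp.volume_preserving_ofLp (Fin 2)
  have h2 := volume_preserving_finTwoArrow ℝ
  have h3 := h2.comp h1
  have hm : MeasurableSet {w : ℝ × ℝ | |w.2 - γ w.1| < c ∧ |w.1 - β| < ρ} := strip_meas hγ c ρ β
  have hj : j = 0 ∨ j = 1 := by
    fin_cases j
    · exact Or.inl rfl
    · exact Or.inr rfl
  rcases hj with rfl | rfl
  · have e : {x : E 2 | |x (1 - 0) - γ (x 0)| < c ∧ |x 0 - β| < ρ} =
        ((MeasurableEquiv.finTwoArrow : (Fin 2 → ℝ) ≃ᵐ ℝ × ℝ) ∘
          (fun ξ : E 2 => (WithLp.ofLp ξ : Fin 2 → ℝ))) ⁻¹'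
        {w : ℝ × ℝ | |w.2 - γ w.1| < c ∧ |w.1 - β| < ρ} := by
      ext x; rfl
    rw [e, h3.measure_preimage hm.nullMeasurableSet]
    exact strip_vol hγ
  · have h4 := (Measure.measurePreserving_swap (μ := (volume : Measure ℝ))
      (ν := (volume : Measure ℝ)))
    have h5 := h4.comp h3
    have e : {x : E 2 | |x (1 - 1) - γ (x 1)| < c ∧ |x 1 - β| < ρ} =
        (Prod.swap ∘ ((MeasurableEquiv.finTwoArrow : (Fin 2 → ℝ) ≃ᵐ ℝ × ℝ) ∘
          (fun ξ : E 2 => (WithLp.ofLp ξ : Fin 2 → ℝ)))) ⁻¹'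
        {w : ℝ × ℝ | |w.2 - γ w.1| < c ∧ |w.1 - β| < ρ} := by
      ext x; rfl
    rw [e, h5.measure_preimage hm.nullMeasurableSet]
    exact strip_vol hγ

/-- finite unions of Lipschitz graphs are thin -/
lemma thin_of_curves {N : ℕ} {L : ℝ≥0} {K : Set (E 2)} (hne : K.Nonempty)
    (hK : LipCurves N L K) : Thin (4 * N * (1 + L)) K := by
  intro b ρ s hρ hs
  obtain ⟨γ, j, hγ, hcov⟩ := hK
  have hsub : ball b ρ ∩ {x | infDist x K < s} ⊆
      ⋃ i, {x : E 2 | |x (1 - j i) - γ i (x (j i))| < (1 + L) * s ∧ |x (j i) - b (j i)| < ρ} := by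
    intro x hx
    obtain ⟨y, hy, hxy⟩ := (infDist_lt_iff hne).mp hx.2
    obtain ⟨i, hi⟩ := hcov y hy
    refine mem_iUnion.mpr ⟨i, ?_, ?_⟩
    · have h1 := coord_le x y (1 - j i)
      have h2 := coord_le x y (j i)
      have h3 := (hγ i).dist_le_mul (y (j i)) (x (j i))
      rw [Real.dist_eq, Real.dist_eq, abs_sub_comm (y (j i))] at h3
      have hL : (0 : ℝ) ≤ L := L.2
      calc |x (1 - j i) - γ i (x (j i))|
          = |(x (1 - j i) - y (1 - j i)) + (γ i (y (j i)) - γ i (x (j i)))| := by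
            rw [hi]; congr 1; ring
        _ ≤ |x (1 - j i) - y (1 - j i)| + |γ i (y (j i)) - γ i (x (j i))| := abs_add_le _ _
        _ ≤ dist x y + L * dist x y := by
            refine add_le_add h1 (h3.trans ?_)
            gcongr
        _ = (1 + L) * dist x y := by ring
        _ < (1 + L) * s := by gcongr
    · calc |x (j i) - b (j i)| ≤ dist x b := coord_le x b (j i)
        _ < ρ := hx.1
  calc volume (ball b ρ ∩ {x | infDist x K < s})
      ≤ volume (⋃ i, {x : E 2 | |x (1 - j i) - γ i (x (j i))| < (1 + L) * s ∧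
          |x (j i) - b (j i)| < ρ}) := measure_mono hsub
    _ ≤ ∑ i : Fin N, volume {x : E 2 | |x (1 - j i) - γ i (x (j i))| < (1 + L) * s ∧
          |x (j i) - b (j i)| < ρ} := measure_iUnion_fintype_le _ _
    _ ≤ ∑ i : Fin N, ENNReal.ofReal (2 * ((1 + L) * s)) * ENNReal.ofReal (2 * ρ) :=
        Finset.sum_le_sum fun i _ => strip_E2 (hγ i).continuous.measurable (j i)
    _ = ENNReal.ofReal (4 * N * (1 + L) * ρ * s) := by
        rw [Finset.sum_const, Finset.card_univ, Fintype.card_fin, nsmul_eq_mul,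
          ← ENNReal.ofReal_mul (by positivity), ← ENNReal.ofReal_natCast,
          ← ENNReal.ofReal_mul (by positivity)]
        congr 1; ring

end Pool.Agent.U562.HD
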