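import Pool.Agent.U562.HD.Op
set_option autoImplicit false

/-! The fixed time estimate: local `L¹`-`L²` interpolation -/

namespace Pool.Agent.U562.HD

open MeasureTheory Complex Set Metric Filter Topology
open scoped ENNReal NNReal RealInnerProductSpace Real

variable {V : Type*} [NormedAddCommGroup V] [InnerProductSpace ℝ V] [FiniteDimensional ℝ V]
  [MeasurableSpace V] [BorelSpace V]

/-- the indicator of the ball as a complex function -/
noncomputable def gb (ρ : ℝ) : V → ℂ := (ball (0 : V) ρ).indicator (fun _ => (1 : ℂ))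

lemma gb_meas (ρ : ℝ) : Measurable (gb ρ : V → ℂ) :=
  measurable_const.indicator measurableSet_ball

lemma gb_int (ρ : ℝ) : Integrable (gb ρ : V → ℂ) := by
  unfold gb
  rw [integrable_indicator_iff measurableSet_ball]
  exact integrableOn_const (measure_ball_lt_top.ne)

lemma gb_integral (ρ : ℝ) : ∫ z : V, gb ρ z = ((volume (ball (0 : V) ρ)).toReal : ℂ) := by
  unfold gb
  rw [integral_indicator measurableSet_ball]
  simp [Measure.real]

lemma gb_norm_le (ρ : ℝ) (z : V) : ‖gb ρ z‖ ≤ 1 := by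
  unfold gb
  by_cases h : z ∈ ball (0 : V) ρ
  · rw [indicator_of_mem h]; simp
  · rw [indicator_of_notMem h]; simp

lemma gb_of_lt {ρ : ℝ} {b y : V} (h : y ∈ ball b ρ) : gb ρ (b - y) = 1 := by
  unfold gb
  rw [indicator_of_mem]
  rw [mem_ball_zero_iff, ← dist_eq_norm, dist_comm]; exact h

lemma gb_of_not {ρ : ℝ} {b y : V} (h : y ∉ ball b ρ) : gb ρ (b - y) = 0 := by
  unfold gb
  rw [indicator_of_notMem]
  rw [mem_ball_zero_iff, ← dist_eq_norm, dist_comm]; exact h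

/-- the piece of `h` in the ball with centre `b` -/
noncomputable def hb (ρ : ℝ) (h : V → ℂ) (b y : V) : ℂ := h y * gb ρ (b - y)

lemma hb_meas {h : V → ℂ} (hh : Measurable h) (ρ : ℝ) (b : V) : Measurable (hb ρ h b) := by
  have h1 : Measurable fun y : V => b - y := measurable_const.sub measurable_id
  exact hh.mul ((gb_meas ρ).comp h1)

lemma hb_int {h : V → ℂ} (hi : Integrable h) (ρ : ℝ) (b : V) : Integrable (hb ρ h b) := by
  have h1 : Measurable fun y : V => b - y := measurable_const.sub measurable_id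
  exact hi.mul_bdd (c := 1) ((gb_meas ρ).comp h1).aestronglyMeasurable
    (Eventually.of_forall fun y => gb_norm_le ρ _)

lemma hb_lint {p : ℝ} (hp : 0 < p) (ρ : ℝ) (h : V → ℂ) (b : V) :
    ∫⁻ y, ‖hb ρ h b y‖ₑ ^ p = ∫⁻ y in ball b ρ, ‖h y‖ₑ ^ p := by
  rw [← lintegral_indicator measurableSet_ball]
  congr 1; funext y
  unfold hb
  by_cases hy : y ∈ ball b ρ
  · rw [indicator_of_mem hy, gb_of_lt hy, mul_one]
  · rw [indicator_of_notMem hy, gb_of_not hy, mul_zero, enorm_zero, ENNReal.zero_rpow_of_pos hp]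

/-- joint measurability -/
lemma Tb_sm (a t ρ : ℝ) {h : V → ℂ} (hh : Measurable h) :
    StronglyMeasurable (fun p : V × V => Tt a t (hb ρ h p.1) p.2) := by
  have h1 : Measurable (fun q : (V × V) × V => hb ρ h q.1.1 q.2 * kern a t q.1.2 q.2) := by
    apply Measurable.mul
    · unfold hb
      exact (hh.comp measurable_snd).mul ((gb_meas ρ).comp
        ((measurable_fst.comp measurable_fst).sub measurable_snd))
    · have h2 := (kern_sm (V := V) a).measurable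
      have hg : Measurable (fun q : (V × V) × V => (((t, q.1.2), q.2) : (ℝ × V) × V)) := by
        fun_prop
      exact h2.comp hg
  exact h1.stronglyMeasurable.integral_prod_right'

/-- `T` is the average of its pieces -/
lemma avg {a : ℝ} (ha : 0 < a) (t ρ : ℝ) {h : V → ℂ} (hi : Integrable h) (x : V) :
    volume (ball (0 : V) ρ) * ‖Tt a t h x‖ₑ ≤ ∫⁻ b, ‖Tt a t (hb ρ h b) x‖ₑ := by
  have key : ∫ b, Tt a t (hb ρ h b) x = ((volume (ball (0 : V) ρ)).toReal : ℂ) * Tt a t h x := by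
    unfold Tt hb
    rw [integral_integral_swap]
    · rw [← integral_const_mul]
      congr 1; funext y
      have e : ∀ b, h y * gb ρ (b - y) * kern a t x y = (h y * kern a t x y) * gb ρ (b - y) := by
        intro b; ring
      simp_rw [e]
      rw [integral_const_mul, integral_sub_right_eq_self (fun z => gb ρ z) y, gb_integral]
      ring
    · have h1 : Integrable (fun p : V × V => h p.2 * gb ρ (p.1 - p.2)) (volume.prod volume) :=
        hi.convolution_integrand (ContinuousLinearMap.mul ℂ ℂ) (gb_int ρ)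
      exact h1.mul_bdd (c := 1) ((kern_meas_y a t x).comp measurable_snd).aestronglyMeasurable
        (Eventually.of_forall fun p => kern_norm_le ha t x p.2)
  calc volume (ball (0 : V) ρ) * ‖Tt a t h x‖ₑ
      = ‖((volume (ball (0 : V) ρ)).toReal : ℂ) * Tt a t h x‖ₑ := by
        rw [enorm_mul]; congr 1
        rw [← ofReal_norm, Complex.norm_real, Real.norm_of_nonneg ENNReal.toReal_nonneg,
          ENNReal.ofReal_toReal measure_ball_lt_top.ne]
    _ = ‖∫ b, Tt a t (hb ρ h b) x‖ₑ := by rw [key]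
    _ ≤ _ := enorm_integral_le_lintegral_enorm _

lemma expo {β t ρ : ℝ} (hβ : 0 ≤ β) (h4 : 4 * β * t ^ 2 * ρ ^ 2 = 1) {x y b : V}
    (hy : y ∈ ball b ρ) :
    rexp (-(β * ‖x + (2 * t) • y‖ ^ 2)) ≤ rexp 1 * rexp (-(β / 2 * ‖x + (2 * t) • b‖ ^ 2)) := by
  rw [← Real.exp_add]
  apply Real.exp_le_exp.mpr
  have h1 : ‖x + (2 * t) • b‖ ≤ ‖x + (2 * t) • y‖ + ‖(2 * t) • (b - y)‖ := by
    calc ‖x + (2 * t) • b‖ = ‖(x + (2 * t) • y) + (2 * t) • (b - y)‖ := by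
          congr 1; rw [smul_sub]; abel
      _ ≤ _ := norm_add_le _ _
  have h2 : ‖(2 * t) • (b - y)‖ ^ 2 ≤ 4 * t ^ 2 * ρ ^ 2 := by
    rw [norm_smul, mul_pow, Real.norm_eq_abs, sq_abs]
    have h3 : ‖b - y‖ ≤ ρ := by
      rw [← dist_eq_norm, dist_comm]; exact (mem_ball.mp hy).le
    have h4 : ‖b - y‖ ^ 2 ≤ ρ ^ 2 := by
      have := norm_nonneg (b - y)
      nlinarith
    nlinarith [sq_nonneg t]
  have h3 : ‖x + (2 * t) • b‖ ^ 2 ≤ 2 * ‖x + (2 * t) • y‖ ^ 2 + 2 * ‖(2 * t) • (b - y)‖ ^ 2 := by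
    nlinarith [norm_nonneg (x + (2 * t) • b), sq_nonneg (‖x + (2 * t) • y‖ - ‖(2 * t) • (b - y)‖)]
  nlinarith

/-- the pointwise bound of the pieces -/
lemma piece_le {a : ℝ} (ha : 0 < a) {t ρ β : ℝ} (hβ : β = a / (4 * (1 + (t * a) ^ 2)))
    (h4 : 4 * β * t ^ 2 * ρ ^ 2 = 1) (h : V → ℂ) (b x : V) :
    ‖Tt a t (hb ρ h b) x‖ₑ ≤
      ENNReal.ofReal (rexp (-(β / 2 * ‖x + (2 * t) • b‖ ^ 2))) *
        (ENNReal.ofReal (rexp 1) * (ENNReal.ofReal (sg V a t) * ∫⁻ y in ball b ρ, ‖h y‖ₑ)) := by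
  have hβ0 : 0 ≤ β := by rw [hβ]; positivity
  have hsg := (sg_pos (V := V) a t).le
  calc ‖Tt a t (hb ρ h b) x‖ₑ ≤ ∫⁻ y, ‖hb ρ h b y * kern a t x y‖ₑ :=
        enorm_integral_le_lintegral_enorm _
    _ ≤ ∫⁻ y, (ball b ρ).indicator (fun y => ENNReal.ofReal (rexp (-(β / 2 * ‖x + (2 * t) • b‖ ^ 2)) *
          (rexp 1 * sg V a t)) * ‖h y‖ₑ) y := by
        apply lintegral_mono
        intro y
        by_cases hy : y ∈ ball b ρ
        · rw [indicator_of_mem hy]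
          show ‖h y * gb ρ (b - y) * kern a t x y‖ₑ ≤ _
          rw [gb_of_lt hy, mul_one, enorm_mul, mul_comm]
          gcongr
          rw [← ofReal_norm]
          apply ENNReal.ofReal_le_ofReal
          rw [kern_norm ha, ← hβ]
          have := expo hβ0 h4 (x := x) hy
          calc sg V a t * rexp (-(β * ‖x + (2 * t) • y‖ ^ 2))
              ≤ sg V a t * (rexp 1 * rexp (-(β / 2 * ‖x + (2 * t) • b‖ ^ 2))) := by gcongr
            _ = _ := by ring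
        · show ‖h y * gb ρ (b - y) * kern a t x y‖ₑ ≤ _
          rw [gb_of_not hy]; simp
    _ = ENNReal.ofReal (rexp (-(β / 2 * ‖x + (2 * t) • b‖ ^ 2)) * (rexp 1 * sg V a t)) *
          ∫⁻ y in ball b ρ, ‖h y‖ₑ := by
        rw [lintegral_indicator measurableSet_ball, lintegral_const_mul' _ _ ENNReal.ofReal_ne_top]
    _ = _ := by
        rw [ENNReal.ofReal_mul (Real.exp_nonneg _), ENNReal.ofReal_mul (Real.exp_nonneg _)]
        ring

/-- weighted Jensen -/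
lemma jensw {α : Type*} [MeasurableSpace α] (μ : Measure α) {q : ℝ} (hq : 1 ≤ q)
    {F : α → ℝ≥0∞} (hF : Measurable F) {w : α → ℝ} (hw : Measurable w) :
    (∫⁻ b, F b ∂μ) ^ q ≤ (∫⁻ b, F b ^ q * ENNReal.ofReal (rexp ((q - 1) * w b)) ∂μ) *
      (∫⁻ b, ENNReal.ofReal (rexp (-(w b))) ∂μ) ^ (q - 1) := by
  have hmw : Measurable fun b => ENNReal.ofReal (rexp (-(w b))) :=
    (Real.measurable_exp.comp hw.neg).ennreal_ofReal
  have hG : Measurable fun b => F b * ENNReal.ofReal (rexp (w b)) :=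
    hF.mul (Real.measurable_exp.comp hw).ennreal_ofReal
  have hGp : Measurable fun b => (F b * ENNReal.ofReal (rexp (w b))) ^ q := hG.pow_const q
  have h := jens (μ.withDensity fun b => ENNReal.ofReal (rexp (-(w b)))) hq
    (f := fun b => F b * ENNReal.ofReal (rexp (w b))) hG.aemeasurable
  rw [lintegral_withDensity_eq_lintegral_mul _ hmw hG,
    lintegral_withDensity_eq_lintegral_mul _ hmw hGp,
    withDensity_apply _ MeasurableSet.univ, Measure.restrict_univ] at h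
  simp only [Pi.mul_apply] at h
  have e1 : ∀ b, ENNReal.ofReal (rexp (-(w b))) * (F b * ENNReal.ofReal (rexp (w b))) = F b := by
    intro b
    rw [mul_comm, mul_assoc, ← ENNReal.ofReal_mul (Real.exp_nonneg _), ← Real.exp_add,
      add_neg_cancel, Real.exp_zero, ENNReal.ofReal_one, mul_one]
  have e2 : ∀ b, ENNReal.ofReal (rexp (-(w b))) * (F b * ENNReal.ofReal (rexp (w b))) ^ q =
      F b ^ q * ENNReal.ofReal (rexp ((q - 1) * w b)) := by
    intro b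
    rw [ENNReal.mul_rpow_of_nonneg _ _ (by linarith), mul_comm, mul_assoc,
      ENNReal.ofReal_rpow_of_pos (Real.exp_pos _), ← ENNReal.ofReal_mul (by positivity),
      ← Real.exp_mul, ← Real.exp_add]
    congr 3; ring
  simp_rw [e1, e2] at h
  exact h

/-- the integral of the weight -/
lemma weight_int {κ t : ℝ} (hκ : 0 < κ) (ht : t ≠ 0) (x : V) :
    ∫⁻ b, ENNReal.ofReal (rexp (-(κ * ‖x + (2 * t) • b‖ ^ 2))) =
      ENNReal.ofReal ((π / (4 * κ * t ^ 2)) ^ (Module.finrank ℝ V / 2 : ℝ)) := by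
  have hb : 0 < 4 * κ * t ^ 2 := by positivity
  have h := GaussianFourier.integral_rexp_neg_mul_sq_norm (V := V) hb
  have hi : Integrable fun v : V => rexp (-(4 * κ * t ^ 2) * ‖v‖ ^ 2) := by
    by_contra hc
    rw [integral_undef hc] at h
    have : 0 < (π / (4 * κ * t ^ 2)) ^ (Module.finrank ℝ V / 2 : ℝ) := by positivity
    linarith
  have e : ∀ b : V, rexp (-(κ * ‖x + (2 * t) • b‖ ^ 2)) =
      rexp (-(4 * κ * t ^ 2) * ‖b + (2 * t)⁻¹ • x‖ ^ 2) := by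
    intro b
    have e1 : x + (2 * t) • b = (2 * t) • (b + (2 * t)⁻¹ • x) := by
      rw [smul_add, smul_smul, mul_inv_cancel₀ (by positivity), one_smul, add_comm]
    rw [e1, norm_smul, mul_pow, Real.norm_eq_abs, sq_abs]
    congr 1; ring
  simp_rw [e]
  rw [lintegral_add_right_eq_self (fun b : V => ENNReal.ofReal (rexp (-(4 * κ * t ^ 2) * ‖b‖ ^ 2)))
    ((2 * t)⁻¹ • x), ← h, ofReal_integral_eq_lintegral_ofReal hi
    (Eventually.of_forall fun v => (Real.exp_pos _).le)]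

/-- the constant -/
noncomputable def cF (V : Type*) [NormedAddCommGroup V] [InnerProductSpace ℝ V]
    [FiniteDimensional ℝ V] [MeasurableSpace V] [BorelSpace V] (q : ℝ) : ℝ≥0∞ :=
  (ENNReal.ofReal ((2 * π * (q - 1) / (q - 2)) ^ (Module.finrank ℝ V / 2 : ℝ)) /
    volume (ball (0 : V) 1)) ^ (q - 1) * (ENNReal.ofReal (rexp 1)) ^ (q - 2) *
    ENNReal.ofReal ((2 * π) ^ Module.finrank ℝ V)

lemma vol_ne_zero {ρ : ℝ} (hρ : 0 < ρ) : volume (ball (0 : V) ρ) ≠ 0 :=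
  (measure_ball_pos _ _ hρ).ne'

lemma vol_ne_top (ρ : ℝ) : volume (ball (0 : V) ρ) ≠ ∞ := measure_ball_lt_top.ne

lemma cF_ne_top {q : ℝ} (hq : 2 < q) : cF V q ≠ ∞ := by
  unfold cF
  apply ENNReal.mul_ne_top (ENNReal.mul_ne_top _ _) ENNReal.ofReal_ne_top
  · apply ENNReal.rpow_ne_top_of_nonneg (by linarith)
    exact ENNReal.div_ne_top ENNReal.ofReal_ne_top (vol_ne_zero one_pos)
  · exact ENNReal.rpow_ne_top_of_nonneg (by linarith) ENNReal.ofReal_ne_top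

lemma Tb_meas_b (a t ρ : ℝ) {h : V → ℂ} (hh : Measurable h) (x : V) :
    Measurable (fun b => ‖Tt a t (hb ρ h b) x‖ₑ) := by
  have h1 : Measurable (fun p : V × V => ‖Tt a t (hb ρ h p.1) p.2‖ₑ) :=
    (Tb_sm a t ρ hh).measurable.enorm
  have hg : Measurable (fun b : V => ((b, x) : V × V)) := by fun_prop
  have h2 : Measurable ((fun p : V × V => ‖Tt a t (hb ρ h p.1) p.2‖ₑ) ∘
      (fun b : V => ((b, x) : V × V))) := h1.comp hg
  have e : ((fun p : V × V => ‖Tt a t (hb ρ h p.1) p.2‖ₑ) ∘ (fun b : V => ((b, x) : V × V))) =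
      fun b => ‖Tt a t (hb ρ h b) x‖ₑ := by funext b; simp only [Function.comp_apply]
  rw [e] at h2
  exact h2

lemma Tb_meas_x (a t ρ : ℝ) {h : V → ℂ} (hh : Measurable h) (b : V) :
    Measurable (fun x => ‖Tt a t (hb ρ h b) x‖ₑ) := (Tt_meas a t (hb_meas hh ρ b)).enorm

lemma N_meas (ρ : ℝ) {h : V → ℂ} (hh : Measurable h) :
    Measurable (fun b : V => ∫⁻ y in ball b ρ, ‖h y‖ₑ) := by
  have hm : Measurable fun b => ∫⁻ y, ‖hb ρ h b y‖ₑ := by
    apply Measurable.lintegral_prod_right' (f := fun p : V × V => ‖hb ρ h p.1 p.2‖ₑ)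
    apply Measurable.enorm
    unfold hb
    exact (hh.comp measurable_snd).mul ((gb_meas ρ).comp (measurable_fst.sub measurable_snd))
  have e : (fun b => ∫⁻ y, ‖hb ρ h b y‖ₑ) = fun b => ∫⁻ y in ball b ρ, ‖h y‖ₑ := by
    funext b
    have := hb_lint (p := 1) one_pos ρ h b
    simpa only [ENNReal.rpow_one] using this
  rw [e] at hm
  exact hm

lemma weight_vol {q β t ρ : ℝ} (hq : 2 < q) (hβ0 : 0 < β) (ht : t ≠ 0) (hρ : 0 < ρ)
    (h4 : 4 * β * t ^ 2 * ρ ^ 2 = 1) (x : V) :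
    ∫⁻ b, ENNReal.ofReal (rexp (-((q - 2) / (q - 1) * (β / 2) * ‖x + (2 * t) • b‖ ^ 2))) =
      ENNReal.ofReal ((2 * π * (q - 1) / (q - 2)) ^ (Module.finrank ℝ V / 2 : ℝ)) /
        volume (ball (0 : V) 1) * volume (ball (0 : V) ρ) := by
  have hq1 : 0 < q - 1 := by linarith
  have hq2 : 0 < q - 2 := by linarith
  have hκ0 : 0 < (q - 2) / (q - 1) * (β / 2) := by positivity
  rw [weight_int hκ0 ht, Measure.addHaar_ball_of_pos _ _ hρ]
  have e : (π / (4 * ((q - 2) / (q - 1) * (β / 2)) * t ^ 2)) =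
      (2 * π * (q - 1) / (q - 2)) * ρ ^ 2 := by
    have h5 : β = 1 / (4 * t ^ 2 * ρ ^ 2) := by
      field_simp; linarith
    rw [h5]
    field_simp
  rw [e, Real.mul_rpow (by positivity) (by positivity), ← Real.rpow_natCast ρ 2,
    ← Real.rpow_mul hρ.le]
  have e2 : ((2 : ℕ) : ℝ) * (Module.finrank ℝ V / 2 : ℝ) = (Module.finrank ℝ V : ℕ) := by
    push_cast; ring
  rw [e2, Real.rpow_natCast, ENNReal.ofReal_mul (by positivity)]
  have hω0 : volume (ball (0 : V) 1) ≠ 0 := vol_ne_zero one_pos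
  have hωt : volume (ball (0 : V) 1) ≠ ∞ := vol_ne_top 1
  generalize volume (ball (0 : V) 1) = ω at *
  generalize ENNReal.ofReal (ρ ^ Module.finrank ℝ V) = r at *
  generalize ENNReal.ofReal ((2 * π * (q - 1) / (q - 2)) ^ (Module.finrank ℝ V / 2 : ℝ)) = c at *
  rw [ENNReal.div_eq_inv_mul]
  calc c * r = (ω⁻¹ * ω) * (c * r) := by rw [ENNReal.inv_mul_cancel hω0 hωt, one_mul]
    _ = _ := by ring

lemma fixed_step {q β a t ρ : ℝ} (hq : 2 < q) (ha : 0 < a) (ht : t ≠ 0) (hρ : 0 < ρ)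
    (hβ : β = a / (4 * (1 + (t * a) ^ 2)))
    (h4 : 4 * β * t ^ 2 * ρ ^ 2 = 1) {h : V → ℂ} (hh : Measurable h) (hi : Integrable h) (x : V) :
    (volume (ball (0 : V) ρ) * ‖Tt a t h x‖ₑ) ^ q ≤
      (∫⁻ b, (ENNReal.ofReal (rexp 1) * (ENNReal.ofReal (sg V a t) *
        ∫⁻ y in ball b ρ, ‖h y‖ₑ)) ^ (q - 2) * ‖Tt a t (hb ρ h b) x‖ₑ ^ 2) *
      (ENNReal.ofReal ((2 * π * (q - 1) / (q - 2)) ^ (Module.finrank ℝ V / 2 : ℝ)) /
        volume (ball (0 : V) 1) * volume (ball (0 : V) ρ)) ^ (q - 1) := by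
  have hβ0 : 0 < β := by rw [hβ]; positivity
  have hq1 : q - 1 ≠ 0 := by linarith
  have hw : Measurable fun b : V => (q - 2) / (q - 1) * (β / 2) * ‖x + (2 * t) • b‖ ^ 2 := by
    fun_prop
  calc (volume (ball (0 : V) ρ) * ‖Tt a t h x‖ₑ) ^ q
      ≤ (∫⁻ b, ‖Tt a t (hb ρ h b) x‖ₑ) ^ q :=
        ENNReal.rpow_le_rpow (avg ha t ρ hi x) (by linarith)
    _ ≤ (∫⁻ b, ‖Tt a t (hb ρ h b) x‖ₑ ^ q * ENNReal.ofReal
          (rexp ((q - 1) * ((q - 2) / (q - 1) * (β / 2) * ‖x + (2 * t) • b‖ ^ 2)))) *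
        (∫⁻ b, ENNReal.ofReal (rexp (-((q - 2) / (q - 1) * (β / 2) *
          ‖x + (2 * t) • b‖ ^ 2)))) ^ (q - 1) :=
        jensw volume (by linarith) (Tb_meas_b a t ρ hh x) hw
    _ ≤ _ := by
        rw [weight_vol hq hβ0 ht hρ h4 x]
        refine mul_le_mul' (lintegral_mono fun b => ?_) le_rfl
        have e1 : ‖Tt a t (hb ρ h b) x‖ₑ ^ q =
            ‖Tt a t (hb ρ h b) x‖ₑ ^ (q - 2) * ‖Tt a t (hb ρ h b) x‖ₑ ^ 2 := by
          rw [← ENNReal.rpow_natCast, ← ENNReal.rpow_add_of_nonneg _ _ (by linarith) (by norm_num)]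
          congr 1; push_cast; ring
        have e0 : (q - 1) * ((q - 2) / (q - 1) * (β / 2) * ‖x + (2 * t) • b‖ ^ 2) =
            (q - 2) * (β / 2 * ‖x + (2 * t) • b‖ ^ 2) := by
          field_simp
        have e2 : ‖Tt a t (hb ρ h b) x‖ₑ ^ (q - 2) ≤
            ENNReal.ofReal (rexp (-((q - 2) * (β / 2 * ‖x + (2 * t) • b‖ ^ 2)))) *
            (ENNReal.ofReal (rexp 1) * (ENNReal.ofReal (sg V a t) *
              ∫⁻ y in ball b ρ, ‖h y‖ₑ)) ^ (q - 2) := by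
          calc ‖Tt a t (hb ρ h b) x‖ₑ ^ (q - 2)
              ≤ (ENNReal.ofReal (rexp (-(β / 2 * ‖x + (2 * t) • b‖ ^ 2))) *
                (ENNReal.ofReal (rexp 1) * (ENNReal.ofReal (sg V a t) *
                  ∫⁻ y in ball b ρ, ‖h y‖ₑ))) ^ (q - 2) :=
                ENNReal.rpow_le_rpow (piece_le ha hβ h4 h b x) (by linarith)
            _ = _ := by
                rw [ENNReal.mul_rpow_of_nonneg _ _ (by linarith),
                  ENNReal.ofReal_rpow_of_pos (Real.exp_pos _), ← Real.exp_mul]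
                congr 3
                ring
        show ‖Tt a t (hb ρ h b) x‖ₑ ^ q * ENNReal.ofReal
          (rexp ((q - 1) * ((q - 2) / (q - 1) * (β / 2) * ‖x + (2 * t) • b‖ ^ 2))) ≤ _
        rw [e1, e0]
        calc ‖Tt a t (hb ρ h b) x‖ₑ ^ (q - 2) * ‖Tt a t (hb ρ h b) x‖ₑ ^ 2 *
              ENNReal.ofReal (rexp ((q - 2) * (β / 2 * ‖x + (2 * t) • b‖ ^ 2)))
            ≤ (ENNReal.ofReal (rexp (-((q - 2) * (β / 2 * ‖x + (2 * t) • b‖ ^ 2)))) *
              (ENNReal.ofReal (rexp 1) * (ENNReal.ofReal (sg V a t) *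
              ∫⁻ y in ball b ρ, ‖h y‖ₑ)) ^ (q - 2)) * ‖Tt a t (hb ρ h b) x‖ₑ ^ 2 *
              ENNReal.ofReal (rexp ((q - 2) * (β / 2 * ‖x + (2 * t) • b‖ ^ 2))) := by gcongr
          _ = (ENNReal.ofReal (rexp (-((q - 2) * (β / 2 * ‖x + (2 * t) • b‖ ^ 2)))) *
              ENNReal.ofReal (rexp ((q - 2) * (β / 2 * ‖x + (2 * t) • b‖ ^ 2)))) *
              ((ENNReal.ofReal (rexp 1) * (ENNReal.ofReal (sg V a t) *
              ∫⁻ y in ball b ρ, ‖h y‖ₑ)) ^ (q - 2) * ‖Tt a t (hb ρ h b) x‖ₑ ^ 2) := by ring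
          _ = _ := by
              rw [← ENNReal.ofReal_mul (Real.exp_nonneg _), ← Real.exp_add, neg_add_cancel,
                Real.exp_zero, ENNReal.ofReal_one, one_mul]

lemma fixed_main {q a t ρ : ℝ} (hq : 2 < q) (ha : 0 < a) (ht : t ≠ 0) (hρ : 0 < ρ)
    (hρ2 : ρ ^ 2 = a + 1 / (a * t ^ 2)) {h : V → ℂ} (hh : Measurable h) (hi : Integrable h)
    (h2 : ∫⁻ y, ‖h y‖ₑ ^ 2 ≠ ∞) :
    volume (ball (0 : V) ρ) ^ q * ∫⁻ x, ‖Tt a t h x‖ₑ ^ q ≤
      (ENNReal.ofReal ((2 * π * (q - 1) / (q - 2)) ^ (Module.finrank ℝ V / 2 : ℝ)) /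
        volume (ball (0 : V) 1) * volume (ball (0 : V) ρ)) ^ (q - 1) *
      ((ENNReal.ofReal (rexp 1)) ^ (q - 2) * (ENNReal.ofReal ((2 * π) ^ Module.finrank ℝ V) *
        ∫⁻ b, (ENNReal.ofReal (sg V a t) * ∫⁻ y in ball b ρ, ‖h y‖ₑ) ^ (q - 2) *
          ∫⁻ y in ball b ρ, ‖h y‖ₑ ^ 2)) := by
  have h4 : 4 * (a / (4 * (1 + (t * a) ^ 2))) * t ^ 2 * ρ ^ 2 = 1 := by
    rw [hρ2]; field_simp
    ring
  have hNm : Measurable fun b => ENNReal.ofReal (rexp 1) * (ENNReal.ofReal (sg V a t) *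
        ∫⁻ y in ball b ρ, ‖h y‖ₑ) := ((N_meas ρ hh).const_mul _).const_mul _
  have e2m : Measurable fun p : V × V => (ENNReal.ofReal (rexp 1) * (ENNReal.ofReal (sg V a t) *
        ∫⁻ y in ball p.2 ρ, ‖h y‖ₑ)) ^ (q - 2) * ‖Tt a t (hb ρ h p.2) p.1‖ₑ ^ 2 := by
    apply Measurable.mul
    · exact (hNm.comp measurable_snd).pow_const _
    · have h1 : Measurable (fun p : V × V => ‖Tt a t (hb ρ h p.1) p.2‖ₑ) :=
        (Tb_sm a t ρ hh).measurable.enorm
      exact (h1.comp measurable_swap).pow_const 2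
  calc volume (ball (0 : V) ρ) ^ q * ∫⁻ x, ‖Tt a t h x‖ₑ ^ q
      = ∫⁻ x, (volume (ball (0 : V) ρ) * ‖Tt a t h x‖ₑ) ^ q := by
        rw [← lintegral_const_mul' _ _ (ENNReal.rpow_ne_top_of_nonneg (by linarith) (vol_ne_top ρ))]
        congr 1; funext x
        rw [ENNReal.mul_rpow_of_nonneg _ _ (by linarith)]
    _ ≤ ∫⁻ x, (∫⁻ b, (ENNReal.ofReal (rexp 1) * (ENNReal.ofReal (sg V a t) *
        ∫⁻ y in ball b ρ, ‖h y‖ₑ)) ^ (q - 2) * ‖Tt a t (hb ρ h b) x‖ₑ ^ 2) *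
        (ENNReal.ofReal ((2 * π * (q - 1) / (q - 2)) ^ (Module.finrank ℝ V / 2 : ℝ)) /
        volume (ball (0 : V) 1) * volume (ball (0 : V) ρ)) ^ (q - 1) :=
        lintegral_mono fun x => fixed_step hq ha ht hρ rfl h4 hh hi x
    _ = (∫⁻ x, ∫⁻ b, (ENNReal.ofReal (rexp 1) * (ENNReal.ofReal (sg V a t) *
        ∫⁻ y in ball b ρ, ‖h y‖ₑ)) ^ (q - 2) * ‖Tt a t (hb ρ h b) x‖ₑ ^ 2) *
        (ENNReal.ofReal ((2 * π * (q - 1) / (q - 2)) ^ (Module.finrank ℝ V / 2 : ℝ)) /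
        volume (ball (0 : V) 1) * volume (ball (0 : V) ρ)) ^ (q - 1) := by
        rw [lintegral_mul_const _ e2m.lintegral_prod_right']
    _ = (∫⁻ b, ∫⁻ x, (ENNReal.ofReal (rexp 1) * (ENNReal.ofReal (sg V a t) *
        ∫⁻ y in ball b ρ, ‖h y‖ₑ)) ^ (q - 2) * ‖Tt a t (hb ρ h b) x‖ₑ ^ 2) *
        (ENNReal.ofReal ((2 * π * (q - 1) / (q - 2)) ^ (Module.finrank ℝ V / 2 : ℝ)) /
        volume (ball (0 : V) 1) * volume (ball (0 : V) ρ)) ^ (q - 1) := by
        rw [lintegral_lintegral_swap e2m.aemeasurable]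
    _ ≤ (∫⁻ b, (ENNReal.ofReal (rexp 1)) ^ (q - 2) * (ENNReal.ofReal ((2 * π) ^ Module.finrank ℝ V) *
        ((ENNReal.ofReal (sg V a t) * ∫⁻ y in ball b ρ, ‖h y‖ₑ) ^ (q - 2) *
          ∫⁻ y in ball b ρ, ‖h y‖ₑ ^ 2))) *
        (ENNReal.ofReal ((2 * π * (q - 1) / (q - 2)) ^ (Module.finrank ℝ V / 2 : ℝ)) /
        volume (ball (0 : V) 1) * volume (ball (0 : V) ρ)) ^ (q - 1) := by
        gcongr with b
        rw [lintegral_const_mul _ ((Tb_meas_x a t ρ hh b).pow_const 2)]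
        have hb2 : ∫⁻ y, ‖hb ρ h b y‖ₑ ^ 2 = ∫⁻ y in ball b ρ, ‖h y‖ₑ ^ 2 := by
          have := hb_lint (p := 2) two_pos ρ h b
          simpa only [ENNReal.rpow_ofNat] using this
        have hl := Tt_l2 ha t (hb_meas hh ρ b) (hb_int hi ρ b) (by
          rw [hb2]; exact ne_top_of_le_ne_top h2 (setLIntegral_le_lintegral _ _))
        rw [hb2] at hl
        calc (ENNReal.ofReal (rexp 1) * (ENNReal.ofReal (sg V a t) *
              ∫⁻ y in ball b ρ, ‖h y‖ₑ)) ^ (q - 2) * ∫⁻ x, ‖Tt a t (hb ρ h b) x‖ₑ ^ 2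
            ≤ (ENNReal.ofReal (rexp 1) * (ENNReal.ofReal (sg V a t) *
              ∫⁻ y in ball b ρ, ‖h y‖ₑ)) ^ (q - 2) *
              (ENNReal.ofReal ((2 * π) ^ Module.finrank ℝ V) * ∫⁻ y in ball b ρ, ‖h y‖ₑ ^ 2) := by
              gcongr
          _ = _ := by
              rw [ENNReal.mul_rpow_of_nonneg _ _ (by linarith)]; ring
    _ = _ := by
        rw [lintegral_const_mul' _ _
          (ENNReal.rpow_ne_top_of_nonneg (by linarith) ENNReal.ofReal_ne_top),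
          lintegral_const_mul' _ _ ENNReal.ofReal_ne_top]
        ring

/-- the fixed time estimate -/
lemma fixed_time {q : ℝ} (hq : 2 < q) {a t ρ : ℝ} (ha : 0 < a) (ht : t ≠ 0) (hρ : 0 < ρ)
    (hρ2 : ρ ^ 2 = a + 1 / (a * t ^ 2)) {h : V → ℂ} (hh : Measurable h) (hi : Integrable h)
    (h2 : ∫⁻ y, ‖h y‖ₑ ^ 2 ≠ ∞) :
    ∫⁻ x, ‖Tt a t h x‖ₑ ^ q ≤ cF V q * ((volume (ball (0 : V) ρ))⁻¹ *
      ∫⁻ b, (ENNReal.ofReal (sg V a t) * ∫⁻ y in ball b ρ, ‖h y‖ₑ) ^ (q - 2) *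
        ∫⁻ y in ball b ρ, ‖h y‖ₑ ^ 2) := by
  have hv0 : volume (ball (0 : V) ρ) ≠ 0 := vol_ne_zero hρ
  have hvt : volume (ball (0 : V) ρ) ≠ ∞ := vol_ne_top ρ
  have main := fixed_main hq ha ht hρ hρ2 hh hi h2
  rw [ENNReal.mul_rpow_of_nonneg _ _ (show (0 : ℝ) ≤ q - 1 by linarith)] at main
  have hq0 : volume (ball (0 : V) ρ) ^ (q - 1) ≠ 0 := by
    rw [Ne, ENNReal.rpow_eq_zero_iff]
    push Not
    exact ⟨fun h => absurd h hv0, fun h => absurd h hvt⟩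
  have hqt : volume (ball (0 : V) ρ) ^ (q - 1) ≠ ∞ :=
    ENNReal.rpow_ne_top_of_nonneg (by linarith) hvt
  have hvq : volume (ball (0 : V) ρ) ^ q =
      volume (ball (0 : V) ρ) ^ (q - 1) * volume (ball (0 : V) ρ) := by
    have : volume (ball (0 : V) ρ) ^ q = volume (ball (0 : V) ρ) ^ ((q - 1) + 1) := by
      congr 1; ring
    rw [this, ENNReal.rpow_add _ _ hv0 hvt, ENNReal.rpow_one]
  rw [hvq] at main
  unfold cF
  generalize volume (ball (0 : V) ρ) ^ (q - 1) = A at *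
  generalize volume (ball (0 : V) ρ) = v at *
  generalize (∫⁻ x, ‖Tt a t h x‖ₑ ^ q) = X at *
  generalize (∫⁻ b, (ENNReal.ofReal (sg V a t) * ∫⁻ y in ball b ρ, ‖h y‖ₑ) ^ (q - 2) *
        ∫⁻ y in ball b ρ, ‖h y‖ₑ ^ 2) = Y at *
  have h3 : A * (v * X) ≤ A * ((ENNReal.ofReal ((2 * π * (q - 1) / (q - 2)) ^
      (Module.finrank ℝ V / 2 : ℝ)) / volume (ball (0 : V) 1)) ^ (q - 1) *
      (ENNReal.ofReal (rexp 1)) ^ (q - 2) * ENNReal.ofReal ((2 * π) ^ Module.finrank ℝ V) * Y) := by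
    calc A * (v * X) = A * v * X := by ring
      _ ≤ _ := main
      _ = _ := by ring
  have h4 := (ENNReal.mul_le_mul_iff_right hq0 hqt).mp h3
  have h5 := mul_le_mul_right h4 v⁻¹
  rw [← mul_assoc v⁻¹ v X, ENNReal.inv_mul_cancel hv0 hvt, one_mul] at h5
  refine h5.trans (le_of_eq ?_)
  ring

end Pool.Agent.U562.HD
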