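import Mathlib
import Pool.Agent.H153R4.Pl
set_option autoImplicit false

/-! Gaussian densities and the extension of their translates -/

namespace Pool.Agent.U562.HD

open MeasureTheory Complex Set Metric Filter Topology
open scoped ENNReal NNReal RealInnerProductSpace Real

variable {V : Type*} [NormedAddCommGroup V] [InnerProductSpace ℝ V] [FiniteDimensional ℝ V]
  [MeasurableSpace V] [BorelSpace V]

/-- the Gaussian density with parameter `a` -/
noncomputable def Gs (a : ℝ) (z : V) : ℝ :=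
  (π * a) ^ (-(Module.finrank ℝ V / 2 : ℝ)) * rexp (-(‖z‖ ^ 2) / a)

/-- the character `exp (-i (⟨y, x⟩ + t |y|²))` -/
noncomputable def ph (t : ℝ) (x y : V) : ℂ := cexp (((-(⟪y, x⟫ + t * ‖y‖ ^ 2) : ℝ) : ℂ) * I)

/-- the Fourier extension of `u` at the point `(x, t)` -/
noncomputable def Ft (t : ℝ) (u : V → ℂ) (x : V) : ℂ := ∫ y, ph t x y * u y

/-- the extension of the Gaussian with centre `y` -/
noncomputable def kern (a t : ℝ) (x y : V) : ℂ := ∫ w, ph t x w * (Gs a (w - y) : ℂ)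

/-- the extension of the convolution of `h` and the Gaussian -/
noncomputable def Tt (a t : ℝ) (h : V → ℂ) (x : V) : ℂ := ∫ y, h y * kern a t x y

lemma ph_norm (t : ℝ) (x y : V) : ‖ph t x y‖ = 1 := by
  unfold ph; rw [Complex.norm_exp_ofReal_mul_I]

lemma ph_cont (t : ℝ) : Continuous fun p : V × V => ph t p.1 p.2 := by
  unfold ph; fun_prop

lemma ph_cont' : Continuous fun p : ℝ × V × V => ph p.1 p.2.1 p.2.2 := by
  unfold ph; fun_prop

lemma Gs_nonneg {a : ℝ} (ha : 0 < a) (z : V) : 0 ≤ Gs a z := by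
  unfold Gs; positivity

lemma Gs_cont (a : ℝ) : Continuous (Gs a : V → ℝ) := by
  unfold Gs; fun_prop

lemma Gs_neg (a : ℝ) (z : V) : Gs a (-z) = Gs a z := by
  unfold Gs; rw [norm_neg]

lemma Gs_sub_comm (a : ℝ) (z w : V) : Gs a (z - w) = Gs a (w - z) := by
  unfold Gs; rw [norm_sub_rev]

lemma Gs_integral {a : ℝ} (ha : 0 < a) : ∫ z : V, Gs a z = 1 := by
  unfold Gs
  rw [integral_const_mul]
  have h := GaussianFourier.integral_rexp_neg_mul_sq_norm (V := V) (b := 1 / a) (by positivity)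
  have e : (fun z : V => rexp (-(‖z‖ ^ 2) / a)) = fun z => rexp (-(1 / a) * ‖z‖ ^ 2) := by
    funext z; congr 1; ring
  rw [e, h]
  have e2 : π / (1 / a) = π * a := by field_simp
  rw [e2, ← Real.rpow_add (by positivity)]
  norm_num

lemma Gs_integrable {a : ℝ} (ha : 0 < a) : Integrable (Gs a : V → ℝ) := by
  by_contra h
  have := integral_undef h
  rw [Gs_integral ha] at this
  exact one_ne_zero this

lemma Gs_lintegral {a : ℝ} (ha : 0 < a) : ∫⁻ z : V, ENNReal.ofReal (Gs a z) = 1 := by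
  rw [← ofReal_integral_eq_lintegral_ofReal (Gs_integrable ha)
    (Filter.Eventually.of_forall fun z => Gs_nonneg ha z), Gs_integral ha, ENNReal.ofReal_one]

/-- Gaussian convolution -/
lemma Gs_conv {a b : ℝ} (ha : 0 < a) (hb : 0 < b) (z w : V) :
    ∫ y, Gs a (z - y) * Gs b (y - w) = Gs (a + b) (z - w) := by
  have h1 : ∫ y, Gs a (z - y) * Gs b (y - w) = ∫ y, Gs a ((z - w) - y) * Gs b y := by
    rw [← integral_add_right_eq_self (fun y => Gs a (z - y) * Gs b (y - w)) w]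
    congr 1; funext y; congr 2
    · abel
    · abel
  rw [h1]
  set v := z - w with hv
  have h2 := GaussianFourier.integral_cexp_neg_mul_sq_norm_add (V := V)
    (b := ((1 / a + 1 / b : ℝ) : ℂ)) (by rw [Complex.ofReal_re]; positivity) ((2 / a : ℝ) : ℂ) v
  have h3 : ∀ y : V, ((Gs a (v - y) * Gs b y : ℝ) : ℂ) =
      (((π * a) ^ (-(Module.finrank ℝ V / 2 : ℝ)) * (π * b) ^ (-(Module.finrank ℝ V / 2 : ℝ)) *
        rexp (-(‖v‖ ^ 2) / a) : ℝ) : ℂ) *
      cexp (-((1 / a + 1 / b : ℝ) : ℂ) * ‖y‖ ^ 2 + ((2 / a : ℝ) : ℂ) * ⟪v, y⟫) := by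
    intro y
    have e : cexp (-((1 / a + 1 / b : ℝ) : ℂ) * ‖y‖ ^ 2 + ((2 / a : ℝ) : ℂ) * ⟪v, y⟫) =
      ((rexp (-(1 / a + 1 / b) * ‖y‖ ^ 2 + (2 / a) * ⟪v, y⟫) : ℝ) : ℂ) := by push_cast; rfl
    rw [e, ← Complex.ofReal_mul]
    congr 1
    unfold Gs
    have hn : ‖v - y‖ ^ 2 = ‖v‖ ^ 2 - 2 * ⟪v, y⟫ + ‖y‖ ^ 2 := norm_sub_sq_real v y
    have e3 : rexp (-(‖v - y‖ ^ 2) / a) * rexp (-(‖y‖ ^ 2) / b) =
        rexp (-(‖v‖ ^ 2) / a) * rexp (-(1 / a + 1 / b) * ‖y‖ ^ 2 + (2 / a) * ⟪v, y⟫) := by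
      rw [← Real.exp_add, ← Real.exp_add, hn]
      congr 1; field_simp; ring
    linear_combination ((π * a) ^ (-(Module.finrank ℝ V / 2 : ℝ)) *
      (π * b) ^ (-(Module.finrank ℝ V / 2 : ℝ))) * e3
  apply Complex.ofReal_injective
  rw [← integral_complex_ofReal]
  simp_rw [h3]
  rw [integral_const_mul, h2]
  have hs : 0 < 1 / a + 1 / b := by positivity
  have e4 : ((π : ℂ) / ((1 / a + 1 / b : ℝ) : ℂ)) ^ ((Module.finrank ℝ V : ℂ) / 2) =
      (((π / (1 / a + 1 / b)) ^ (Module.finrank ℝ V / 2 : ℝ) : ℝ) : ℂ) := by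
    rw [Complex.ofReal_cpow (by positivity)]; push_cast; rfl
  have e5 : cexp (((2 / a : ℝ) : ℂ) ^ 2 * ‖v‖ ^ 2 / (4 * ((1 / a + 1 / b : ℝ) : ℂ))) =
      ((rexp ((2 / a) ^ 2 * ‖v‖ ^ 2 / (4 * (1 / a + 1 / b))) : ℝ) : ℂ) := by push_cast; rfl
  rw [e4, e5, ← Complex.ofReal_mul, ← Complex.ofReal_mul]
  congr 1
  unfold Gs
  have e6 : rexp (-(‖v‖ ^ 2) / a) * rexp ((2 / a) ^ 2 * ‖v‖ ^ 2 / (4 * (1 / a + 1 / b))) =
      rexp (-(‖v‖ ^ 2) / (a + b)) := by
    rw [← Real.exp_add]; congr 1; field_simp; ring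
  have e7 : (π * a) ^ (-(Module.finrank ℝ V / 2 : ℝ)) * (π * b) ^ (-(Module.finrank ℝ V / 2 : ℝ)) *
      (π / (1 / a + 1 / b)) ^ (Module.finrank ℝ V / 2 : ℝ) =
      (π * (a + b)) ^ (-(Module.finrank ℝ V / 2 : ℝ)) := by
    rw [Real.rpow_neg (by positivity), Real.rpow_neg (by positivity), Real.rpow_neg (by positivity),
      ← Real.inv_rpow (by positivity), ← Real.inv_rpow (by positivity),
      ← Real.inv_rpow (by positivity), ← Real.mul_rpow (by positivity) (by positivity),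
      ← Real.mul_rpow (by positivity) (by positivity)]
    congr 1; field_simp; ring
  rw [← e6, ← e7]; ring

/-- the modulus of the decay factor -/
noncomputable def sg (V : Type*) [NormedAddCommGroup V] [InnerProductSpace ℝ V] (a t : ℝ) : ℝ :=
  (Real.sqrt (1 + (t * a) ^ 2)) ^ (-(Module.finrank ℝ V / 2 : ℝ))

lemma kern_closed {a : ℝ} (ha : 0 < a) (t : ℝ) (x y : V) :
    kern a t x y = ph t x y * (((π * a) ^ (-(Module.finrank ℝ V / 2 : ℝ)) : ℝ) : ℂ) *
      ((π : ℂ) / ((1 / a : ℝ) + t * I)) ^ (Module.finrank ℝ V / 2 : ℂ) *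
      cexp ((-I) ^ 2 * ‖x + (2 * t) • y‖ ^ 2 / (4 * ((1 / a : ℝ) + t * I))) := by
  unfold kern
  rw [← integral_add_right_eq_self (fun w => ph t x w * (Gs a (w - y) : ℂ)) y]
  have h2 := GaussianFourier.integral_cexp_neg_mul_sq_norm_add (V := V)
    (b := ((1 / a : ℝ) : ℂ) + t * I) (by simp; positivity) (-I) (x + (2 * t) • y)
  rw [mul_assoc, ← h2, ← integral_const_mul]
  congr 1; funext w
  unfold ph Gs
  have hn : ‖w + y‖ ^ 2 = ‖w‖ ^ 2 + 2 * ⟪w, y⟫ + ‖y‖ ^ 2 := norm_add_sq_real w y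
  have hi : ⟪w + y, x⟫ = ⟪w, x⟫ + ⟪y, x⟫ := inner_add_left _ _ _
  have hj : ⟪x + (2 * t) • y, w⟫ = ⟪w, x⟫ + 2 * t * ⟪w, y⟫ := by
    rw [inner_add_left, real_inner_smul_left, real_inner_comm w x, real_inner_comm w y]
  rw [hn, hi, hj, add_sub_cancel_right]
  push_cast
  rw [show ∀ A B C D : ℂ, A * (B * C) = B * (A * C) from fun A B C D => by ring]
  · rw [show ∀ A B C : ℂ, A * B * C = B * (A * C) from fun A B C => by ring, ← Complex.exp_add,
      ← Complex.exp_add]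
    congr 2
    have ha' : (a : ℂ) ≠ 0 := by exact_mod_cast ha.ne'
    field_simp
    ring
  · exact 0

lemma kern_norm {a : ℝ} (ha : 0 < a) (t : ℝ) (x y : V) :
    ‖kern a t x y‖ = sg V a t * rexp (-(a / (4 * (1 + (t * a) ^ 2)) * ‖x + (2 * t) • y‖ ^ 2)) := by
  rw [kern_closed ha, norm_mul, norm_mul, norm_mul, ph_norm, one_mul]
  have hb : ((1 / a : ℝ) : ℂ) + t * I ≠ 0 := by
    intro h
    have := congrArg Complex.re h
    simp at this
    exact ha.ne' this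
  have e1 : ‖(((1 / a : ℝ) : ℂ) + t * I)‖ = Real.sqrt (1 + (t * a) ^ 2) / a := by
    rw [Complex.norm_def, Complex.normSq_add_mul_I]
    have : (1 / a) ^ 2 + t ^ 2 = (1 + (t * a) ^ 2) / a ^ 2 := by field_simp
    rw [this, Real.sqrt_div (by positivity), Real.sqrt_sq ha.le]
  have e2 : ((Module.finrank ℝ V : ℂ) / 2) = ((Module.finrank ℝ V / 2 : ℝ) : ℂ) := by push_cast; rfl
  rw [e2, Complex.norm_cpow_real, norm_div, e1, Complex.norm_exp]
  have hs : 0 < Real.sqrt (1 + (t * a) ^ 2) := Real.sqrt_pos.mpr (by positivity)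
  have e3 : ‖(((π * a) ^ (-(Module.finrank ℝ V / 2 : ℝ)) : ℝ) : ℂ)‖ *
      (‖(π : ℂ)‖ / (Real.sqrt (1 + (t * a) ^ 2) / a)) ^ (Module.finrank ℝ V / 2 : ℝ) = sg V a t := by
    unfold sg
    rw [Complex.norm_real, Complex.norm_real, Real.norm_of_nonneg (by positivity),
      Real.norm_of_nonneg Real.pi_pos.le, Real.rpow_neg (by positivity),
      Real.rpow_neg hs.le, ← Real.inv_rpow (by positivity), ← Real.inv_rpow hs.le,
      ← Real.mul_rpow (by positivity) (by positivity)]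
    congr 1; field_simp
  rw [e3]
  congr 2
  have hz : (-I) ^ 2 * (‖x + (2 * t) • y‖ : ℂ) ^ 2 / (4 * (((1 / a : ℝ) : ℂ) + t * I)) =
      ((-(‖x + (2 * t) • y‖ ^ 2 / 4) : ℝ) : ℂ) * (((1 / a : ℝ) : ℂ) + t * I)⁻¹ := by
    rw [neg_sq, Complex.I_sq]; push_cast
    field_simp
  rw [hz, Complex.re_ofReal_mul, Complex.inv_re, Complex.normSq_add_mul_I]
  simp only [Complex.add_re, Complex.ofReal_re, Complex.mul_re, Complex.I_re, mul_zero,
    Complex.ofReal_im, Complex.I_im, mul_one, sub_self, add_zero]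
  field_simp

end Pool.Agent.U562.HD
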