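import Pool.Agent.U562.HD.Harm
set_option autoImplicit false

/-! Open sets with thin boundary; the weighted Sobolev class and the harmonic class -/

namespace Pool.Agent.U562.HD

open MeasureTheory Complex Set Metric Filter Topology
open scoped ENNReal NNReal RealInnerProductSpace Real

variable {V : Type*} [NormedAddCommGroup V] [InnerProductSpace ℝ V] [FiniteDimensional ℝ V]
  [MeasurableSpace V] [BorelSpace V]

lemma geo {U S : Set V} (hU : IsOpen U) {x : V} {r : ℝ} (hr : 0 < r)
    (hrd : r < infDist x (frontier U ∪ S)) :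
    (x ∈ U \ S ∧ closedBall x r ⊆ U \ S) ∨ (x ∉ U ∧ ∀ y ∈ closedBall x r, y ∉ U) := by
  have hdis : ∀ y ∈ closedBall x r, y ∉ frontier U ∪ S := by
    intro y hy hyK
    have := infDist_le_dist_of_mem (x := x) hyK
    rw [mem_closedBall, dist_comm] at hy
    linarith
  have hcov : closedBall x r ⊆ U ∪ (closure U)ᶜ := by
    intro y hy
    by_cases h : y ∈ U
    · exact Or.inl h
    · refine Or.inr fun hc => hdis y hy (Or.inl ?_)
      rw [hU.frontier_eq]
      exact ⟨hc, h⟩
  have hpre : IsPreconnected (closedBall x r) := (convex_closedBall x r).isPreconnected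
  have hx : x ∈ closedBall x r := mem_closedBall_self hr.le
  have hd : Disjoint U (closure U)ᶜ :=
    disjoint_compl_right.mono_left subset_closure
  by_cases hxU : x ∈ U
  · left
    have hsub : closedBall x r ⊆ U :=
      hpre.subset_left_of_subset_union hU isClosed_closure.isOpen_compl hd hcov ⟨x, hx, hxU⟩
    have h2 : closedBall x r ⊆ U \ S := fun y hy => ⟨hsub hy, fun h => hdis y hy (Or.inr h)⟩
    exact ⟨h2 hx, h2⟩
  · right
    refine ⟨hxU, ?_⟩
    have hxc : x ∈ (closure U)ᶜ := (hcov hx).resolve_left hxU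
    have hsub : closedBall x r ⊆ (closure U)ᶜ :=
      hpre.subset_right_of_subset_union hU isClosed_closure.isOpen_compl hd hcov ⟨x, hx, hxc⟩
    exact fun y hy h => hsub hy (subset_closure h)

lemma mvoff_of {U S : Set V} (hU : IsOpen U) {f : V → ℂ}
    (hMV : ∀ x r, 0 < r → closedBall x r ⊆ U \ S → f x = ⨍ y in ball x r, f y) :
    MVoff (frontier U ∪ S) ((U \ S).indicator f) := by
  intro x r hr hrd
  rcases geo hU hr hrd with ⟨h1, h2⟩ | ⟨h1, h2⟩
  · rw [indicator_of_mem h1, hMV x r hr h2, setAverage_eq, setAverage_eq]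
    congr 1
    apply setIntegral_congr_fun measurableSet_ball
    intro y hy
    beta_reduce
    rw [indicator_of_mem (h2 (ball_subset_closedBall hy))]
  · rw [indicator_of_notMem fun h => h1 h.1, setAverage_eq]
    have : ∫ y in ball x r, (U \ S).indicator f y = ∫ y in ball x r, (0 : ℂ) := by
      apply setIntegral_congr_fun measurableSet_ball
      intro y hy
      beta_reduce
      rw [indicator_of_notMem fun h => h2 y (ball_subset_closedBall hy) h.1]
    rw [this]; simp

/-- the weighted gradient -/
noncomputable def Hd (U S : Set V) (f : V → ℂ) : V → ℝ≥0∞ :=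
  (U \ S).indicator fun y => 2 * (ENNReal.ofReal (infDist y (frontier U ∪ S)) * ‖fderiv ℝ f y‖ₑ)

lemma Hd_meas {U S : Set V} (hU : IsOpen U) (hS : IsClosed S) (f : V → ℂ) :
    Measurable (Hd U S f) := by
  unfold Hd
  apply Measurable.indicator _ (hU.sdiff hS).measurableSet
  have h1 : Measurable fun y : V => infDist y (frontier U ∪ S) :=
    (continuous_infDist_pt _).measurable
  exact (h1.ennreal_ofReal.mul (measurable_fderiv ℝ f).enorm).const_mul 2

/-- functions of class `C¹` satisfy the Whitney condition -/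
lemma c1_whit {U S : Set V} (hU : IsOpen U) (hS : IsClosed S) {f : V → ℂ}
    (hf : ContDiffOn ℝ 1 f (U \ S)) :
    Whit (frontier U ∪ S) ((U \ S).indicator f) (fun x => 2 * ‖(U \ S).indicator f x‖ₑ)
      (Hd U S f) := by
  intro y z
  set K := frontier U ∪ S with hK
  set f0 := (U \ S).indicator f with hf0
  have hW : IsOpen (U \ S) := hU.sdiff hS
  have hzn := norm_nonneg z
  rcases (infDist_nonneg (x := y) (s := K)).eq_or_lt with h | h
  · rw [← h]; simp
  set d := infDist y K with hd
  by_cases hz : ‖z‖ ≤ d / 2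
  · rcases geo (S := S) hU (x := y) (r := d / 2) (by positivity) (by rw [← hK, ← hd]; linarith) with
      ⟨h1, h2⟩ | ⟨h1, h2⟩
    · have hseg : ∀ s ∈ Icc (0 : ℝ) 1, y - s • z ∈ closedBall y (d / 2) := by
        intro s hs
        rw [mem_closedBall, dist_eq_norm, sub_sub_cancel_left, norm_neg, norm_smul,
          Real.norm_of_nonneg hs.1]
        calc s * ‖z‖ ≤ 1 * ‖z‖ := by gcongr; exact hs.2
          _ ≤ d / 2 := by linarith
      have hyz : y - z ∈ U \ S := by
        have := hseg 1 ⟨zero_le_one, le_rfl⟩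
        rw [one_smul] at this
        exact h2 this
      have hder : ∀ s ∈ Icc (0 : ℝ) 1, HasDerivAt (fun s : ℝ => f (y - s • z))
          (fderiv ℝ f (y - s • z) (-z)) s := by
        intro s hs
        have hdf : DifferentiableAt ℝ f (y - s • z) :=
          (hf.differentiableOn one_ne_zero).differentiableAt (hW.mem_nhds (h2 (hseg s hs)))
        have hline : HasDerivAt (fun s : ℝ => y - s • z) (-z) s := by
          have := ((hasDerivAt_id s).smul_const z).const_sub y
          simpa using this
        exact hdf.hasFDerivAt.comp_hasDerivAt s hline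
      have hcont : ContinuousOn (fun s : ℝ => fderiv ℝ f (y - s • z) (-z)) (Icc 0 1) := by
        have h3 : ContinuousOn (fun x => fderiv ℝ f x) (U \ S) :=
          hf.continuousOn_fderiv_of_isOpen hW le_rfl
        have h4 : ContinuousOn (fun s : ℝ => fderiv ℝ f (y - s • z)) (Icc 0 1) :=
          h3.comp (by fun_prop) fun s hs => h2 (hseg s hs)
        exact h4.clm_apply continuousOn_const
      have hFTC : ∫ s in (0 : ℝ)..1, fderiv ℝ f (y - s • z) (-z) = f (y - z) - f y := by
        rw [intervalIntegral.integral_eq_sub_of_hasDerivAt (f := fun s : ℝ => f (y - s • z))]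
        · simp
        · intro s hs
          rw [uIcc_of_le zero_le_one] at hs
          exact hder s hs
        · apply ContinuousOn.intervalIntegrable
          rw [uIcc_of_le zero_le_one]
          exact hcont
      have hb : ‖f0 y - f0 (y - z)‖ₑ ≤ ∫⁻ s in Icc (0 : ℝ) 1, ‖fderiv ℝ f (y - s • z)‖ₑ * ‖z‖ₑ := by
        rw [hf0, indicator_of_mem h1, indicator_of_mem hyz, ← enorm_neg, neg_sub, ← hFTC,
          intervalIntegral.integral_of_le zero_le_one, ← integral_Icc_eq_integral_Ioc]
        refine (enorm_integral_le_lintegral_enorm _).trans ?_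
        apply lintegral_mono
        intro s
        beta_reduce
        have := (fderiv ℝ f (y - s • z)).le_opNorm (-z)
        rw [norm_neg] at this
        rw [← ofReal_norm, ← ofReal_norm, ← ofReal_norm, ← ENNReal.ofReal_mul (norm_nonneg _)]
        exact ENNReal.ofReal_le_ofReal this
      calc ENNReal.ofReal d * ‖f0 y - f0 (y - z)‖ₑ
          ≤ ENNReal.ofReal d * ∫⁻ s in Icc (0 : ℝ) 1, ‖fderiv ℝ f (y - s • z)‖ₑ * ‖z‖ₑ := by
            gcongr
        _ = ∫⁻ s in Icc (0 : ℝ) 1, ENNReal.ofReal d * (‖fderiv ℝ f (y - s • z)‖ₑ * ‖z‖ₑ) := by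
            rw [lintegral_const_mul' _ _ ENNReal.ofReal_ne_top]
        _ ≤ ∫⁻ s in Icc (0 : ℝ) 1, ‖z‖ₑ * Hd U S f (y - s • z) := by
            apply setLIntegral_mono' measurableSet_Icc
            intro s hs
            have hmem : y - s • z ∈ U \ S := h2 (hseg s hs)
            have hds : d ≤ infDist (y - s • z) K + dist y (y - s • z) :=
              infDist_le_infDist_add_dist
            have hds2 : dist y (y - s • z) ≤ d / 2 := by
              rw [dist_comm]; exact hseg s hs
            unfold Hd
            rw [indicator_of_mem hmem]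
            calc ENNReal.ofReal d * (‖fderiv ℝ f (y - s • z)‖ₑ * ‖z‖ₑ)
                ≤ (2 * ENNReal.ofReal (infDist (y - s • z) K)) *
                  (‖fderiv ℝ f (y - s • z)‖ₑ * ‖z‖ₑ) := by
                  gcongr
                  rw [show (2 : ℝ≥0∞) = ENNReal.ofReal 2 by simp,
                    ← ENNReal.ofReal_mul (by norm_num)]
                  apply ENNReal.ofReal_le_ofReal
                  linarith
              _ = _ := by rw [← hK]; ring
        _ = ‖z‖ₑ * ∫⁻ s in Icc (0 : ℝ) 1, Hd U S f (y - s • z) := by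
            rw [lintegral_const_mul' _ _ enorm_ne_top]
        _ ≤ _ := by
            gcongr
            exact le_add_self.trans le_add_self
    · have hy0 : f0 y = 0 := by rw [hf0, indicator_of_notMem fun h => h1 h.1]
      have hyz0 : f0 (y - z) = 0 := by
        rw [hf0, indicator_of_notMem]
        refine fun h => h2 (y - z) ?_ h.1
        rw [mem_closedBall, dist_eq_norm, sub_sub_cancel_left, norm_neg]
        exact hz
      rw [hy0, hyz0, sub_zero, enorm_zero, mul_zero]
      exact bot_le
  · push Not at hz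
    calc ENNReal.ofReal d * ‖f0 y - f0 (y - z)‖ₑ
        ≤ (2 * ‖z‖ₑ) * (‖f0 y‖ₑ + ‖f0 (y - z)‖ₑ) := by
          refine mul_le_mul' ?_ enorm_sub_le
          rw [← ofReal_norm z, show (2 : ℝ≥0∞) = ENNReal.ofReal 2 by simp,
            ← ENNReal.ofReal_mul (by norm_num)]
          apply ENNReal.ofReal_le_ofReal
          linarith
      _ = ‖z‖ₑ * (2 * ‖f0 y‖ₑ + 2 * ‖f0 (y - z)‖ₑ) := by ring
      _ ≤ _ := by
          gcongr
          exact le_self_add

/-- a thin set is a null set -/
lemma thin_null {A : ℝ} {K : Set V} (hA : 0 ≤ A) (hK : Thin A K) : volume K = 0 := by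
  have h1 : ∀ n : ℕ, volume (ball (0 : V) (n + 1) ∩ K) = 0 := by
    intro n
    have hn : (0 : ℝ) < n + 1 := by positivity
    have h2 : ∀ k : ℕ, volume (ball (0 : V) (n + 1) ∩ K) ≤
        ENNReal.ofReal (A * (n + 1) * (1 / (k + 1))) := by
      intro k
      have hk : (0 : ℝ) < 1 / (k + 1) := by positivity
      refine le_trans (measure_mono ?_) (hK 0 (n + 1) (1 / (k + 1)) hn hk)
      intro x hx
      refine ⟨hx.1, ?_⟩
      show infDist x K < _
      rw [infDist_zero_of_mem hx.2]
      exact hk
    have h3 : Tendsto (fun k : ℕ => ENNReal.ofReal (A * (n + 1) * (1 / (k + 1)))) atTop (𝓝 0) := by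
      have h4 : Tendsto (fun k : ℕ => A * (n + 1) * (1 / ((k : ℝ) + 1))) atTop
          (𝓝 (A * (n + 1) * 0)) :=
        tendsto_one_div_add_atTop_nhds_zero_nat.const_mul _
      rw [mul_zero] at h4
      have h5 := (ENNReal.continuous_ofReal.tendsto 0).comp h4
      simpa [Function.comp_def] using h5
    have h6 := ge_of_tendsto' h3 h2
    exact le_antisymm h6 bot_le
  have h7 : K ⊆ ⋃ n : ℕ, (ball (0 : V) (n + 1) ∩ K) := by
    intro x hx
    obtain ⟨n, hn⟩ := exists_nat_gt ‖x‖
    refine mem_iUnion.mpr ⟨n, ?_, hx⟩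
    rw [mem_ball_zero_iff]
    linarith
  exact measure_mono_null h7 (measure_iUnion_null h1)

end Pool.Agent.U562.HD
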