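import Pool.Agent.U562.HD.Thin
set_option autoImplicit false

/-! The pieces of a function with a Whitney condition -/

namespace Pool.Agent.U562.HD

open MeasureTheory Complex Set Metric Filter Topology
open scoped ENNReal NNReal RealInnerProductSpace Real

variable {V : Type*} [NormedAddCommGroup V] [InnerProductSpace ℝ V] [FiniteDimensional ℝ V]
  [MeasurableSpace V] [BorelSpace V]

/-- the constant `576 · 2^{n/2}` -/
noncomputable def cG (V : Type*) [NormedAddCommGroup V] [InnerProductSpace ℝ V] : ℝ :=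
  576 * 2 ^ (Module.finrank ℝ V / 2 : ℝ)

lemma cG_pos : 0 < cG V := by unfold cG; positivity

lemma poly_exp {r : ℝ} (hr : 0 ≤ r) : (1 + r) ^ 4 ≤ 576 * rexp (r ^ 2 / 6) := by
  have h1 := Real.quadratic_le_exp_of_nonneg (show 0 ≤ r ^ 2 / 6 by positivity)
  have h2 : (1 + r) ^ 4 ≤ 8 * (1 + r ^ 4) := by
    have h3 : (1 + r) ^ 2 ≤ 2 * (1 + r ^ 2) := by nlinarith [sq_nonneg (1 - r)]
    have h4 : (1 + r ^ 2) ^ 2 ≤ 2 * (1 + r ^ 4) := by nlinarith [sq_nonneg (1 - r ^ 2)]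
    calc (1 + r) ^ 4 = ((1 + r) ^ 2) ^ 2 := by ring
      _ ≤ (2 * (1 + r ^ 2)) ^ 2 := by gcongr
      _ = 4 * (1 + r ^ 2) ^ 2 := by ring
      _ ≤ _ := by linarith
  have h5 : 1 + r ^ 4 ≤ 72 * (1 + r ^ 2 / 6 + (r ^ 2 / 6) ^ 2 / 2) := by
    nlinarith [sq_nonneg r, sq_nonneg (r ^ 2)]
  linarith

/-- the moments of the Gaussian -/
lemma Gs_poly {δ : ℝ} (hδ : 0 < δ) (z : V) :
    (1 + ‖z‖ / δ) ^ 4 * Gs (3 * δ ^ 2) z ≤ cG V * Gs (6 * δ ^ 2) z := by
  unfold Gs cG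
  have h1 := poly_exp (show 0 ≤ ‖z‖ / δ by positivity)
  have e1 : (π * (6 * δ ^ 2)) ^ (-(Module.finrank ℝ V / 2 : ℝ)) =
      2 ^ (-(Module.finrank ℝ V / 2 : ℝ)) * (π * (3 * δ ^ 2)) ^ (-(Module.finrank ℝ V / 2 : ℝ)) := by
    rw [← Real.mul_rpow (by norm_num) (by positivity)]
    congr 1; ring
  have e2 : (2 : ℝ) ^ (Module.finrank ℝ V / 2 : ℝ) * 2 ^ (-(Module.finrank ℝ V / 2 : ℝ)) = 1 := by
    rw [← Real.rpow_add two_pos, add_neg_cancel, Real.rpow_zero]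
  set P := (π * (3 * δ ^ 2)) ^ (-(Module.finrank ℝ V / 2 : ℝ)) with hP
  have hP0 : 0 < P := by rw [hP]; positivity
  calc (1 + ‖z‖ / δ) ^ 4 * (P * rexp (-(‖z‖ ^ 2) / (3 * δ ^ 2)))
      ≤ 576 * rexp ((‖z‖ / δ) ^ 2 / 6) * (P * rexp (-(‖z‖ ^ 2) / (3 * δ ^ 2))) := by gcongr
    _ = 576 * P * (rexp ((‖z‖ / δ) ^ 2 / 6) * rexp (-(‖z‖ ^ 2) / (3 * δ ^ 2))) := by ring
    _ = 576 * P * rexp (-(‖z‖ ^ 2) / (6 * δ ^ 2)) := by
        rw [← Real.exp_add]; congr 2; field_simp; ring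
    _ = 576 * (2 ^ (Module.finrank ℝ V / 2 : ℝ) * 2 ^ (-(Module.finrank ℝ V / 2 : ℝ))) * P *
        rexp (-(‖z‖ ^ 2) / (6 * δ ^ 2)) := by rw [e2, mul_one]
    _ = _ := by rw [e1]; ring

/-- the pointwise increments -/
lemma incr {K : Set V} {f : V → ℂ} {g H : V → ℝ≥0∞} (hf : ∀ y, 1 ≤ ‖y‖ → f y = 0)
    (hfg : ∀ y, ‖f y‖ₑ ≤ g y) (hW : Whit K f g H) {δ : ℝ} (hδ : 0 < δ) (hδ1 : δ ≤ 1) (y z : V) :
    ‖f y - f (y - z)‖ₑ ≤ ENNReal.ofReal (27 * wt K δ y * (1 + ‖z‖ / δ) ^ 4) *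
      (g y + (g (y - z) + ∫⁻ s in Icc (0 : ℝ) 1, H (y - s • z))) := by
  have hz := norm_nonneg z
  have hzd : 0 ≤ ‖z‖ / δ := by positivity
  have h1 : ‖f y - f (y - z)‖ₑ ≤ g y + (g (y - z) + ∫⁻ s in Icc (0 : ℝ) 1, H (y - s • z)) :=
    (enorm_sub_le).trans (add_le_add (hfg _) ((hfg _).trans le_self_add))
  have hpow : 1 + ‖z‖ / δ ≤ (1 + ‖z‖ / δ) ^ 4 := by
    calc 1 + ‖z‖ / δ = (1 + ‖z‖ / δ) ^ 1 := by ring
      _ ≤ _ := pow_le_pow_right₀ (by linarith) (by norm_num)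
  have hpow1 : 1 ≤ (1 + ‖z‖ / δ) ^ 4 := by linarith
  have h2 := hW y z
  generalize (g y + (g (y - z) + ∫⁻ s in Icc (0 : ℝ) 1, H (y - s • z))) = S at *
  unfold wt
  split_ifs with h
  · by_cases hd : infDist y K ≤ δ
    · rw [max_eq_left hd, div_self hδ.ne']
      calc ‖f y - f (y - z)‖ₑ ≤ 1 * S := by rw [one_mul]; exact h1
        _ ≤ _ := by
          gcongr
          rw [← ENNReal.ofReal_one]
          apply ENNReal.ofReal_le_ofReal
          linarith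
    · push Not at hd
      rw [max_eq_right hd.le]
      set d := infDist y K with hdd
      have hd0 : 0 < d := hδ.trans hd
      have h3 : ‖f y - f (y - z)‖ₑ ≤ ENNReal.ofReal (‖z‖ / d) * S := by
        have e1 : ‖f y - f (y - z)‖ₑ = (ENNReal.ofReal (1 / d) * ENNReal.ofReal d) *
            ‖f y - f (y - z)‖ₑ := by
          rw [← ENNReal.ofReal_mul (by positivity), one_div, inv_mul_cancel₀ hd0.ne',
            ENNReal.ofReal_one, one_mul]
        have e2 : ENNReal.ofReal (‖z‖ / d) = ENNReal.ofReal (1 / d) * ‖z‖ₑ := by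
          rw [← ofReal_norm, ← ENNReal.ofReal_mul (by positivity)]
          congr 1; ring
        rw [e1, mul_assoc, e2, mul_assoc]
        exact mul_le_mul' le_rfl h2
      refine h3.trans (mul_le_mul' (ENNReal.ofReal_le_ofReal ?_) le_rfl)
      calc ‖z‖ / d = (δ / d) * (‖z‖ / δ) := by field_simp
        _ ≤ (δ / d) * (1 + ‖z‖ / δ) ^ 4 := by gcongr; linarith
        _ ≤ 27 * (δ / d) * (1 + ‖z‖ / δ) ^ 4 := by
            have : 0 ≤ (δ / d) * (1 + ‖z‖ / δ) ^ 4 := by positivity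
            linarith
  · push Not at h
    have hy0 : f y = 0 := hf y (by linarith)
    by_cases hyz : 1 ≤ ‖y - z‖
    · rw [hy0, hf _ hyz, sub_zero, enorm_zero]
      exact bot_le
    · push Not at hyz
      have h4 : ‖y‖ ≤ ‖y - z‖ + ‖z‖ := by
        calc ‖y‖ = ‖(y - z) + z‖ := by rw [sub_add_cancel]
          _ ≤ _ := norm_add_le _ _
      have h5 : 1 < ‖z‖ := by linarith
      have h6 : 1 + ‖y‖ ≤ 3 * ‖z‖ := by linarith
      calc ‖f y - f (y - z)‖ₑ ≤ 1 * S := by rw [one_mul]; exact h1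
        _ ≤ _ := by
          gcongr
          rw [← ENNReal.ofReal_one]
          apply ENNReal.ofReal_le_ofReal
          have h7 : (1 + ‖y‖) ^ 3 ≤ 27 * ‖z‖ ^ 3 := by
            calc (1 + ‖y‖) ^ 3 ≤ (3 * ‖z‖) ^ 3 := by gcongr
              _ = _ := by ring
          have h8 : (‖z‖ / δ) ^ 4 ≤ (1 + ‖z‖ / δ) ^ 4 := by gcongr; linarith
          have h9 : 1 ≤ 27 * (δ / (1 + ‖y‖) ^ 3) * (‖z‖ / δ) ^ 4 := by
            have h10 : 27 * (δ / (1 + ‖y‖) ^ 3) * (‖z‖ / δ) ^ 4 =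
                27 * ‖z‖ ^ 4 / ((1 + ‖y‖) ^ 3 * δ ^ 3) := by
              field_simp
            rw [h10, le_div_iff₀ (by positivity), one_mul]
            have h11 : δ ^ 3 ≤ 1 := pow_le_one₀ hδ.le hδ1
            calc (1 + ‖y‖) ^ 3 * δ ^ 3 ≤ 27 * ‖z‖ ^ 3 * 1 := by gcongr
              _ ≤ 27 * ‖z‖ ^ 3 * ‖z‖ := by gcongr
              _ = _ := by ring
          calc (1 : ℝ) ≤ 27 * (δ / (1 + ‖y‖) ^ 3) * (‖z‖ / δ) ^ 4 := h9
            _ ≤ _ := by gcongr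

/-- the Gaussian measure -/
noncomputable def Pm (δ : ℝ) : Measure V :=
  volume.withDensity fun z => ENNReal.ofReal (Gs (6 * δ ^ 2) z)

lemma Pm_univ {δ : ℝ} (hδ : 0 < δ) : Pm δ (univ : Set V) = 1 := by
  unfold Pm
  rw [withDensity_apply _ MeasurableSet.univ, Measure.restrict_univ,
    Gs_lintegral (by positivity)]

lemma Pm_fin {δ : ℝ} (hδ : 0 < δ) : IsFiniteMeasure (Pm δ : Measure V) :=
  ⟨by rw [Pm_univ hδ]; exact ENNReal.one_lt_top⟩

/-- the enlarged majorant -/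
noncomputable def Gb (δ : ℝ) (g H : V → ℝ≥0∞) (y : V) : ℝ≥0∞ :=
  ENNReal.ofReal (27 * cG V) * (g y + ((∫⁻ z, g (y - z) ∂(Pm δ)) +
    ∫⁻ z, (∫⁻ s in Icc (0 : ℝ) 1, H (y - s • z)) ∂(Pm δ)))

lemma seg_meas {H : V → ℝ≥0∞} (hH : Measurable H) :
    Measurable fun q : V × V => ∫⁻ s in Icc (0 : ℝ) 1, H (q.1 - s • q.2) := by
  have h1 : Measurable (fun q : (V × V) × ℝ => H (q.1.1 - q.2 • q.1.2)) :=
    hH.comp ((measurable_fst.comp measurable_fst).sub
      (measurable_snd.smul (measurable_snd.comp measurable_fst)))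
  exact h1.lintegral_prod_right'

lemma Gb_meas {δ : ℝ} (hδ : 0 < δ) {g H : V → ℝ≥0∞} (hg : Measurable g) (hH : Measurable H) :
    Measurable (Gb δ g H) := by
  unfold Gb
  haveI := Pm_fin (V := V) hδ
  have h1 : Measurable (fun q : V × V => g (q.1 - q.2)) :=
    hg.comp (measurable_fst.sub measurable_snd)
  exact (hg.add (h1.lintegral_prod_right'.add (seg_meas hH).lintegral_prod_right')).const_mul _

lemma gj_int {f : V → ℂ} (hfm : Measurable f) (hi : Integrable f) {a : ℝ} (ha : 0 < a) (y : V) :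
    Integrable fun z => f (y - z) * (Gs a z : ℂ) := by
  have h1 : Integrable fun z => f (y - z) := hi.comp_sub_left y
  have h2 : ∀ z : V, ‖(Gs a z : ℂ)‖ ≤ (π * a) ^ (-(Module.finrank ℝ V / 2 : ℝ)) := by
    intro z
    rw [Complex.norm_real, Real.norm_of_nonneg (Gs_nonneg ha z)]
    unfold Gs
    apply mul_le_of_le_one_right (by positivity)
    rw [Real.exp_le_one_iff]
    have : 0 ≤ ‖z‖ ^ 2 / a := by positivity
    rw [neg_div]; linarith
  exact h1.mul_bdd (c := _) (Gs_cc a continuous_id).aestronglyMeasurable (Eventually.of_forall h2)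

/-- the pieces -/
lemma gj_bound {K : Set V} {f : V → ℂ} {g H : V → ℝ≥0∞} (hfm : Measurable f) (hi : Integrable f)
    (hg : Measurable g) (hH : Measurable H)
    (hf : ∀ y, 1 ≤ ‖y‖ → f y = 0) (hfg : ∀ y, ‖f y‖ₑ ≤ g y) (hW : Whit K f g H) {δ : ℝ}
    (hδ : 0 < δ) (hδ1 : δ ≤ 1) (y : V) :
    ‖f y - cv (3 * δ ^ 2) f y‖ₑ ≤ ENNReal.ofReal (wt K δ y) * Gb δ g H y := by
  have ha : 0 < 3 * δ ^ 2 := by positivity
  have ha6 : 0 < 6 * δ ^ 2 := by positivity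
  have hw0 := wt_nonneg K hδ y
  have hG := cG_pos (V := V)
  haveI := Pm_fin (V := V) hδ
  have e1 : f y = ∫ z : V, f y * (Gs (3 * δ ^ 2) z : ℂ) := by
    rw [integral_const_mul, integral_complex_ofReal, Gs_integral ha]; simp
  have e2 : cv (3 * δ ^ 2) f y = ∫ z, f (y - z) * (Gs (3 * δ ^ 2) z : ℂ) := by
    unfold cv
    rw [← integral_sub_left_eq_self (fun w => f w * (Gs (3 * δ ^ 2) (y - w) : ℂ)) volume y]
    congr 1; funext z; rw [sub_sub_cancel]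
  have e3 : f y - cv (3 * δ ^ 2) f y = ∫ z, (f y - f (y - z)) * (Gs (3 * δ ^ 2) z : ℂ) := by
    rw [e2]
    conv_lhs => rw [e1]
    rw [← integral_sub]
    · congr 1; funext z; ring
    · exact (Gs_integrable ha).ofReal.const_mul _
    · exact gj_int hfm hi ha y
  rw [e3]
  have hm1 : Measurable fun z : V => g (y - z) := hg.comp (measurable_const.sub measurable_id)
  have hm2 : Measurable fun z : V => ∫⁻ s in Icc (0 : ℝ) 1, H (y - s • z) := by
    have h1 : Measurable (fun z : V => ((y, z) : V × V)) := by fun_prop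
    exact (seg_meas hH).comp h1
  have hmc : Measurable fun z : V => (g y + (g (y - z) + ∫⁻ s in Icc (0 : ℝ) 1, H (y - s • z))) :=
    measurable_const.add (hm1.add hm2)
  have hmG : Measurable fun z : V => ENNReal.ofReal (Gs (6 * δ ^ 2) z) :=
    (Gs_cont _).measurable.ennreal_ofReal
  calc ‖∫ z, (f y - f (y - z)) * (Gs (3 * δ ^ 2) z : ℂ)‖ₑ
      ≤ ∫⁻ z, ‖(f y - f (y - z)) * (Gs (3 * δ ^ 2) z : ℂ)‖ₑ :=
        enorm_integral_le_lintegral_enorm _
    _ ≤ ∫⁻ z, ENNReal.ofReal (27 * wt K δ y * cG V) * (ENNReal.ofReal (Gs (6 * δ ^ 2) z) *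
          (g y + (g (y - z) + ∫⁻ s in Icc (0 : ℝ) 1, H (y - s • z)))) := by
        apply lintegral_mono
        intro z
        show ‖(f y - f (y - z)) * (Gs (3 * δ ^ 2) z : ℂ)‖ₑ ≤ _
        rw [enorm_mul]
        have e4 : ‖(Gs (3 * δ ^ 2) z : ℂ)‖ₑ = ENNReal.ofReal (Gs (3 * δ ^ 2) z) := by
          rw [← ofReal_norm, Complex.norm_real, Real.norm_of_nonneg (Gs_nonneg ha _)]
        rw [e4]
        have h5 := incr hf hfg hW hδ hδ1 y z
        beta_reduce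
        generalize (g y + (g (y - z) + ∫⁻ s in Icc (0 : ℝ) 1, H (y - s • z))) = S at *
        calc ‖f y - f (y - z)‖ₑ * ENNReal.ofReal (Gs (3 * δ ^ 2) z)
            ≤ (ENNReal.ofReal (27 * wt K δ y * (1 + ‖z‖ / δ) ^ 4) * S) *
              ENNReal.ofReal (Gs (3 * δ ^ 2) z) :=
              mul_le_mul' h5 le_rfl
          _ = ENNReal.ofReal (27 * wt K δ y * ((1 + ‖z‖ / δ) ^ 4 * Gs (3 * δ ^ 2) z)) * S := by
              rw [← mul_assoc (27 * wt K δ y), ENNReal.ofReal_mul (p := 27 * wt K δ y *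
                (1 + ‖z‖ / δ) ^ 4) (by positivity)]
              ring
          _ ≤ ENNReal.ofReal (27 * wt K δ y * (cG V * Gs (6 * δ ^ 2) z)) * S := by
              refine mul_le_mul' (ENNReal.ofReal_le_ofReal ?_) le_rfl
              exact mul_le_mul_of_nonneg_left (Gs_poly hδ z) (by positivity)
          _ = _ := by
              rw [← mul_assoc (27 * wt K δ y), ENNReal.ofReal_mul (by positivity)]
              ring
    _ = ENNReal.ofReal (27 * wt K δ y * cG V) * ∫⁻ z,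
          (g y + (g (y - z) + ∫⁻ s in Icc (0 : ℝ) 1, H (y - s • z))) ∂(Pm δ) := by
        rw [lintegral_const_mul' _ _ ENNReal.ofReal_ne_top]
        unfold Pm
        rw [lintegral_withDensity_eq_lintegral_mul _ hmG hmc]
        rfl
    _ = ENNReal.ofReal (27 * wt K δ y * cG V) * (g y + ((∫⁻ z, g (y - z) ∂(Pm δ)) +
        ∫⁻ z, (∫⁻ s in Icc (0 : ℝ) 1, H (y - s • z)) ∂(Pm δ))) := by
        rw [lintegral_add_left measurable_const, lintegral_const, Pm_univ hδ, mul_one,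
          lintegral_add_left hm1]
    _ = _ := by
        unfold Gb
        rw [← mul_assoc, ← ENNReal.ofReal_mul hw0]
        congr 2; ring

/-- the `L^p` norm of the majorant -/
lemma Gb_lp {p : ℝ} (hp : 1 ≤ p) {δ : ℝ} (hδ : 0 < δ) {g H : V → ℝ≥0∞} (hg : Measurable g)
    (hH : Measurable H) :
    ∫⁻ y, Gb δ g H y ^ p ≤
      ENNReal.ofReal (108 * cG V) ^ p * ((∫⁻ y, g y ^ p) + ∫⁻ y, H y ^ p) := by
  have hp0 : 0 ≤ p := by linarith
  have hG := cG_pos (V := V)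
  haveI := Pm_fin (V := V) hδ
  have hY := young' (Pm δ : Measure V) hp (φ := fun z : V => z) hg measurable_id
  rw [Pm_univ hδ, ENNReal.one_rpow, one_mul] at hY
  have hZ := young' ((Pm δ : Measure V).prod (volume.restrict (Icc (0 : ℝ) 1))) hp
    (φ := fun w : V × ℝ => w.2 • w.1) hH (measurable_snd.smul measurable_fst)
  have hu : ((Pm δ : Measure V).prod (volume.restrict (Icc (0 : ℝ) 1))) univ = 1 := by
    rw [← univ_prod_univ, Measure.prod_prod, Pm_univ hδ]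
    simp
  rw [hu, ENNReal.one_rpow, one_mul] at hZ
  have hZ2 : ∀ y : V, ∫⁻ w : V × ℝ, H (y - w.2 • w.1) ∂((Pm δ : Measure V).prod
      (volume.restrict (Icc (0 : ℝ) 1))) =
      ∫⁻ z, (∫⁻ s in Icc (0 : ℝ) 1, H (y - s • z)) ∂(Pm δ) := by
    intro y
    have hm : Measurable (fun w : V × ℝ => H (y - w.2 • w.1)) :=
      hH.comp (measurable_const.sub (measurable_snd.smul measurable_fst))
    rw [lintegral_prod _ hm.aemeasurable]
  simp_rw [hZ2] at hZ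
  have hm1 : Measurable fun y : V => ∫⁻ z, g (y - z) ∂(Pm δ) := by
    have h1 : Measurable (fun q : V × V => g (q.1 - q.2)) :=
      hg.comp (measurable_fst.sub measurable_snd)
    exact h1.lintegral_prod_right'
  have hm2 : Measurable fun y : V => ∫⁻ z, (∫⁻ s in Icc (0 : ℝ) 1, H (y - s • z)) ∂(Pm δ) :=
    (seg_meas hH).lintegral_prod_right'
  unfold Gb
  have h2p : (1 : ℝ≥0∞) ≤ 2 ^ (p - 1) := by
    have := ENNReal.rpow_le_rpow_of_exponent_le (show (1 : ℝ≥0∞) ≤ 2 by norm_num)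
      (show (0 : ℝ) ≤ p - 1 by linarith)
    simpa using this
  have hpt : ∀ a b c : ℝ≥0∞, (a + (b + c)) ^ p ≤ 2 ^ (p - 1) * 2 ^ (p - 1) * (a ^ p + (b ^ p + c ^ p)) := by
    intro a b c
    calc (a + (b + c)) ^ p ≤ 2 ^ (p - 1) * (a ^ p + (b + c) ^ p) :=
          ENNReal.rpow_add_le_mul_rpow_add_rpow _ _ hp
      _ ≤ 2 ^ (p - 1) * (2 ^ (p - 1) * a ^ p + 2 ^ (p - 1) * (b ^ p + c ^ p)) := by
          gcongr
          · calc a ^ p = 1 * a ^ p := by rw [one_mul]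
              _ ≤ _ := by gcongr
          · exact ENNReal.rpow_add_le_mul_rpow_add_rpow _ _ hp
      _ = _ := by ring
  calc ∫⁻ y, (ENNReal.ofReal (27 * cG V) * (g y + ((∫⁻ z, g (y - z) ∂(Pm δ)) +
        ∫⁻ z, (∫⁻ s in Icc (0 : ℝ) 1, H (y - s • z)) ∂(Pm δ)))) ^ p
      ≤ ∫⁻ y, (ENNReal.ofReal (27 * cG V) ^ p * (2 ^ (p - 1) * 2 ^ (p - 1))) * (g y ^ p +
        ((∫⁻ z, g (y - z) ∂(Pm δ)) ^ p +
        (∫⁻ z, (∫⁻ s in Icc (0 : ℝ) 1, H (y - s • z)) ∂(Pm δ)) ^ p)) := by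
        apply lintegral_mono
        intro y
        beta_reduce
        rw [ENNReal.mul_rpow_of_nonneg _ _ hp0, mul_assoc (ENNReal.ofReal (27 * cG V) ^ p)]
        exact mul_le_mul' le_rfl (hpt _ _ _)
    _ = (ENNReal.ofReal (27 * cG V) ^ p * (2 ^ (p - 1) * 2 ^ (p - 1))) * ((∫⁻ y, g y ^ p) +
        ((∫⁻ y, (∫⁻ z, g (y - z) ∂(Pm δ)) ^ p) +
        ∫⁻ y, (∫⁻ z, (∫⁻ s in Icc (0 : ℝ) 1, H (y - s • z)) ∂(Pm δ)) ^ p)) := by
        have h2t : (2 : ℝ≥0∞) ^ (p - 1) ≠ ∞ :=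
          ENNReal.rpow_ne_top_of_nonneg (by linarith) (by norm_num)
        rw [lintegral_const_mul' _ _ (ENNReal.mul_ne_top
          (ENNReal.rpow_ne_top_of_nonneg hp0 ENNReal.ofReal_ne_top)
          (ENNReal.mul_ne_top h2t h2t)),
          lintegral_add_left (hg.pow_const p), lintegral_add_left (hm1.pow_const p)]
    _ ≤ (ENNReal.ofReal (27 * cG V) ^ p * (2 ^ (p - 1) * 2 ^ (p - 1))) * ((∫⁻ y, g y ^ p) +
        ((∫⁻ y, g y ^ p) + ∫⁻ y, H y ^ p)) :=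
        mul_le_mul' le_rfl (add_le_add le_rfl (add_le_add hY hZ))
    _ ≤ (ENNReal.ofReal (27 * cG V) ^ p * (2 ^ (p - 1) * 2 ^ (p - 1))) *
        (2 * 2 * ((∫⁻ y, g y ^ p) + ∫⁻ y, H y ^ p)) := by
        refine mul_le_mul' le_rfl ?_
        calc (∫⁻ y, g y ^ p) + ((∫⁻ y, g y ^ p) + ∫⁻ y, H y ^ p)
            ≤ ((∫⁻ y, g y ^ p) + ∫⁻ y, H y ^ p) + ((∫⁻ y, g y ^ p) + ∫⁻ y, H y ^ p) :=
              add_le_add le_self_add le_rfl
          _ = 2 * ((∫⁻ y, g y ^ p) + ∫⁻ y, H y ^ p) := by ring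
          _ ≤ 2 * ((∫⁻ y, g y ^ p) + ∫⁻ y, H y ^ p) + 2 * ((∫⁻ y, g y ^ p) + ∫⁻ y, H y ^ p) :=
              le_self_add
          _ = _ := by ring
    _ = ENNReal.ofReal (27 * cG V) ^ p * ((2 ^ (p - 1) * 2) * (2 ^ (p - 1) * 2)) *
        ((∫⁻ y, g y ^ p) + ∫⁻ y, H y ^ p) := by ring
    _ = _ := by
        have e1 : (2 : ℝ≥0∞) ^ (p - 1) * 2 = 2 ^ p := by
          conv_lhs => rw [← ENNReal.rpow_one 2]
          rw [← ENNReal.rpow_mul, ← ENNReal.rpow_add _ _ (by norm_num) (by norm_num)]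
          congr 1; ring
        rw [e1, ← ENNReal.mul_rpow_of_nonneg _ _ hp0, ← ENNReal.mul_rpow_of_nonneg _ _ hp0]
        congr 2
        rw [show (2 : ℝ≥0∞) = ENNReal.ofReal 2 by simp, ← ENNReal.ofReal_mul (by positivity),
          ← ENNReal.ofReal_mul (by positivity)]
        congr 1; ring

end Pool.Agent.U562.HD
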