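import Pool.Agent.U562.HD.Sum
set_option autoImplicit false

/-! Functions with the mean value property off `K` satisfy the Whitney condition -/

namespace Pool.Agent.U562.HD

open MeasureTheory Complex Set Metric Filter Topology
open scoped ENNReal NNReal RealInnerProductSpace Real

variable {V : Type*} [NormedAddCommGroup V] [InnerProductSpace ℝ V] [FiniteDimensional ℝ V]
  [MeasurableSpace V] [BorelSpace V]

/-- the mean value property in balls not meeting `K` -/
def MVoff (K : Set V) (f : V → ℂ) : Prop :=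
  ∀ x r, 0 < r → r < infDist x K → f x = ⨍ y in ball x r, f y

/-- the Whitney average -/
noncomputable def Av (K : Set V) (f : V → ℂ) (x : V) : ℝ≥0∞ :=
  (volume (ball (0 : V) (infDist x K / 2)))⁻¹ * ∫⁻ y in ball x (infDist x K / 2), ‖f y‖ₑ

lemma inv_c {c : ℝ≥0∞} (h0 : c ≠ 0) (ht : c ≠ ∞) (v : ℝ≥0∞) : v⁻¹ = c * (c * v)⁻¹ := by
  rw [ENNReal.mul_inv (Or.inl h0) (Or.inl ht), ← mul_assoc, ENNReal.mul_inv_cancel h0 ht, one_mul]

lemma vol_ball (hn : Module.finrank ℝ V = 2) {r : ℝ} (hr : 0 < r) (x : V) :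
    volume (ball x r) = ENNReal.ofReal (r ^ 2) * volume (ball (0 : V) 1) := by
  rw [Measure.addHaar_ball_of_pos _ _ hr, hn]

lemma mv_int {K : Set V} {f : V → ℂ} (hMV : MVoff K f) {x : V} {r : ℝ} (hr : 0 < r)
    (hrd : r < infDist x K) :
    (((volume (ball (0 : V) r)).toReal : ℝ) : ℂ) * f x = ∫ y in ball x r, f y := by
  have h := hMV x r hr hrd
  rw [setAverage_eq, Measure.real, Measure.addHaar_ball_center] at h
  rw [h, Complex.real_smul, ← mul_assoc]
  have h1 : (volume (ball (0 : V) r)).toReal ≠ 0 :=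
    (ENNReal.toReal_pos (vol_ne_zero hr) (vol_ne_top r)).ne'
  have h2 : ((volume (ball (0 : V) r)).toReal : ℂ) ≠ 0 := by exact_mod_cast h1
  push_cast
  rw [mul_inv_cancel₀ h2, one_mul]

lemma mv_le {K : Set V} {f : V → ℂ} (hMV : MVoff K f) {x : V} {r : ℝ} (hr : 0 < r)
    (hrd : r < infDist x K) :
    ‖f x‖ₑ ≤ (volume (ball (0 : V) r))⁻¹ * ∫⁻ y in ball x r, ‖f y‖ₑ := by
  have h := mv_int hMV hr hrd
  have h1 : volume (ball (0 : V) r) * ‖f x‖ₑ ≤ ∫⁻ y in ball x r, ‖f y‖ₑ := by
    calc volume (ball (0 : V) r) * ‖f x‖ₑ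
        = ‖(((volume (ball (0 : V) r)).toReal : ℝ) : ℂ) * f x‖ₑ := by
          rw [enorm_mul]; congr 1
          rw [← ofReal_norm, Complex.norm_real, Real.norm_of_nonneg ENNReal.toReal_nonneg,
            ENNReal.ofReal_toReal (vol_ne_top r)]
      _ = ‖∫ y in ball x r, f y‖ₑ := by rw [h]
      _ ≤ _ := enorm_integral_le_lintegral_enorm _
  calc ‖f x‖ₑ = (volume (ball (0 : V) r))⁻¹ * (volume (ball (0 : V) r) * ‖f x‖ₑ) := by
        rw [← mul_assoc, ENNReal.inv_mul_cancel (vol_ne_zero hr) (vol_ne_top r), one_mul]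
    _ ≤ _ := by gcongr

/-- sup bound near `x` -/
lemma mv_sup (hn : Module.finrank ℝ V = 2) {K : Set V} {f : V → ℂ} (hMV : MVoff K f) {x z : V}
    (hd : 0 < infDist x K) (hz : dist z x < 3 * infDist x K / 8) :
    ‖f z‖ₑ ≤ 16 * Av K f x := by
  set d := infDist x K with hdd
  have hdz : d ≤ infDist z K + dist x z := infDist_le_infDist_add_dist
  rw [dist_comm] at hdz
  have h1 : d / 8 < infDist z K := by linarith
  have h8 : 0 < d / 8 := by positivity
  have h2 : 0 < d / 2 := by positivity
  refine (mv_le hMV h8 h1).trans ?_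
  unfold Av
  rw [← hdd, vol_ball hn h8, vol_ball hn h2, ← mul_assoc]
  refine mul_le_mul' (le_of_eq ?_) (lintegral_mono_set ?_)
  · have e : ENNReal.ofReal ((d / 2) ^ 2) = 16 * ENNReal.ofReal ((d / 8) ^ 2) := by
      rw [show (16 : ℝ≥0∞) = ENNReal.ofReal 16 by simp, ← ENNReal.ofReal_mul (by norm_num)]
      congr 1; ring
    rw [e, mul_assoc]
    exact inv_c (by norm_num) (by norm_num) _
  · apply ball_subset_ball'
    linarith

/-- volume of a difference of balls -/
lemma vol_diff (hn : Module.finrank ℝ V = 2) {x y : V} {r : ℝ} (hr : 0 < r)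
    (hxy : dist x y < r) :
    volume (ball x r \ ball y r) ≤ ENNReal.ofReal (2 * r * dist x y) * volume (ball (0 : V) 1) := by
  have h0 := dist_nonneg (x := x) (y := y)
  have hr' : 0 < r - dist x y := by linarith
  have hsub : ball x (r - dist x y) ⊆ ball x r ∩ ball y r := by
    intro z hz
    rw [mem_ball] at hz
    refine ⟨by rw [mem_ball]; linarith, ?_⟩
    rw [mem_ball]
    calc dist z y ≤ dist z x + dist x y := dist_triangle _ _ _
      _ < r := by linarith
  have hs2 : ball x (r - dist x y) ⊆ ball x r := hsub.trans inter_subset_left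
  calc volume (ball x r \ ball y r) ≤ volume (ball x r \ ball x (r - dist x y)) := by
        apply measure_mono
        intro z hz
        exact ⟨hz.1, fun h => hz.2 (hsub h).2⟩
    _ = volume (ball x r) - volume (ball x (r - dist x y)) :=
        measure_diff hs2 measurableSet_ball.nullMeasurableSet measure_ball_lt_top.ne
    _ ≤ _ := by
        rw [tsub_le_iff_right, vol_ball hn hr, vol_ball hn hr', ← add_mul]
        gcongr
        rw [← ENNReal.ofReal_add (by positivity) (by positivity)]
        apply ENNReal.ofReal_le_ofReal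
        nlinarith

/-- the increments of functions with the mean value property -/
lemma mv_incr (hn : Module.finrank ℝ V = 2) {K : Set V} {f : V → ℂ} (hMV : MVoff K f)
    (hi : Integrable f) {x y : V} (hd : 0 < infDist x K) (hxy : dist x y < infDist x K / 8) :
    ENNReal.ofReal (infDist x K) * ‖f x - f y‖ₑ ≤
      ENNReal.ofReal (dist x y) * (256 * Av K f x) := by
  set d := infDist x K with hdd
  have h0 := dist_nonneg (x := x) (y := y)
  set r := d / 4 with hr
  have hr0 : 0 < r := by positivity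
  have hdy : d ≤ infDist y K + dist x y := infDist_le_infDist_add_dist
  have hx := mv_int hMV (x := x) hr0 (by linarith)
  have hy := mv_int hMV (x := y) hr0 (by linarith)
  set S := 16 * Av K f x with hS
  have hω0 : volume (ball (0 : V) 1) ≠ 0 := vol_ne_zero one_pos
  have hωt : volume (ball (0 : V) 1) ≠ ∞ := vol_ne_top 1
  have hxs : ∀ z ∈ ball x r, ‖f z‖ₑ ≤ S := by
    intro z hz
    rw [mem_ball] at hz
    exact mv_sup hn hMV hd (by linarith)
  have hys : ∀ z ∈ ball y r, ‖f z‖ₑ ≤ S := by
    intro z hz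
    rw [mem_ball] at hz
    have := dist_triangle z y x
    rw [dist_comm y x] at this
    exact mv_sup hn hMV hd (by linarith)
  have hdiff : (((volume (ball (0 : V) r)).toReal : ℝ) : ℂ) * (f x - f y) =
      (∫ z in ball x r \ ball y r, f z) - ∫ z in ball y r \ ball x r, f z := by
    rw [mul_sub, hx, hy, ← integral_inter_add_diff (s := ball x r) (t := ball y r)
      measurableSet_ball hi.integrableOn,
      ← integral_inter_add_diff (s := ball y r) (t := ball x r)
      measurableSet_ball hi.integrableOn, inter_comm (ball y r)]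
    ring
  have hb : ∀ (s : Set V), MeasurableSet s → (∀ z ∈ s, ‖f z‖ₑ ≤ S) →
      ‖∫ z in s, f z‖ₑ ≤ S * volume s := by
    intro s hs hS
    calc ‖∫ z in s, f z‖ₑ ≤ ∫⁻ z in s, ‖f z‖ₑ := enorm_integral_le_lintegral_enorm _
      _ ≤ ∫⁻ _ in s, S := setLIntegral_mono' hs hS
      _ = _ := by rw [setLIntegral_const]
  have h1 : volume (ball (0 : V) r) * ‖f x - f y‖ₑ ≤
      S * (ENNReal.ofReal (4 * r * dist x y) * volume (ball (0 : V) 1)) := by
    calc volume (ball (0 : V) r) * ‖f x - f y‖ₑ
        = ‖(((volume (ball (0 : V) r)).toReal : ℝ) : ℂ) * (f x - f y)‖ₑ := by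
          rw [enorm_mul]; congr 1
          rw [← ofReal_norm, Complex.norm_real, Real.norm_of_nonneg ENNReal.toReal_nonneg,
            ENNReal.ofReal_toReal (vol_ne_top r)]
      _ ≤ ‖∫ z in ball x r \ ball y r, f z‖ₑ + ‖∫ z in ball y r \ ball x r, f z‖ₑ := by
          rw [hdiff]; exact enorm_sub_le
      _ ≤ S * volume (ball x r \ ball y r) + S * volume (ball y r \ ball x r) :=
          add_le_add (hb _ (measurableSet_ball.diff measurableSet_ball) fun z hz => hxs z hz.1)
            (hb _ (measurableSet_ball.diff measurableSet_ball) fun z hz => hys z hz.1)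
      _ ≤ S * (ENNReal.ofReal (2 * r * dist x y) * volume (ball (0 : V) 1)) +
          S * (ENNReal.ofReal (2 * r * dist y x) * volume (ball (0 : V) 1)) := by
          gcongr
          · exact vol_diff hn hr0 (by linarith)
          · exact vol_diff hn hr0 (by rw [dist_comm]; linarith)
      _ = _ := by
          rw [dist_comm y x, ← mul_add, ← add_mul, ← ENNReal.ofReal_add (by positivity)
            (by positivity)]
          congr 3; ring
  rw [vol_ball hn hr0] at h1
  have h2 : volume (ball (0 : V) 1) * (ENNReal.ofReal (r ^ 2) * ‖f x - f y‖ₑ) ≤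
      volume (ball (0 : V) 1) * (S * ENNReal.ofReal (4 * r * dist x y)) := by
    calc volume (ball (0 : V) 1) * (ENNReal.ofReal (r ^ 2) * ‖f x - f y‖ₑ)
        = ENNReal.ofReal (r ^ 2) * volume (ball (0 : V) 1) * ‖f x - f y‖ₑ := by ring
      _ ≤ _ := h1
      _ = _ := by ring
  have h3 := (ENNReal.mul_le_mul_iff_right hω0 hωt).mp h2
  have h4 : ENNReal.ofReal r * (ENNReal.ofReal r * ‖f x - f y‖ₑ) ≤
      ENNReal.ofReal r * (S * ENNReal.ofReal (4 * dist x y)) := by
    calc ENNReal.ofReal r * (ENNReal.ofReal r * ‖f x - f y‖ₑ)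
        = ENNReal.ofReal (r ^ 2) * ‖f x - f y‖ₑ := by
          rw [← mul_assoc, ← ENNReal.ofReal_mul hr0.le, ← sq]
      _ ≤ _ := h3
      _ = _ := by
          rw [show 4 * r * dist x y = r * (4 * dist x y) by ring, ENNReal.ofReal_mul hr0.le]
          ring
  have h5 := (ENNReal.mul_le_mul_iff_right (by simpa using hr0) ENNReal.ofReal_ne_top).mp h4
  calc ENNReal.ofReal d * ‖f x - f y‖ₑ = 4 * (ENNReal.ofReal r * ‖f x - f y‖ₑ) := by
        rw [← mul_assoc, show (4 : ℝ≥0∞) = ENNReal.ofReal 4 by simp,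
          ← ENNReal.ofReal_mul (by norm_num), hr]
        congr 2; ring
    _ ≤ 4 * (S * ENNReal.ofReal (4 * dist x y)) := by gcongr
    _ = _ := by
        rw [hS, ENNReal.ofReal_mul (by norm_num)]
        simp only [ENNReal.ofReal_ofNat]
        ring

lemma Av_joint (K : Set V) : MeasurableSet {p : V × V | dist p.2 p.1 < infDist p.1 K / 2} := by
  apply IsOpen.measurableSet
  have : Continuous fun p : V × V => infDist p.1 K := (continuous_infDist_pt K).comp continuous_fst
  exact isOpen_lt (by fun_prop) (by fun_prop)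

lemma vol_meas (hn : Module.finrank ℝ V = 2) (K : Set V) {c : ℝ} (hc : 0 < c) :
    Measurable fun x : V => volume (ball (0 : V) (infDist x K * c)) := by
  have e : (fun x : V => volume (ball (0 : V) (infDist x K * c))) =
      fun x => ENNReal.ofReal ((infDist x K * c) ^ 2) * volume (ball (0 : V) 1) := by
    funext x
    rcases (infDist_nonneg (x := x) (s := K)).eq_or_lt with h | h
    · rw [← h]; simp
    · rw [vol_ball hn (by positivity)]
  rw [e]
  have : Measurable fun x : V => infDist x K := (continuous_infDist_pt K).measurable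
  fun_prop

lemma Av_meas (hn : Module.finrank ℝ V = 2) (K : Set V) {f : V → ℂ} (hf : Measurable f) :
    Measurable (Av K f) := by
  unfold Av
  have hm : Measurable (fun p : V × V => ({p : V × V | dist p.2 p.1 < infDist p.1 K / 2}.indicator
      (fun p => ‖f p.2‖ₑ)) p) := (hf.comp measurable_snd).enorm.indicator (Av_joint K)
  have e1 : ∀ b, ∫⁻ y in ball b (infDist b K / 2), ‖f y‖ₑ =
      ∫⁻ y, ({p : V × V | dist p.2 p.1 < infDist p.1 K / 2}.indicator
      (fun p => ‖f p.2‖ₑ)) (b, y) := by
    intro b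
    rw [← lintegral_indicator measurableSet_ball]
    congr 1
  simp_rw [e1]
  have hv := vol_meas hn K (show (0 : ℝ) < 1 / 2 by norm_num)
  have e2 : (fun x : V => volume (ball (0 : V) (infDist x K * (1 / 2)))) =
      fun x => volume (ball (0 : V) (infDist x K / 2)) := by
    funext x; congr 2; ring
  rw [e2] at hv
  exact hv.inv.mul hm.lintegral_prod_right'

/-- the Whitney averages are bounded in `L^p` -/
lemma Av_lp (hn : Module.finrank ℝ V = 2) (K : Set V) {f : V → ℂ} (hf : Measurable f) {p : ℝ}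
    (hp : 1 ≤ p) : ∫⁻ x, Av K f x ^ p ≤ 9 * ∫⁻ y, ‖f y‖ₑ ^ p := by
  have hp0 : 0 < p := by linarith
  have hs : MeasurableSet {q : V × V | dist q.2 q.1 < infDist q.2 K} := by
    apply IsOpen.measurableSet
    have : Continuous fun p : V × V => infDist p.2 K :=
      (continuous_infDist_pt K).comp continuous_snd
    exact isOpen_lt (by fun_prop) this
  have hv := vol_meas hn K (show (0 : ℝ) < 1 by norm_num)
  simp only [mul_one] at hv
  have hkm : Measurable fun q : V × V => {q : V × V | dist q.2 q.1 < infDist q.2 K}.indicator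
      (fun q => (9 * (volume (ball (0 : V) (infDist q.2 K)))⁻¹) * ‖f q.2‖ₑ ^ p) q := by
    apply Measurable.indicator _ hs
    exact ((hv.comp measurable_snd).inv.const_mul 9).mul
      ((hf.comp measurable_snd).enorm.pow_const p)
  have hpt : ∀ x, Av K f x ^ p ≤ ∫⁻ y, {q : V × V | dist q.2 q.1 < infDist q.2 K}.indicator
      (fun q => (9 * (volume (ball (0 : V) (infDist q.2 K)))⁻¹) * ‖f q.2‖ₑ ^ p) (x, y) := by
    intro x
    rcases (infDist_nonneg (x := x) (s := K)).eq_or_lt with h | h
    · unfold Av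
      rw [← h]
      simp [hp0]
    set d := infDist x K with hdd
    have hd2 : 0 < d / 2 := by positivity
    have hv0 : volume (ball (0 : V) (d / 2)) ≠ 0 := vol_ne_zero hd2
    have hvt : volume (ball (0 : V) (d / 2)) ≠ ∞ := vol_ne_top _
    calc Av K f x ^ p = (volume (ball (0 : V) (d / 2)))⁻¹ ^ p *
          (∫⁻ y in ball x (d / 2), ‖f y‖ₑ) ^ p := by
          unfold Av
          rw [ENNReal.mul_rpow_of_nonneg _ _ hp0.le]
      _ ≤ (volume (ball (0 : V) (d / 2)))⁻¹ ^ p * ((∫⁻ y in ball x (d / 2), ‖f y‖ₑ ^ p) *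
          (volume (ball (0 : V) (d / 2))) ^ (p - 1)) := by
          gcongr
          have h1 := jens (volume.restrict (ball x (d / 2))) hp (f := fun y => ‖f y‖ₑ)
            hf.enorm.aemeasurable
          rwa [Measure.restrict_apply_univ, Measure.addHaar_ball_center] at h1
      _ = (volume (ball (0 : V) (d / 2)))⁻¹ * ∫⁻ y in ball x (d / 2), ‖f y‖ₑ ^ p := by
          have e1 : (volume (ball (0 : V) (d / 2)))⁻¹ ^ p *
              (volume (ball (0 : V) (d / 2))) ^ (p - 1) = (volume (ball (0 : V) (d / 2)))⁻¹ := by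
            generalize volume (ball (0 : V) (d / 2)) = v at *
            rw [ENNReal.inv_rpow, ← ENNReal.rpow_neg, ← ENNReal.rpow_add _ _ hv0 hvt,
              ← ENNReal.rpow_neg_one]
            congr 1; ring
          calc _ = ((volume (ball (0 : V) (d / 2)))⁻¹ ^ p *
              (volume (ball (0 : V) (d / 2))) ^ (p - 1)) *
                ∫⁻ y in ball x (d / 2), ‖f y‖ₑ ^ p := by ring
            _ = _ := by rw [e1]
      _ = ∫⁻ y in ball x (d / 2), (volume (ball (0 : V) (d / 2)))⁻¹ * ‖f y‖ₑ ^ p := by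
          rw [lintegral_const_mul' _ _ (ENNReal.inv_ne_top.mpr hv0)]
      _ = ∫⁻ y, (ball x (d / 2)).indicator
            (fun y => (volume (ball (0 : V) (d / 2)))⁻¹ * ‖f y‖ₑ ^ p) y := by
          rw [lintegral_indicator measurableSet_ball]
      _ ≤ _ := by
          apply lintegral_mono
          intro y
          beta_reduce
          by_cases hy : y ∈ ball x (d / 2)
          · rw [indicator_of_mem hy]
            rw [mem_ball] at hy
            have h1 : d ≤ infDist y K + dist x y := infDist_le_infDist_add_dist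
            have h2 : infDist y K ≤ d + dist y x := infDist_le_infDist_add_dist
            rw [dist_comm x y] at h1
            have h3 : dist y x < infDist y K := by linarith
            rw [indicator_of_mem (show (x, y) ∈ {q : V × V | dist q.2 q.1 < infDist q.2 K} from h3)]
            have hdy : 0 < infDist y K := by linarith [dist_nonneg (x := y) (y := x)]
            show (volume (ball (0 : V) (d / 2)))⁻¹ * ‖f y‖ₑ ^ p ≤
              9 * (volume (ball (0 : V) (infDist y K)))⁻¹ * ‖f y‖ₑ ^ p
            gcongr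
            have e9 : volume (ball (0 : V) (infDist y K)) ≤
                9 * volume (ball (0 : V) (d / 2)) := by
              rw [vol_ball hn hdy, vol_ball hn hd2, ← mul_assoc]
              gcongr
              rw [show (9 : ℝ≥0∞) = ENNReal.ofReal 9 by simp, ← ENNReal.ofReal_mul (by norm_num)]
              apply ENNReal.ofReal_le_ofReal
              have h4 : infDist y K ≤ 3 * (d / 2) := by linarith
              nlinarith
            calc (volume (ball (0 : V) (d / 2)))⁻¹
                = 9 * (9 * volume (ball (0 : V) (d / 2)))⁻¹ :=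
                  inv_c (by norm_num) (by norm_num) _
              _ ≤ _ := by gcongr
          · rw [indicator_of_notMem hy]; exact bot_le
  calc ∫⁻ x, Av K f x ^ p
      ≤ ∫⁻ x, ∫⁻ y, {q : V × V | dist q.2 q.1 < infDist q.2 K}.indicator
          (fun q => (9 * (volume (ball (0 : V) (infDist q.2 K)))⁻¹) * ‖f q.2‖ₑ ^ p) (x, y) :=
        lintegral_mono hpt
    _ = ∫⁻ y, ∫⁻ x, {q : V × V | dist q.2 q.1 < infDist q.2 K}.indicator
          (fun q => (9 * (volume (ball (0 : V) (infDist q.2 K)))⁻¹) * ‖f q.2‖ₑ ^ p) (x, y) :=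
        lintegral_lintegral_swap hkm.aemeasurable
    _ ≤ ∫⁻ y, 9 * ‖f y‖ₑ ^ p := by
        apply lintegral_mono
        intro y
        have e : ∀ x, {q : V × V | dist q.2 q.1 < infDist q.2 K}.indicator
            (fun q => (9 * (volume (ball (0 : V) (infDist q.2 K)))⁻¹) * ‖f q.2‖ₑ ^ p) (x, y) =
            (ball y (infDist y K)).indicator (fun _ =>
              (9 * (volume (ball (0 : V) (infDist y K)))⁻¹) * ‖f y‖ₑ ^ p) x := by
          intro x
          by_cases h : dist y x < infDist y K
          · rw [indicator_of_mem (show (x, y) ∈ {q : V × V | dist q.2 q.1 < infDist q.2 K} from h),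
              indicator_of_mem (by rw [mem_ball, dist_comm]; exact h)]
          · rw [indicator_of_notMem (show (x, y) ∉ {q : V × V | dist q.2 q.1 < infDist q.2 K} from h),
              indicator_of_notMem (by rw [mem_ball, dist_comm]; exact h)]
        simp_rw [e]
        rw [lintegral_indicator measurableSet_ball, setLIntegral_const,
          Measure.addHaar_ball_center volume y (infDist y K)]
        rcases (infDist_nonneg (x := y) (s := K)).eq_or_lt with h | h
        · rw [← h]; simp
        · have hv0 : volume (ball (0 : V) (infDist y K)) ≠ 0 := vol_ne_zero h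
          have hvt : volume (ball (0 : V) (infDist y K)) ≠ ∞ := vol_ne_top _
          generalize volume (ball (0 : V) (infDist y K)) = v at *
          calc 9 * v⁻¹ * ‖f y‖ₑ ^ p * v = 9 * ‖f y‖ₑ ^ p * (v⁻¹ * v) := by ring
            _ ≤ _ := by rw [ENNReal.inv_mul_cancel hv0 hvt, mul_one]
    _ = _ := by rw [lintegral_const_mul' _ _ (by norm_num)]

/-- the mean value property implies the Whitney condition -/
lemma mv_whit (hn : Module.finrank ℝ V = 2) {K : Set V} {f : V → ℂ} (hMV : MVoff K f)
    (hi : Integrable f) : Whit K f (fun x => 8 * ‖f x‖ₑ + 256 * Av K f x) (fun _ => 0) := by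
  intro y z
  have hzn := norm_nonneg z
  simp only [lintegral_zero, add_zero]
  rcases (infDist_nonneg (x := y) (s := K)).eq_or_lt with h | h
  · rw [← h]; simp
  by_cases hz : ‖z‖ < infDist y K / 8
  · have h1 := mv_incr hn hMV hi (x := y) (y := y - z) h (by rw [dist_self_sub_right]; exact hz)
    rw [dist_self_sub_right, ofReal_norm] at h1
    refine h1.trans (mul_le_mul' le_rfl ?_)
    exact le_self_add.trans' le_add_self
  · push Not at hz
    calc ENNReal.ofReal (infDist y K) * ‖f y - f (y - z)‖ₑ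
        ≤ (8 * ‖z‖ₑ) * (‖f y‖ₑ + ‖f (y - z)‖ₑ) := by
          refine mul_le_mul' ?_ enorm_sub_le
          rw [← ofReal_norm z, show (8 : ℝ≥0∞) = ENNReal.ofReal 8 by simp,
            ← ENNReal.ofReal_mul (by norm_num)]
          apply ENNReal.ofReal_le_ofReal
          linarith
      _ = ‖z‖ₑ * (8 * ‖f y‖ₑ + 8 * ‖f (y - z)‖ₑ) := by ring
      _ ≤ _ := by
          gcongr
          · exact le_self_add
          · exact le_self_add

/-- the extension theorem for functions with the mean value property off `K` -/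
theorem space_time_mv (hn : Module.finrank ℝ V = 2) {p q : ℝ} (hp : 2 < p) (hpq : p ≤ q)
    (he : 1 < q - 1 - q / p) {A : ℝ} (hA : 0 ≤ A) : ∃ C : ℝ≥0∞, C ≠ ∞ ∧
    ∀ (K : Set V), Thin A K → ∀ (f : V → ℂ), Measurable f → Integrable f →
      (∀ y, 1 ≤ ‖y‖ → f y = 0) → MVoff K f →
      eLpNorm (fun P : ℝ × V => Ft P.1 f P.2) (ENNReal.ofReal q) (volume.prod volume) ≤
        C * (∫⁻ y, ‖f y‖ₑ ^ p) ^ (1 / p) := by
  obtain ⟨C, hC, hmain⟩ := space_time (V := V) hn hp hpq he hA
  have hp0 : 0 < p := by linarith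
  set D : ℝ≥0∞ := 2 ^ (p - 1) * (8 ^ p + 256 ^ p * 9) with hD
  have hDt : D ≠ ∞ := by
    refine ENNReal.mul_ne_top (ENNReal.rpow_ne_top_of_nonneg (by linarith) (by norm_num))
      (ENNReal.add_ne_top.mpr ⟨ENNReal.rpow_ne_top_of_nonneg hp0.le (by norm_num),
        ENNReal.mul_ne_top (ENNReal.rpow_ne_top_of_nonneg hp0.le (by norm_num)) (by norm_num)⟩)
  refine ⟨C * D ^ (1 / p), ENNReal.mul_ne_top hC
    (ENNReal.rpow_ne_top_of_nonneg (by positivity) hDt), ?_⟩
  intro K hK f hf hi hf0 hMV
  have hgm : Measurable fun x => 8 * ‖f x‖ₑ + 256 * Av K f x :=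
    (hf.enorm.const_mul 8).add ((Av_meas hn K hf).const_mul 256)
  refine (hmain K hK f _ _ hf hgm measurable_const hf0 (fun y => ?_) (mv_whit hn hMV hi)).trans ?_
  · calc ‖f y‖ₑ = 1 * ‖f y‖ₑ := by rw [one_mul]
      _ ≤ 8 * ‖f y‖ₑ := by gcongr; norm_num
      _ ≤ _ := le_self_add
  · rw [mul_assoc, ← ENNReal.mul_rpow_of_nonneg _ _ (by positivity)]
    gcongr
    rw [ENNReal.zero_rpow_of_pos hp0, lintegral_zero, add_zero]
    calc ∫⁻ x, (8 * ‖f x‖ₑ + 256 * Av K f x) ^ p
        ≤ ∫⁻ x, 2 ^ (p - 1) * (8 ^ p * ‖f x‖ₑ ^ p + 256 ^ p * Av K f x ^ p) := by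
          apply lintegral_mono; intro x
          beta_reduce
          refine (ENNReal.rpow_add_le_mul_rpow_add_rpow _ _ (by linarith)).trans ?_
          rw [ENNReal.mul_rpow_of_nonneg _ _ hp0.le, ENNReal.mul_rpow_of_nonneg _ _ hp0.le]
      _ = 2 ^ (p - 1) * (8 ^ p * (∫⁻ x, ‖f x‖ₑ ^ p) + 256 ^ p * ∫⁻ x, Av K f x ^ p) := by
          rw [lintegral_const_mul' _ _ (ENNReal.rpow_ne_top_of_nonneg (by linarith) (by norm_num)),
            lintegral_add_left ((hf.enorm.pow_const p).const_mul _),
            lintegral_const_mul' _ _ (ENNReal.rpow_ne_top_of_nonneg hp0.le (by norm_num)),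
            lintegral_const_mul' _ _ (ENNReal.rpow_ne_top_of_nonneg hp0.le (by norm_num))]
      _ ≤ 2 ^ (p - 1) * (8 ^ p * (∫⁻ x, ‖f x‖ₑ ^ p) + 256 ^ p * (9 * ∫⁻ x, ‖f x‖ₑ ^ p)) := by
          gcongr
          exact Av_lp hn K hf (by linarith)
      _ = _ := by rw [hD]; ring

end Pool.Agent.U562.HD
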