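import Pool.Agent.U562.HD.Fixed
set_option autoImplicit false

/-! The main estimate for one piece -/

namespace Pool.Agent.U562.HD

open MeasureTheory Complex Set Metric Filter Topology
open scoped ENNReal NNReal RealInnerProductSpace Real

/-- local Hölder inequality -/
lemma loc_holder {α : Type*} [MeasurableSpace α] (μ : Measure α) {p q : ℝ} (hp : 2 < p)
    (hpq : p ≤ q) {H m G : α → ℝ≥0∞} (hm : Measurable m) (hG : Measurable G)
    (hH : ∀ y, H y ≤ m y * G y) (hm1 : ∀ y, m y ≤ 1) :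
    (∫⁻ y, H y ∂μ) ≤ (∫⁻ y, m y ^ (p / (p - 1)) ∂μ) ^ ((p - 1) / p) *
        (∫⁻ y, G y ^ p ∂μ) ^ (1 / p) ∧
    (∫⁻ y, H y ^ 2 ∂μ) ≤ (∫⁻ y, m y ^ (p / (p - 1)) ∂μ) ^ ((p - 2) / p) *
        (∫⁻ y, G y ^ p ∂μ) ^ (2 / p) ∧
    (∫⁻ y, H y ∂μ) ^ (q - 2) * ∫⁻ y, H y ^ 2 ∂μ ≤
      (∫⁻ y, m y ^ (p / (p - 1)) ∂μ) ^ (q - 1 - q / p) * (∫⁻ y, G y ^ p ∂μ) ^ (q / p) := by
  have hp0 : 0 < p := by linarith
  have hp1 : 0 < p - 1 := by linarith
  have hp2 : 0 < p - 2 := by linarith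
  have hq2 : 0 < q - 2 := by linarith
  have h1 : (∫⁻ y, H y ∂μ) ≤ (∫⁻ y, m y ^ (p / (p - 1)) ∂μ) ^ ((p - 1) / p) *
        (∫⁻ y, G y ^ p ∂μ) ^ (1 / p) := by
    have hc : (p / (p - 1)).HolderConjugate p := by
      rw [Real.holderConjugate_iff]
      refine ⟨by rw [lt_div_iff₀ hp1]; linarith, by field_simp; ring⟩
    calc (∫⁻ y, H y ∂μ) ≤ ∫⁻ y, (m * G) y ∂μ := lintegral_mono hH
      _ ≤ _ := ENNReal.lintegral_mul_le_Lp_mul_Lq μ hc hm.aemeasurable hG.aemeasurable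
      _ = _ := by rw [one_div_div]
  have h2 : (∫⁻ y, H y ^ 2 ∂μ) ≤ (∫⁻ y, m y ^ (p / (p - 1)) ∂μ) ^ ((p - 2) / p) *
        (∫⁻ y, G y ^ p ∂μ) ^ (2 / p) := by
    have hc : (p / (p - 2)).HolderConjugate (p / 2) := by
      rw [Real.holderConjugate_iff]
      refine ⟨by rw [lt_div_iff₀ hp2]; linarith, by field_simp; ring⟩
    have e2 : ∀ x : ℝ≥0∞, x ^ 2 = x ^ (2 : ℝ) := fun x => by simp
    calc (∫⁻ y, H y ^ 2 ∂μ) ≤ ∫⁻ y, ((fun y => m y ^ 2) * (fun y => G y ^ 2)) y ∂μ := by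
          apply lintegral_mono
          intro y
          show H y ^ 2 ≤ m y ^ 2 * G y ^ 2
          rw [← mul_pow]
          gcongr
          exact hH y
      _ ≤ (∫⁻ y, (m y ^ 2) ^ (p / (p - 2)) ∂μ) ^ (1 / (p / (p - 2))) *
          (∫⁻ y, (G y ^ 2) ^ (p / 2) ∂μ) ^ (1 / (p / 2)) :=
          ENNReal.lintegral_mul_le_Lp_mul_Lq μ hc (hm.pow_const 2).aemeasurable
            (hG.pow_const 2).aemeasurable
      _ ≤ _ := by
          rw [one_div_div, one_div_div]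
          gcongr with y y
          · rw [e2, ← ENNReal.rpow_mul]
            apply ENNReal.rpow_le_rpow_of_exponent_ge (hm1 y)
            rw [div_le_iff₀ hp1]
            have : 2 * (p / (p - 2)) * (p - 1) = p * (2 * (p - 1) / (p - 2)) := by ring
            rw [this]
            have h3 : 1 ≤ 2 * (p - 1) / (p - 2) := by
              rw [le_div_iff₀ hp2]; linarith
            nlinarith
          · rw [e2, ← ENNReal.rpow_mul]
            apply le_of_eq; congr 1; ring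
  refine ⟨h1, h2, ?_⟩
  set N := ∫⁻ y, m y ^ (p / (p - 1)) ∂μ
  set I := ∫⁻ y, G y ^ p ∂μ
  calc (∫⁻ y, H y ∂μ) ^ (q - 2) * ∫⁻ y, H y ^ 2 ∂μ
      ≤ (N ^ ((p - 1) / p) * I ^ (1 / p)) ^ (q - 2) * (N ^ ((p - 2) / p) * I ^ (2 / p)) :=
        mul_le_mul' (ENNReal.rpow_le_rpow h1 hq2.le) h2
    _ = (N ^ ((p - 1) / p * (q - 2)) * N ^ ((p - 2) / p)) *
        (I ^ (1 / p * (q - 2)) * I ^ (2 / p)) := by
        rw [ENNReal.mul_rpow_of_nonneg _ _ hq2.le, ← ENNReal.rpow_mul, ← ENNReal.rpow_mul]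
        ring
    _ = _ := by
        rw [← ENNReal.rpow_add_of_nonneg _ _ (by positivity) (by positivity),
          ← ENNReal.rpow_add_of_nonneg _ _ (by positivity) (by positivity)]
        congr 2
        · field_simp; ring
        · field_simp; ring

variable {V : Type*} [NormedAddCommGroup V] [InnerProductSpace ℝ V] [FiniteDimensional ℝ V]
  [MeasurableSpace V] [BorelSpace V]

lemma ball_meas (ρ : ℝ) {F : V → ℝ≥0∞} (hF : Measurable F) :
    Measurable fun b : V => ∫⁻ y in ball b ρ, F y := by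
  have hs : MeasurableSet {p : V × V | dist p.2 p.1 < ρ} :=
    (isOpen_lt (by fun_prop) continuous_const).measurableSet
  have hm : Measurable (fun p : V × V => ({p : V × V | dist p.2 p.1 < ρ}.indicator
      (fun p => F p.2)) p) := (hF.comp measurable_snd).indicator hs
  have e1 : ∀ b, ∫⁻ y in ball b ρ, F y = ∫⁻ y, ({p : V × V | dist p.2 p.1 < ρ}.indicator
      (fun p => F p.2)) (b, y) := by
    intro b
    rw [← lintegral_indicator measurableSet_ball]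
    congr 1
  simp_rw [e1]
  exact hm.lintegral_prod_right'

/-- averages over balls -/
lemma ball_avg (ρ : ℝ) {F : V → ℝ≥0∞} (hF : Measurable F) :
    ∫⁻ b, ∫⁻ y in ball b ρ, F y = volume (ball (0 : V) ρ) * ∫⁻ y, F y := by
  have hs : MeasurableSet {p : V × V | dist p.2 p.1 < ρ} :=
    (isOpen_lt (by fun_prop) continuous_const).measurableSet
  have hm : Measurable (fun p : V × V => ({p : V × V | dist p.2 p.1 < ρ}.indicator
      (fun p => F p.2)) p) := (hF.comp measurable_snd).indicator hs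
  have e1 : ∀ b, ∫⁻ y in ball b ρ, F y = ∫⁻ y, ({p : V × V | dist p.2 p.1 < ρ}.indicator
      (fun p => F p.2)) (b, y) := by
    intro b
    rw [← lintegral_indicator measurableSet_ball]
    congr 1
  simp_rw [e1]
  rw [lintegral_lintegral_swap hm.aemeasurable]
  have e2 : ∀ y, ∫⁻ b, ({p : V × V | dist p.2 p.1 < ρ}.indicator (fun p => F p.2)) (b, y) =
      volume (ball (0 : V) ρ) * F y := by
    intro y
    have e3 : ∀ b, ({p : V × V | dist p.2 p.1 < ρ}.indicator (fun p => F p.2)) (b, y) =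
        (ball y ρ).indicator (fun _ => F y) b := by
      intro b
      by_cases h : dist y b < ρ
      · rw [indicator_of_mem (by exact h), indicator_of_mem (by rw [mem_ball, dist_comm]; exact h)]
      · rw [indicator_of_notMem (by exact h),
          indicator_of_notMem (by rw [mem_ball, dist_comm]; exact h)]
    simp_rw [e3]
    rw [lintegral_indicator measurableSet_ball, setLIntegral_const, mul_comm,
      Measure.addHaar_ball_center]
  simp_rw [e2]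
  rw [lintegral_const_mul _ hF]

/-- far times -/
lemma slice_far {p q : ℝ} (hp : 2 < p) (hpq : p ≤ q) {a t ρ : ℝ} (ha : 0 < a) (ht : t ≠ 0)
    (hρ : 0 < ρ) (hρ2 : ρ ^ 2 = a + 1 / (a * t ^ 2)) {h : V → ℂ} (hh : Measurable h)
    (hi : Integrable h) (h2 : ∫⁻ y, ‖h y‖ₑ ^ 2 ≠ ∞) {m G : V → ℝ≥0∞} (hm : Measurable m)
    (hG : Measurable G) (hH : ∀ y, ‖h y‖ₑ ≤ m y * G y) (hm1 : ∀ y, m y ≤ 1) {N : ℝ≥0∞}
    (hN : ∀ b, ∫⁻ y in ball b ρ, m y ^ (p / (p - 1)) ≤ N) (he : 0 ≤ q - 1 - q / p) :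
    ∫⁻ x, ‖Tt a t h x‖ₑ ^ q ≤ cF V q * (ENNReal.ofReal (sg V a t) ^ (q - 2) *
      N ^ (q - 1 - q / p) * (∫⁻ y, G y ^ p) ^ (q / p)) := by
  have hp0 : 0 < p := by linarith
  have hq2 : 0 < q - 2 := by linarith
  have hqp : 0 ≤ q / p - 1 := by
    rw [sub_nonneg, le_div_iff₀ hp0]; linarith
  refine (fixed_time (by linarith) ha ht hρ hρ2 hh hi h2).trans ?_
  refine mul_le_mul' le_rfl ?_
  set I := ∫⁻ y, G y ^ p with hI
  set σ := ENNReal.ofReal (sg V a t) with hσ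
  have hv0 : volume (ball (0 : V) ρ) ≠ 0 := vol_ne_zero hρ
  have hvt : volume (ball (0 : V) ρ) ≠ ∞ := vol_ne_top ρ
  have key : ∀ b, (σ * ∫⁻ y in ball b ρ, ‖h y‖ₑ) ^ (q - 2) * ∫⁻ y in ball b ρ, ‖h y‖ₑ ^ 2 ≤
      (σ ^ (q - 2) * N ^ (q - 1 - q / p) * I ^ (q / p - 1)) * ∫⁻ y in ball b ρ, G y ^ p := by
    intro b
    have h3 := (loc_holder (volume.restrict (ball b ρ)) hp hpq hm hG hH hm1).2.2
    have hIb : ∫⁻ y in ball b ρ, G y ^ p ≤ I := setLIntegral_le_lintegral _ _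
    calc (σ * ∫⁻ y in ball b ρ, ‖h y‖ₑ) ^ (q - 2) * ∫⁻ y in ball b ρ, ‖h y‖ₑ ^ 2
        = σ ^ (q - 2) * ((∫⁻ y in ball b ρ, ‖h y‖ₑ) ^ (q - 2) *
          ∫⁻ y in ball b ρ, ‖h y‖ₑ ^ 2) := by
          rw [ENNReal.mul_rpow_of_nonneg _ _ hq2.le]; ring
      _ ≤ σ ^ (q - 2) * ((∫⁻ y in ball b ρ, m y ^ (p / (p - 1))) ^ (q - 1 - q / p) *
          (∫⁻ y in ball b ρ, G y ^ p) ^ (q / p)) := by gcongr
      _ ≤ σ ^ (q - 2) * (N ^ (q - 1 - q / p) *
          (I ^ (q / p - 1) * ∫⁻ y in ball b ρ, G y ^ p)) := by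
          gcongr
          · exact hN b
          · calc (∫⁻ y in ball b ρ, G y ^ p) ^ (q / p)
                = (∫⁻ y in ball b ρ, G y ^ p) ^ (q / p - 1) * ∫⁻ y in ball b ρ, G y ^ p := by
                  conv_rhs => rw [← ENNReal.rpow_one (∫⁻ y in ball b ρ, G y ^ p)]
                  rw [← ENNReal.rpow_mul, ← ENNReal.rpow_add_of_nonneg _ _ (by linarith)
                    (by norm_num)]
                  congr 1; ring
              _ ≤ _ := by gcongr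
      _ = _ := by ring
  calc (volume (ball (0 : V) ρ))⁻¹ * ∫⁻ b, (σ * ∫⁻ y in ball b ρ, ‖h y‖ₑ) ^ (q - 2) *
        ∫⁻ y in ball b ρ, ‖h y‖ₑ ^ 2
      ≤ (volume (ball (0 : V) ρ))⁻¹ * ∫⁻ b, (σ ^ (q - 2) * N ^ (q - 1 - q / p) *
          I ^ (q / p - 1)) * ∫⁻ y in ball b ρ, G y ^ p :=
        mul_le_mul' le_rfl (lintegral_mono key)
    _ ≤ (volume (ball (0 : V) ρ))⁻¹ * ((σ ^ (q - 2) * N ^ (q - 1 - q / p) *
          I ^ (q / p - 1)) * (volume (ball (0 : V) ρ) * I)) := by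
        refine mul_le_mul' le_rfl ?_
        rw [← ball_avg ρ (hG.pow_const p)]
        apply le_of_eq
        exact lintegral_const_mul _ (ball_meas ρ (hG.pow_const p))
    _ = ((volume (ball (0 : V) ρ))⁻¹ * volume (ball (0 : V) ρ)) *
        (σ ^ (q - 2) * N ^ (q - 1 - q / p) * (I ^ (q / p - 1) * I)) := by ring
    _ = _ := by
        rw [ENNReal.inv_mul_cancel hv0 hvt, one_mul]
        congr 1
        conv_lhs => rw [← ENNReal.rpow_one I]
        rw [← ENNReal.rpow_mul, ← ENNReal.rpow_add_of_nonneg _ _ (by linarith) (by norm_num)]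
        congr 1; ring

/-- near times -/
lemma slice_near {p q : ℝ} (hp : 2 < p) (hpq : p ≤ q) {a : ℝ} (ha : 0 < a) (t : ℝ)
    {h : V → ℂ} (hh : Measurable h)
    (hi : Integrable h) (h2 : ∫⁻ y, ‖h y‖ₑ ^ 2 ≠ ∞) {m G : V → ℝ≥0∞} (hm : Measurable m)
    (hG : Measurable G) (hH : ∀ y, ‖h y‖ₑ ≤ m y * G y) (hm1 : ∀ y, m y ≤ 1) :
    ∫⁻ x, ‖Tt a t h x‖ₑ ^ q ≤ ENNReal.ofReal ((2 * π) ^ Module.finrank ℝ V) *
      ((∫⁻ y, m y ^ (p / (p - 1))) ^ (q - 1 - q / p) * (∫⁻ y, G y ^ p) ^ (q / p)) := by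
  have hq2 : 0 < q - 2 := by linarith
  have hTm : Measurable fun x => ‖Tt a t h x‖ₑ ^ 2 := (Tt_meas a t hh).enorm.pow_const 2
  have hsup : ∀ x, ‖Tt a t h x‖ₑ ≤ ∫⁻ y, ‖h y‖ₑ := by
    intro x
    calc ‖Tt a t h x‖ₑ ≤ ∫⁻ y, ‖h y * kern a t x y‖ₑ := enorm_integral_le_lintegral_enorm _
      _ ≤ ∫⁻ y, ‖h y‖ₑ := by
        apply lintegral_mono; intro y
        show ‖h y * kern a t x y‖ₑ ≤ ‖h y‖ₑ
        rw [enorm_mul]
        have h3 : ‖kern a t x y‖ₑ ≤ 1 := by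
          rw [← ofReal_norm, ← ENNReal.ofReal_one]
          exact ENNReal.ofReal_le_ofReal (kern_norm_le ha t x y)
        calc ‖h y‖ₑ * ‖kern a t x y‖ₑ ≤ ‖h y‖ₑ * 1 := by gcongr
          _ = _ := mul_one _
  calc ∫⁻ x, ‖Tt a t h x‖ₑ ^ q ≤ ∫⁻ x, (∫⁻ y, ‖h y‖ₑ) ^ (q - 2) * ‖Tt a t h x‖ₑ ^ 2 := by
        apply lintegral_mono; intro x
        show ‖Tt a t h x‖ₑ ^ q ≤ _
        have e1 : ‖Tt a t h x‖ₑ ^ q = ‖Tt a t h x‖ₑ ^ (q - 2) * ‖Tt a t h x‖ₑ ^ 2 := by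
          rw [← ENNReal.rpow_natCast, ← ENNReal.rpow_add_of_nonneg _ _ (by linarith) (by norm_num)]
          congr 1; push_cast; ring
        rw [e1]
        exact mul_le_mul' (ENNReal.rpow_le_rpow (hsup x) hq2.le) le_rfl
    _ = (∫⁻ y, ‖h y‖ₑ) ^ (q - 2) * ∫⁻ x, ‖Tt a t h x‖ₑ ^ 2 := lintegral_const_mul _ hTm
    _ ≤ (∫⁻ y, ‖h y‖ₑ) ^ (q - 2) * (ENNReal.ofReal ((2 * π) ^ Module.finrank ℝ V) *
          ∫⁻ y, ‖h y‖ₑ ^ 2) := mul_le_mul' le_rfl (Tt_l2 ha t hh hi h2)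
    _ = ENNReal.ofReal ((2 * π) ^ Module.finrank ℝ V) *
        ((∫⁻ y, ‖h y‖ₑ) ^ (q - 2) * ∫⁻ y, ‖h y‖ₑ ^ 2) := by ring
    _ ≤ _ := mul_le_mul' le_rfl (loc_holder volume hp hpq hm hG hH hm1).2.2

/-- the time integral -/
lemma time_int {δ e : ℝ} (hδ : 0 < δ) :
    ∫⁻ t : ℝ, ENNReal.ofReal ((1 / δ + |t|) ^ (-e)) =
      ENNReal.ofReal (δ ^ (e - 1)) * ∫⁻ u : ℝ, ENNReal.ofReal ((1 + |u|) ^ (-e)) := by
  have hF : Measurable fun t : ℝ => ENNReal.ofReal ((1 / δ + |t|) ^ (-e)) := by fun_prop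
  have h := lint_smul (V := ℝ) (r := 1 / δ) (by positivity) _ hF
  have e1 : ∀ u : ℝ, ENNReal.ofReal ((1 / δ + |(1 / δ) • u|) ^ (-e)) =
      ENNReal.ofReal (δ ^ e) * ENNReal.ofReal ((1 + |u|) ^ (-e)) := by
    intro u
    rw [← ENNReal.ofReal_mul (by positivity)]
    congr 1
    rw [smul_eq_mul, abs_mul, abs_of_pos (by positivity : 0 < 1 / δ),
      show 1 / δ + 1 / δ * |u| = (1 / δ) * (1 + |u|) by ring,
      Real.mul_rpow (by positivity) (by positivity), one_div, Real.inv_rpow hδ.le,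
      Real.rpow_neg hδ.le, inv_inv]
  simp_rw [e1] at h
  rw [lintegral_const_mul' _ _ ENNReal.ofReal_ne_top] at h
  simp only [Module.finrank_self, pow_one, one_div, inv_inv] at h
  simp only [one_div]
  have h2 : ∫⁻ t : ℝ, ENNReal.ofReal ((δ⁻¹ + |t|) ^ (-e)) =
      ENNReal.ofReal δ⁻¹ * (ENNReal.ofReal δ * ∫⁻ t : ℝ, ENNReal.ofReal ((δ⁻¹ + |t|) ^ (-e))) := by
    rw [← mul_assoc, ← ENNReal.ofReal_mul (by positivity), inv_mul_cancel₀ hδ.ne',
      ENNReal.ofReal_one, one_mul]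
  rw [h2, ← h, ← mul_assoc, ← ENNReal.ofReal_mul (by positivity)]
  congr 2
  rw [Real.rpow_sub_one hδ.ne']
  field_simp

lemma time_fin {e : ℝ} (he : 1 < e) : ∫⁻ u : ℝ, ENNReal.ofReal ((1 + |u|) ^ (-e)) ≠ ∞ := by
  have h := integrable_one_add_norm (E := ℝ) (μ := volume) (r := e) (by simpa using he)
  exact h.lintegral_lt_top.ne

end Pool.Agent.U562.HD
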