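import Pool.Agent.U562.HD.Pol
set_option autoImplicit false

/-! Gradient bound for polynomials on all discs. -/

open MeasureTheory Set Metric
open scoped ENNReal NNReal

namespace Pool.Agent.U562.HD

lemma pol_cont2 {k : ℕ} : Continuous fun q : (Fin (k + 1) → Fin (k + 1) → ℂ) × P2 => pol q.1 q.2 := by
  unfold pol
  fun_prop

lemma pol_smul {k : ℕ} (a : ℝ) (c : Fin (k + 1) → Fin (k + 1) → ℂ) (y : P2) :
    pol (a • c) y = (a : ℂ) * pol c y := by
  unfold pol
  rw [Finset.mul_sum]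
  refine Finset.sum_congr rfl fun i _ => ?_
  rw [Finset.mul_sum]
  refine Finset.sum_congr rfl fun j _ => ?_
  simp only [Pi.smul_apply, Complex.real_smul]
  ring

/-- the `L¹` norm on the half disc -/
noncomputable def Ph {k : ℕ} (c : Fin (k + 1) → Fin (k + 1) → ℂ) : ℝ :=
  ∫ y in closedBall (0 : P2) (1 / 2), ‖pol c y‖

lemma Ph_cont {k : ℕ} : Continuous (Ph : (Fin (k + 1) → Fin (k + 1) → ℂ) → ℝ) := by
  unfold Ph
  exact continuous_parametric_integral_of_continuous pol_cont2.norm (isCompact_closedBall _ _)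

lemma Ph_nonneg {k : ℕ} (c : Fin (k + 1) → Fin (k + 1) → ℂ) : 0 ≤ Ph c :=
  integral_nonneg fun _ => norm_nonneg _

lemma Ph_pos {k : ℕ} {c : Fin (k + 1) → Fin (k + 1) → ℂ} (hc : c ≠ 0) : 0 < Ph c := by
  rcases (Ph_nonneg c).eq_or_lt with h | h
  · exfalso
    apply hc
    have hint : IntegrableOn (fun y : P2 => ‖pol c y‖) (closedBall (0 : P2) (1 / 2)) :=
      ((pol_cont c).norm.continuousOn).integrableOn_compact (isCompact_closedBall _ _)
    have h1 := (setIntegral_eq_zero_iff_of_nonneg_ae (Filter.Eventually.of_forall fun y =>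
      norm_nonneg _) hint).mp h.symm
    have h2 : (fun y : P2 => ‖pol c y‖) =ᵐ[volume.restrict (ball (0 : P2) (1 / 2))] 0 :=
      ae_restrict_of_ae_restrict_of_subset ball_subset_closedBall h1
    have h3 : EqOn (fun y : P2 => ‖pol c y‖) 0 (ball (0 : P2) (1 / 2)) :=
      Measure.eqOn_open_of_ae_eq h2 isOpen_ball (pol_cont c).norm.continuousOn continuousOn_const
    obtain ⟨c', hc'⟩ := pol_shift c 0 (1 / 2)
    have h4 : c' = 0 := by
      apply pol_zero
      intro y hy
      rw [← hc' y]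
      have h5 : (0 : P2) + (1 / 2 : ℝ) • y ∈ ball (0 : P2) (1 / 2) := by
        rw [zero_add, mem_ball_zero_iff, norm_smul, Real.norm_of_nonneg (by norm_num)]
        rw [mem_ball_zero_iff] at hy
        linarith
      exact norm_eq_zero.mp (h3 h5)
    apply pol_zero
    intro y _
    have h6 := hc' ((2 : ℝ) • y)
    rw [zero_add, smul_smul] at h6
    norm_num at h6
    rw [h6, h4]
    unfold pol
    simp
  · exact h

/-- equivalence of norms -/
lemma Ph_lower (k : ℕ) : ∃ m : ℝ, 0 < m ∧ ∀ c : Fin (k + 1) → Fin (k + 1) → ℂ, m * ‖c‖ ≤ Ph c := by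
  have hS : IsCompact (sphere (0 : Fin (k + 1) → Fin (k + 1) → ℂ) 1) := isCompact_sphere _ _
  have hne : (sphere (0 : Fin (k + 1) → Fin (k + 1) → ℂ) 1).Nonempty :=
    NormedSpace.sphere_nonempty.mpr zero_le_one
  obtain ⟨c₀, hc₀, hmin⟩ := hS.exists_isMinOn hne Ph_cont.continuousOn
  have hc0 : c₀ ≠ 0 := by
    intro h
    rw [h] at hc₀
    simp at hc₀
  refine ⟨Ph c₀, Ph_pos hc0, fun c => ?_⟩
  by_cases hc : c = 0
  · rw [hc, norm_zero, mul_zero]
    exact Ph_nonneg _
  · have hn : 0 < ‖c‖ := norm_pos_iff.mpr hc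
    have h1 : ‖c‖⁻¹ • c ∈ sphere (0 : Fin (k + 1) → Fin (k + 1) → ℂ) 1 := by
      rw [mem_sphere_zero_iff_norm, norm_smul, norm_inv, norm_norm, inv_mul_cancel₀ hn.ne']
    have h2 : Ph c₀ ≤ Ph (‖c‖⁻¹ • c) := hmin h1
    have h3 : Ph (‖c‖⁻¹ • c) = ‖c‖⁻¹ * Ph c := by
      unfold Ph
      rw [← integral_const_mul]
      refine integral_congr_ae (Filter.Eventually.of_forall fun y => ?_)
      simp only
      rw [pol_smul, norm_mul, Complex.norm_real, norm_inv, norm_norm]
    rw [h3] at h2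
    calc Ph c₀ * ‖c‖ ≤ ‖c‖⁻¹ * Ph c * ‖c‖ := by gcongr
      _ = Ph c := by field_simp

lemma pol_diff {k : ℕ} (c : Fin (k + 1) → Fin (k + 1) → ℂ) : ContDiff ℝ 1 (pol c) := by
  unfold pol
  have h : ∀ n : Fin 2, ContDiff ℝ 1 fun y : P2 => ((y n : ℝ) : ℂ) := fun n =>
    (Complex.ofRealCLM.comp (EuclideanSpace.proj (𝕜 := ℝ) n)).contDiff
  exact ContDiff.sum fun i _ => ContDiff.sum fun j _ =>
    (contDiff_const.mul ((h 0).pow _)).mul ((h 1).pow _)

/-- change of variables -/
lemma scale_int {k : ℕ} (c : Fin (k + 1) → Fin (k + 1) → ℂ) (x : P2) {r : ℝ} (hr : 0 < r) :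
    ∫ y in ball (0 : P2) 1, ‖pol c (x + r • y)‖ = (r ^ 2)⁻¹ * ∫ y in ball x r, ‖pol c y‖ := by
  rw [← integral_indicator measurableSet_ball, ← integral_indicator measurableSet_ball]
  have e1 : ∀ y : P2, (ball (0 : P2) 1).indicator (fun y => ‖pol c (x + r • y)‖) y =
      (ball x r).indicator (fun y => ‖pol c y‖) (x + r • y) := by
    intro y
    have hiff : x + r • y ∈ ball x r ↔ y ∈ ball (0 : P2) 1 := by
      rw [mem_ball, dist_eq_norm, add_sub_cancel_left, norm_smul, Real.norm_of_nonneg hr.le,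
        mem_ball_zero_iff]
      constructor
      · intro h
        by_contra hcon
        push Not at hcon
        nlinarith
      · intro h
        nlinarith
    by_cases hy : y ∈ ball (0 : P2) 1
    · rw [indicator_of_mem hy, indicator_of_mem (hiff.mpr hy)]
    · rw [indicator_of_notMem hy, indicator_of_notMem fun h => hy (hiff.mp h)]
  simp_rw [e1]
  have h1 := Measure.integral_comp_smul (volume : Measure P2)
    (fun z => (ball x r).indicator (fun y => ‖pol c y‖) (x + z)) r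
  rw [h1, integral_add_left_eq_self (fun z => (ball x r).indicator (fun y => ‖pol c y‖) z) x]
  have hn : Module.finrank ℝ P2 = 2 := by simp
  rw [hn, abs_of_pos (by positivity), smul_eq_mul]

theorem pol_bound (k : ℕ) : ∃ N : ℝ, 0 < N ∧ ∀ (c : Fin (k + 1) → Fin (k + 1) → ℂ) (x : P2) (r : ℝ),
    0 < r → ENNReal.ofReal r * ‖fderiv ℝ (pol c) x‖ₑ ≤
      ENNReal.ofReal N * ⨍⁻ y in ball x r, ‖pol c y‖ₑ ∂volume := by
  obtain ⟨m, hm, hlow⟩ := Ph_lower k
  set v : ℝ := (volume (ball (0 : P2) 1)).toReal with hv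
  have hv0 : 0 < v := ENNReal.toReal_pos (measure_ball_pos volume _ one_pos).ne'
    measure_ball_lt_top.ne
  set N0 : ℝ := ((k : ℝ) + 1) * (k + 1) * 2 / m with hN0
  have hN0' : 0 < N0 := by positivity
  refine ⟨N0 * v, by positivity, fun c x r hr => ?_⟩
  obtain ⟨c', hc'⟩ := pol_shift c x r
  have hd : fderiv ℝ (pol c') 0 = r • fderiv ℝ (pol c) x := by
    have e1 : pol c' = fun y : P2 => pol c (x + r • y) := by
      funext y
      rw [hc']
    rw [e1]
    have h1 : HasFDerivAt (fun y : P2 => x + r • y) (r • ContinuousLinearMap.id ℝ P2) 0 :=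
      ((hasFDerivAt_id (0 : P2)).const_smul r).const_add x
    have h2 : HasFDerivAt (pol c) (fderiv ℝ (pol c) x) (x + r • (0 : P2)) := by
      rw [smul_zero, add_zero]
      exact ((pol_diff c).differentiable one_ne_zero x).hasFDerivAt
    have h3 := HasFDerivAt.comp (f := fun y : P2 => x + r • y) (0 : P2) h2 h1
    rw [show (fun y : P2 => pol c (x + r • y)) = pol c ∘ fun y : P2 => x + r • y from rfl, h3.fderiv]
    ext v
    simp
  have hint : IntegrableOn (fun y : P2 => ‖pol c' y‖) (ball (0 : P2) 1) :=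
    (((pol_cont c').norm.continuousOn).integrableOn_compact (isCompact_closedBall (0 : P2) 1)).mono_set
      ball_subset_closedBall
  have hint2 : IntegrableOn (fun y : P2 => ‖pol c y‖) (ball x r) :=
    (((pol_cont c).norm.continuousOn).integrableOn_compact (isCompact_closedBall x r)).mono_set
      ball_subset_closedBall
  have h5 : Ph c' ≤ ∫ y in ball (0 : P2) 1, ‖pol c' y‖ := by
    unfold Ph
    apply setIntegral_mono_set hint
    · exact Filter.Eventually.of_forall fun _ => norm_nonneg _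
    · exact (closedBall_subset_ball (by norm_num)).eventuallyLE
  have h6 : ∫ y in ball (0 : P2) 1, ‖pol c' y‖ = (r ^ 2)⁻¹ * ∫ y in ball x r, ‖pol c y‖ := by
    rw [← scale_int c x hr]
    simp_rw [hc']
  have h7 : r * ‖fderiv ℝ (pol c) x‖ ≤ N0 * ((r ^ 2)⁻¹ * ∫ y in ball x r, ‖pol c y‖) := by
    have e1 : r * ‖fderiv ℝ (pol c) x‖ = ‖fderiv ℝ (pol c') 0‖ := by
      rw [hd, norm_smul, Real.norm_of_nonneg hr.le]
    rw [e1, ← h6]
    refine (pol_grad0 c').trans ?_
    have h8 : ‖c'‖ ≤ (∫ y in ball (0 : P2) 1, ‖pol c' y‖) / m := by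
      rw [le_div_iff₀ hm, mul_comm]
      exact (hlow c').trans h5
    calc ((k : ℝ) + 1) * (k + 1) * (2 * ‖c'‖)
        ≤ ((k : ℝ) + 1) * (k + 1) * (2 * ((∫ y in ball (0 : P2) 1, ‖pol c' y‖) / m)) := by gcongr
      _ = _ := by rw [hN0]; ring
  -- to extended reals
  have hvol : volume (ball x r) = ENNReal.ofReal (r ^ 2 * v) := by
    rw [Measure.addHaar_ball volume x hr.le, ENNReal.ofReal_mul (by positivity), hv,
      ENNReal.ofReal_toReal measure_ball_lt_top.ne]
    have hn : Module.finrank ℝ P2 = 2 := by simp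
    rw [hn]
  rw [setLAverage_eq, hvol]
  have h9 : ∫⁻ y in ball x r, ‖pol c y‖ₑ = ENNReal.ofReal (∫ y in ball x r, ‖pol c y‖) := by
    rw [ofReal_integral_eq_lintegral_ofReal hint2 (Filter.Eventually.of_forall fun _ => norm_nonneg _)]
    refine lintegral_congr fun y => ?_
    rw [ofReal_norm]
  rw [h9, ← ENNReal.ofReal_div_of_pos (by positivity), ← ENNReal.ofReal_mul (by positivity),
    ← ofReal_norm, ← ENNReal.ofReal_mul hr.le]
  apply ENNReal.ofReal_le_ofReal
  refine h7.trans (le_of_eq ?_)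
  field_simp

end Pool.Agent.U562.HD
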