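import Mathlib
import Pool.Agent.U688.WV.Hold
set_option autoImplicit false

/-! The weighted gradient of functions with a reverse Poincaré type inequality off a set. -/

open MeasureTheory Set Metric
open scoped ENNReal NNReal

namespace Pool.Agent.U562.HD

variable {V : Type*} [NormedAddCommGroup V] [InnerProductSpace ℝ V] [FiniteDimensional ℝ V]
  [MeasurableSpace V] [BorelSpace V]

/-- Jensen's inequality for averages over balls -/
lemma avg_jens {p : ℝ} (hp : 1 < p) {F : V → ℝ≥0∞} (hF : Measurable F) (x : V) {r : ℝ} (hr : 0 < r) :
    (⨍⁻ y in ball x r, F y ∂volume) ^ p ≤ ⨍⁻ y in ball x r, F y ^ p ∂volume := by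
  have hp0 : 0 < p := by linarith
  have h1 := Pool.Agent.U688.WV.jens (volume.restrict (ball x r)) p hp (fun _ => 1) F
    aemeasurable_const hF.aemeasurable
  simp only [one_mul, lintegral_const, Measure.restrict_apply_univ] at h1
  have hv0 : volume (ball x r) ≠ 0 := (measure_ball_pos volume x hr).ne'
  have hvt : volume (ball x r) ≠ ∞ := measure_ball_lt_top.ne
  rw [setLAverage_eq, setLAverage_eq]
  set v := volume (ball x r) with hv
  rw [ENNReal.div_rpow_of_nonneg _ _ hp0.le, ENNReal.div_le_iff (by
    rw [Ne, ENNReal.rpow_eq_zero_iff]; simp [hv0, hvt]) (ENNReal.rpow_ne_top_of_nonneg hp0.le hvt)]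
  refine h1.trans (le_of_eq ?_)
  have e1 : v ^ p = v ^ (p - 1) * v := by
    conv_rhs => rw [← ENNReal.rpow_one v, ← ENNReal.rpow_mul, ← ENNReal.rpow_add _ _ hv0 hvt]
    congr 1; ring
  rw [e1, ENNReal.div_eq_inv_mul]
  have e2 : v⁻¹ * (∫⁻ y in ball x r, F y ^ p) * (v ^ (p - 1) * v) =
      (v⁻¹ * v) * (v ^ (p - 1) * ∫⁻ y in ball x r, F y ^ p) := by ring
  rw [e2, ENNReal.inv_mul_cancel hv0 hvt, one_mul]

lemma quasi_lp [Nontrivial V] {p : ℝ} (hp : 1 < p) {K : Set V} {F : V → ℝ≥0∞} (hF : Measurable F) {N : ℝ≥0∞}
    {G : V → ℝ≥0∞} (hG : ∀ x, G x ≤ N * ⨍⁻ y in ball x (infDist x K / 2), F y ∂volume) :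
    ∫⁻ x, G x ^ p ≤ N ^ p * (3 ^ Module.finrank ℝ V * ∫⁻ y, F y ^ p) := by
  have hp0 : 0 < p := by linarith
  have hd : Continuous fun x : V => infDist x K := continuous_infDist_pt K
  set n := Module.finrank ℝ V with hn
  set v : V → ℝ≥0∞ := fun x => volume (ball x (infDist x K / 2)) with hv
  have hve : v = fun x => ENNReal.ofReal ((infDist x K / 2) ^ n) * volume (ball (0 : V) 1) := by
    funext x
    rw [hv]
    simp only
    rw [Measure.addHaar_ball volume x (by have := infDist_nonneg (x := x) (s := K); positivity)]
  have hvm : Measurable v := by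
    rw [hve]
    exact (((hd.measurable.div_const 2).pow_const n).ennreal_ofReal).mul_const _
  set T : Set (V × V) := {q | dist q.2 q.1 < infDist q.1 K / 2} with hT
  have hTm : MeasurableSet T := by
    apply IsOpen.measurableSet
    exact isOpen_lt (continuous_snd.dist continuous_fst) ((hd.comp continuous_fst).div_const 2)
  have h1 : ∀ x, G x ^ p ≤ N ^ p * ∫⁻ y, T.indicator (fun q => F q.2 ^ p / v q.1) (x, y) := by
    intro x
    rcases (infDist_nonneg (x := x) (s := K)).eq_or_lt with h0 | h0
    · have hG0 : G x = 0 := by
        have := hG x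
        rw [← h0] at this
        simpa using this
      rw [hG0, ENNReal.zero_rpow_of_pos hp0]
      exact bot_le
    · calc G x ^ p ≤ (N * ⨍⁻ y in ball x (infDist x K / 2), F y ∂volume) ^ p := by
            gcongr
            exact hG x
        _ = N ^ p * (⨍⁻ y in ball x (infDist x K / 2), F y ∂volume) ^ p :=
            ENNReal.mul_rpow_of_nonneg _ _ hp0.le
        _ ≤ N ^ p * ⨍⁻ y in ball x (infDist x K / 2), F y ^ p ∂volume := by
            gcongr
            exact avg_jens hp hF x (by positivity)
        _ = _ := by
            congr 1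
            rw [setLAverage_eq, ← lintegral_indicator measurableSet_ball, ENNReal.div_eq_inv_mul,
              ← lintegral_const_mul' _ _ (ENNReal.inv_ne_top.mpr
                (measure_ball_pos volume x (by positivity)).ne')]
            refine lintegral_congr fun y => ?_
            by_cases hy : y ∈ ball x (infDist x K / 2)
            · have hq : (x, y) ∈ T := hy
              rw [indicator_of_mem hy, indicator_of_mem hq, ENNReal.div_eq_inv_mul]
            · have hq : (x, y) ∉ T := hy
              rw [indicator_of_notMem hy, indicator_of_notMem hq, mul_zero]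
  have h2 : ∀ y, ∫⁻ x, T.indicator (fun q => F q.2 ^ p / v q.1) (x, y) ≤ 3 ^ n * F y ^ p := by
    intro y
    set d := infDist y K with hdy
    have hlip : ∀ x : V, |infDist x K - d| ≤ dist x y := fun x => by
      rw [hdy]
      have := (lipschitz_infDist_pt K).dist_le_mul x y
      rw [NNReal.coe_one, one_mul, Real.dist_eq] at this
      exact this
    rcases (infDist_nonneg (x := y) (s := K)).eq_or_lt with h0 | h0
    · have : ∀ x, T.indicator (fun q => F q.2 ^ p / v q.1) (x, y) = 0 := by
        intro x
        apply indicator_of_notMem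
        intro hq
        have hq' : dist y x < infDist x K / 2 := hq
        have h3 := hlip x
        rw [hdy, ← h0, sub_zero, abs_of_nonneg infDist_nonneg, dist_comm] at h3
        linarith [dist_nonneg (x := y) (y := x)]
      simp [this]
    · have hd0 : 0 < d := h0
      set w : ℝ≥0∞ := volume (ball (0 : V) (d / 3)) with hw
      have hw0 : w ≠ 0 := (measure_ball_pos volume _ (by positivity)).ne'
      have hwt : w ≠ ∞ := measure_ball_lt_top.ne
      calc ∫⁻ x, T.indicator (fun q => F q.2 ^ p / v q.1) (x, y)
          ≤ ∫⁻ x, (ball y d).indicator (fun _ => F y ^ p / w) x := by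
            refine lintegral_mono fun x => ?_
            by_cases hq : (x, y) ∈ T
            · have hq' : dist y x < infDist x K / 2 := hq
              have h3 := abs_le.mp (hlip x)
              rw [dist_comm x y] at h3
              have h4 : x ∈ ball y d := by
                rw [mem_ball, dist_comm]
                linarith [h3.2]
              rw [indicator_of_mem hq, indicator_of_mem h4]
              apply ENNReal.div_le_div_left
              rw [hw, hv]
              simp only
              rw [Measure.addHaar_ball_center volume x (infDist x K / 2)]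
              apply measure_mono
              apply ball_subset_ball
              linarith [h3.1]
            · rw [indicator_of_notMem hq]
              exact bot_le
        _ = F y ^ p / w * volume (ball y d) := by
            rw [lintegral_indicator measurableSet_ball, setLIntegral_const]
        _ = 3 ^ n * F y ^ p := by
            have e1 : volume (ball y d) = 3 ^ n * w := by
              rw [hw, Measure.addHaar_ball volume y hd0.le,
                Measure.addHaar_ball volume (0 : V) (r := d / 3) (by positivity), ← mul_assoc]
              congr 1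
              have : ((3 : ℝ≥0∞)) ^ n = ENNReal.ofReal (3 ^ n) := by
                rw [ENNReal.ofReal_pow (by norm_num), ENNReal.ofReal_ofNat]
              have h3 : (3 : ℝ) * (d / 3) = d := by ring
              rw [this, ← ENNReal.ofReal_mul (by positivity), ← mul_pow, h3]
            rw [e1, ENNReal.div_eq_inv_mul]
            have e2 : w⁻¹ * F y ^ p * (3 ^ n * w) = (w⁻¹ * w) * (3 ^ n * F y ^ p) := by ring
            rw [e2, ENNReal.inv_mul_cancel hw0 hwt, one_mul]
  have hm : Measurable (T.indicator fun q : V × V => F q.2 ^ p / v q.1) :=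
    (((hF.comp measurable_snd).pow_const p).div (hvm.comp measurable_fst)).indicator hTm
  calc ∫⁻ x, G x ^ p ≤ ∫⁻ x, N ^ p * ∫⁻ y, T.indicator (fun q => F q.2 ^ p / v q.1) (x, y) :=
        lintegral_mono h1
    _ = N ^ p * ∫⁻ x, ∫⁻ y, T.indicator (fun q => F q.2 ^ p / v q.1) (x, y) :=
        lintegral_const_mul _ hm.lintegral_prod_right'
    _ = N ^ p * ∫⁻ y, ∫⁻ x, T.indicator (fun q => F q.2 ^ p / v q.1) (x, y) := by
        rw [lintegral_lintegral_swap (f := fun x y => T.indicator (fun q => F q.2 ^ p / v q.1) (x, y))
          hm.aemeasurable]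
    _ ≤ N ^ p * ∫⁻ y, 3 ^ n * F y ^ p := by
        gcongr with y
        exact h2 y
    _ = _ := by rw [lintegral_const_mul _ (hF.pow_const p)]

end Pool.Agent.U562.HD
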