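import Pool.Agent.U562.HD.E3
import Pool.Agent.U562.HD.Quasi
import Pool.Agent.U562.HD.Pol2
set_option autoImplicit false

/-! Quasi-harmonic functions and piecewise polynomials off a thin set. -/

open MeasureTheory Set Metric
open scoped ENNReal NNReal

namespace Pool.Agent.U562.HD

variable {V : Type*} [NormedAddCommGroup V] [InnerProductSpace ℝ V] [FiniteDimensional ℝ V]
  [MeasurableSpace V] [BorelSpace V]

lemma quasi_norm [Nontrivial V] {U S : Set V} (hU : IsOpen U) (hS : IsClosed S)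
    (hS0 : volume S = 0) {f : V → ℂ} (hf : ContDiffOn ℝ 1 f (U \ S)) {p : ℝ} (hp : 1 < p) {N : ℝ}
    (hq : ∀ x ∈ U \ S, ENNReal.ofReal (infDist x (frontier U ∪ S)) * ‖fderiv ℝ f x‖ₑ ≤
      ENNReal.ofReal N * ⨍⁻ y in ball x (infDist x (frontier U ∪ S) / 2), ‖f y‖ₑ ∂volume) :
    ∫⁻ x in U, ‖infDist x (frontier U ∪ S) * ‖fderiv ℝ f x‖‖ₑ ^ p ≤
      ENNReal.ofReal N ^ p * (3 ^ Module.finrank ℝ V * ∫⁻ x in U, ‖f x‖ₑ ^ p) := by
  have hp0 : 0 < p := by linarith
  set K := frontier U ∪ S with hK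
  have hW : IsOpen (U \ S) := hU.sdiff hS
  set G : V → ℝ≥0∞ := (U \ S).indicator fun x => ENNReal.ofReal (infDist x K) * ‖fderiv ℝ f x‖ₑ
    with hG
  set F : V → ℝ≥0∞ := (U \ S).indicator fun x => ‖f x‖ₑ with hF
  have hFm : Measurable F := by
    classical
    have h1 : Measurable ((U \ S).indicator f) := by
      have := hf.continuousOn.measurable_piecewise (g := (0 : V → ℂ)) continuousOn_const
        hW.measurableSet
      rwa [piecewise_eq_indicator] at this
    have h2 : F = fun x => ‖(U \ S).indicator f x‖ₑ := by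
      funext x
      rw [hF]
      by_cases hx : x ∈ U \ S
      · rw [indicator_of_mem hx, indicator_of_mem hx]
      · rw [indicator_of_notMem hx, indicator_of_notMem hx, enorm_zero]
    rw [h2]
    exact h1.enorm
  have hGF : ∀ x, G x ≤ ENNReal.ofReal N * ⨍⁻ y in ball x (infDist x K / 2), F y ∂volume := by
    intro x
    by_cases hx : x ∈ U \ S
    · rw [hG, indicator_of_mem hx]
      rcases (infDist_nonneg (x := x) (s := K)).eq_or_lt with h0 | h0
      · rw [← h0, ENNReal.ofReal_zero, zero_mul]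
        exact bot_le
      · refine (hq x hx).trans (le_of_eq ?_)
        congr 1
        rw [setLAverage_eq, setLAverage_eq]
        congr 1
        refine setLIntegral_congr_fun measurableSet_ball fun y hy => ?_
        have hlt : infDist x K / 2 < infDist x K := half_lt_self h0
        rcases geo hU (half_pos h0) hlt with ⟨h1, h2⟩ | ⟨h1, h2⟩
        · rw [hF, indicator_of_mem (h2 (ball_subset_closedBall hy))]
        · exact absurd hx.1 h1
    · rw [hG, indicator_of_notMem hx]
      exact bot_le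
  have h1 := quasi_lp hp hFm hGF
  have hae : (U \ S : Set V) =ᵐ[volume] U := diff_null_ae_eq_self hS0
  have e1 : ∫⁻ x in U, ‖infDist x K * ‖fderiv ℝ f x‖‖ₑ ^ p = ∫⁻ x, G x ^ p := by
    have e2 : ∀ x, G x ^ p = (U \ S).indicator (fun x => ‖infDist x K * ‖fderiv ℝ f x‖‖ₑ ^ p) x := by
      intro x
      by_cases hx : x ∈ U \ S
      · rw [hG, indicator_of_mem hx, indicator_of_mem hx, enorm_mul, enorm_norm,
          ← ofReal_norm (infDist x K), Real.norm_of_nonneg infDist_nonneg]
      · rw [hG, indicator_of_notMem hx, indicator_of_notMem hx, ENNReal.zero_rpow_of_pos hp0]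
    simp_rw [e2]
    rw [lintegral_indicator hW.measurableSet, Measure.restrict_congr_set hae]
  have e3 : ∫⁻ x, F x ^ p ≤ ∫⁻ x in U, ‖f x‖ₑ ^ p := by
    have e2 : ∀ x, F x ^ p = (U \ S).indicator (fun x => ‖f x‖ₑ ^ p) x := by
      intro x
      by_cases hx : x ∈ U \ S
      · rw [hF, indicator_of_mem hx, indicator_of_mem hx]
      · rw [hF, indicator_of_notMem hx, indicator_of_notMem hx, ENNReal.zero_rpow_of_pos hp0]
    simp_rw [e2]
    rw [lintegral_indicator hW.measurableSet]
    exact lintegral_mono_set diff_subset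
  rw [e1]
  refine h1.trans ?_
  gcongr

/-- piecewise polynomials (of degree at most `k` in each variable) -/
def PPol (k : ℕ) (W : Set P2) (f : P2 → ℂ) : Prop :=
  ∀ x r, 0 < r → ball x r ⊆ W → ∃ c : Fin (k + 1) → Fin (k + 1) → ℂ, ∀ y ∈ ball x r, f y = pol c y

lemma ppol_c1 {k : ℕ} {W : Set P2} (hW : IsOpen W) {f : P2 → ℂ} (hf : PPol k W f) :
    ContDiffOn ℝ 1 f W := by
  intro x hx
  obtain ⟨r, hr, hrW⟩ := Metric.isOpen_iff.mp hW x hx
  obtain ⟨c, hc⟩ := hf x r hr hrW
  have h1 : ContDiffAt ℝ 1 f x := by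
    refine (pol_diff c).contDiffAt.congr_of_eventuallyEq ?_
    filter_upwards [ball_mem_nhds x hr] with y hy using hc y hy
  exact h1.contDiffWithinAt

theorem ppol_quasi (k : ℕ) : ∃ N : ℝ, 0 < N ∧ ∀ (U S : Set P2) (f : P2 → ℂ), IsOpen U →
    PPol k (U \ S) f → ∀ x ∈ U \ S,
      ENNReal.ofReal (infDist x (frontier U ∪ S)) * ‖fderiv ℝ f x‖ₑ ≤
      ENNReal.ofReal N * ⨍⁻ y in ball x (infDist x (frontier U ∪ S) / 2), ‖f y‖ₑ ∂volume := by
  obtain ⟨N, hN, h⟩ := pol_bound k
  refine ⟨2 * N, by positivity, fun U S f hU hf x hx => ?_⟩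
  set K := frontier U ∪ S with hK
  rcases (infDist_nonneg (x := x) (s := K)).eq_or_lt with h0 | h0
  · rw [← h0, ENNReal.ofReal_zero, zero_mul]
    exact bot_le
  · set r := infDist x K / 2 with hr
    have hr0 : 0 < r := by rw [hr]; linarith
    have hsub : ball x r ⊆ U \ S := by
      rcases geo hU hr0 (show r < infDist x K by rw [hr]; linarith) with ⟨h1, h2⟩ | ⟨h1, h2⟩
      · exact ball_subset_closedBall.trans h2
      · exact absurd hx.1 h1
    obtain ⟨c, hc⟩ := hf x r hr0 hsub
    have hfd : fderiv ℝ f x = fderiv ℝ (pol c) x := by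
      apply Filter.EventuallyEq.fderiv_eq
      filter_upwards [ball_mem_nhds x hr0] with y hy using hc y hy
    have hav : ⨍⁻ y in ball x r, ‖f y‖ₑ ∂volume = ⨍⁻ y in ball x r, ‖pol c y‖ₑ ∂volume := by
      rw [setLAverage_eq, setLAverage_eq]
      congr 1
      refine setLIntegral_congr_fun measurableSet_ball fun y hy => ?_
      rw [hc y hy]
    have h2r : infDist x K = 2 * r := by rw [hr]; ring
    rw [hfd, hav, h2r, ENNReal.ofReal_mul (by norm_num), ENNReal.ofReal_mul (by norm_num), mul_assoc,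
      mul_assoc]
    exact mul_le_mul_right (h c x r hr0) _

end Pool.Agent.U562.HD
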