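import Pool.Agent.U562.HD.Old
import Pool.Agent.U562.HD.Quasi2
set_option autoImplicit false

/-! The extension estimate for quasi-harmonic densities and for piecewise polynomials. -/

open MeasureTheory Set Metric
open scoped ENNReal NNReal

namespace Pool.Agent.U562.HD.Old

/-- the reverse Poincaré type inequality with the constant `N` off `K` -/
def Quasi (N : ℝ) (K W : Set (E 2)) (f : E 2 → ℂ) : Prop :=
  ∀ x ∈ W, ENNReal.ofReal (infDist x K) * ‖fderiv ℝ f x‖ₑ ≤
    ENNReal.ofReal N * ⨍⁻ y in ball x (infDist x K / 2), ‖f y‖ₑ ∂volume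

theorem new_two (q p A : ℝ) (hq : 3 < q) (hp : 2 < p) (hqp : q / (q - 2) < p) (hpq : p ≤ q)
    (hA : 0 ≤ A) : ∃ C : ℝ≥0, ∀ U S : Set (E 2), IsOpen U → U ⊆ ball 0 1 → IsClosed S →
      Thin A (frontier U ∪ S) → ∀ (η : E 3) (f : E 2 → ℂ),
        (ContDiffOn ℝ 1 f (U \ S) →
          eLpNorm (ext U fun x => chr η x * f x) (ENNReal.ofReal q) volume ≤
            C * (eLpNorm f (ENNReal.ofReal p) (volume.restrict U) +
              eLpNorm (fun x => infDist x (frontier U ∪ S) * ‖fderiv ℝ f x‖) (ENNReal.ofReal p)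
                (volume.restrict U))) ∧
        (Measurable f → MeanValue (U \ S) f →
          eLpNorm (ext U fun x => chr η x * f x) (ENNReal.ofReal q) volume ≤
            C * eLpNorm f (ENNReal.ofReal p) (volume.restrict U)) ∧
        ∀ N : ℝ, 0 ≤ N → ContDiffOn ℝ 1 f (U \ S) → Quasi N (frontier U ∪ S) (U \ S) f →
          eLpNorm (ext U fun x => chr η x * f x) (ENNReal.ofReal q) volume ≤
            ENNReal.ofReal (1 + N) * (C * eLpNorm f (ENNReal.ofReal p) (volume.restrict U)) := by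
  have hp0 : 0 < p := by linarith
  obtain ⟨C, hC⟩ := result.2 q p A hq hp hqp hpq hA
  refine ⟨9 * C, fun U S hU hU1 hS hK η f => ?_⟩
  obtain ⟨h1, h2⟩ := hC U S hU hU1 hS hK η f
  have hC9 : (C : ℝ≥0∞) ≤ ((9 * C : ℝ≥0) : ℝ≥0∞) := by
    rw [ENNReal.coe_le_coe]
    calc C = 1 * C := (one_mul C).symm
      _ ≤ 9 * C := by gcongr; norm_num
  refine ⟨fun hf => (h1 hf).trans (mul_le_mul_left hC9 _),
    fun hf hm => (h2 hf hm).trans (mul_le_mul_left hC9 _), fun N hN hf hq => ?_⟩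
  have hS0 : volume S = 0 :=
    measure_mono_null subset_union_right (Pool.Agent.U562.HD.thin_null hA hK)
  have h3 := Pool.Agent.U562.HD.quasi_norm hU hS hS0 hf (p := p) (by linarith) hq
  have hn : Module.finrank ℝ (E 2) = 2 := by simp
  rw [hn] at h3
  have h4 : eLpNorm (fun x => infDist x (frontier U ∪ S) * ‖fderiv ℝ f x‖) (ENNReal.ofReal p)
      (volume.restrict U) ≤ ENNReal.ofReal N * (9 * eLpNorm f (ENNReal.ofReal p)
        (volume.restrict U)) := by
    rw [eLpNorm_eq_lintegral_rpow_enorm_toReal (by simpa using hp0) ENNReal.ofReal_ne_top,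
      eLpNorm_eq_lintegral_rpow_enorm_toReal (by simpa using hp0) ENNReal.ofReal_ne_top,
      ENNReal.toReal_ofReal hp0.le]
    have hp1 : 0 ≤ 1 / p := by positivity
    have hp2 : 1 / p ≤ 1 := by rw [div_le_one hp0]; linarith
    calc (∫⁻ x in U, ‖infDist x (frontier U ∪ S) * ‖fderiv ℝ f x‖‖ₑ ^ p) ^ (1 / p)
        ≤ (ENNReal.ofReal N ^ p * (3 ^ 2 * ∫⁻ x in U, ‖f x‖ₑ ^ p)) ^ (1 / p) :=
          ENNReal.rpow_le_rpow h3 hp1
      _ = ENNReal.ofReal N * ((9 : ℝ≥0∞) ^ (1 / p) * (∫⁻ x in U, ‖f x‖ₑ ^ p) ^ (1 / p)) := by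
          rw [ENNReal.mul_rpow_of_nonneg _ _ hp1, ENNReal.mul_rpow_of_nonneg _ _ hp1,
            ← ENNReal.rpow_mul, mul_one_div_cancel hp0.ne', ENNReal.rpow_one]
          norm_num
      _ ≤ _ := by
          gcongr
          calc (9 : ℝ≥0∞) ^ (1 / p) ≤ 9 ^ (1 : ℝ) :=
                ENNReal.rpow_le_rpow_of_exponent_le (by norm_num) hp2
            _ = 9 := ENNReal.rpow_one _
  calc eLpNorm (ext U fun x => chr η x * f x) (ENNReal.ofReal q) volume
      ≤ C * (eLpNorm f (ENNReal.ofReal p) (volume.restrict U) +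
        ENNReal.ofReal N * (9 * eLpNorm f (ENNReal.ofReal p) (volume.restrict U))) :=
        (h1 hf).trans (mul_le_mul_right (add_le_add le_rfl h4) _)
    _ ≤ C * (9 * eLpNorm f (ENNReal.ofReal p) (volume.restrict U) +
        ENNReal.ofReal N * (9 * eLpNorm f (ENNReal.ofReal p) (volume.restrict U))) := by
        gcongr
        calc eLpNorm f (ENNReal.ofReal p) (volume.restrict U)
            = 1 * eLpNorm f (ENNReal.ofReal p) (volume.restrict U) := (one_mul _).symm
          _ ≤ _ := by gcongr; norm_num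
    _ = _ := by
        rw [ENNReal.ofReal_add zero_le_one hN, ENNReal.ofReal_one, ENNReal.coe_mul]
        push_cast
        ring

/-- piecewise polynomials -/
theorem new_three (q p A : ℝ) (k : ℕ) (hq : 3 < q) (hp : 2 < p) (hqp : q / (q - 2) < p)
    (hpq : p ≤ q) (hA : 0 ≤ A) : ∃ C : ℝ≥0, ∀ U S : Set (E 2), IsOpen U → U ⊆ ball 0 1 →
      IsClosed S → Thin A (frontier U ∪ S) → ∀ (η : E 3) (f : E 2 → ℂ), PPol k (U \ S) f →
        eLpNorm (ext U fun x => chr η x * f x) (ENNReal.ofReal q) volume ≤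
          C * eLpNorm f (ENNReal.ofReal p) (volume.restrict U) := by
  obtain ⟨C, hC⟩ := new_two q p A hq hp hqp hpq hA
  obtain ⟨N, hN, h⟩ := ppol_quasi k
  refine ⟨(1 + N).toNNReal * C, fun U S hU hU1 hS hK η f hf => ?_⟩
  have h1 := (hC U S hU hU1 hS hK η f).2.2 N hN.le (ppol_c1 (hU.sdiff hS) hf) (h U S f hU hf)
  refine h1.trans (le_of_eq ?_)
  rw [ENNReal.coe_mul, mul_assoc]
  rfl

end Pool.Agent.U562.HD.Old
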