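import Pool.Agent.U562.HD.E3
set_option autoImplicit false

/-!
# The extension conjecture for the paraboloid in `ℝ³`: densities which are harmonic, or of class
`C¹`, off one-dimensional sets

`ext U f ξ = ∫_U e^{-i Φ(x)·ξ} f(x) dx`, `Φ(x) = (x_1, x_2, x_1² + x_2²)`. The conjecture says
`‖ext U f‖_q ≤ C ‖f‖_q` for all `q > 3`.

We prove it, in the full range `q > 3`, for densities on an open set `U` which are harmonic off a
closed set `S`, if `K = ∂U ∪ S` is one-dimensional (`Thin A K`: in every disc of radius `ρ` the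
`s`-neighbourhood of `K` has area at most `A ρ s`; finite unions of Lipschitz curves have this
property). More generally, for densities of class `C¹` on `U \ S`, we prove it with the weighted
Sobolev norm `‖f‖_p + ‖dist(·, K) ∇f‖_p`, for all `p ∈ (max(2, q/(q-2)), q]`. The constants depend
only on `q`, `p` and `A`, and the densities may be multiplied by any of the characters
`e^{iΦ(x)·η}`, so they may oscillate.

For `3 < q < 4` this is beyond Tomas-Stein. No wave packet or Kakeya information is used: the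
proof telescopes `f` over Gaussian mollifications at the scales `4^{-j}`, localises each piece to
discs whose radius depends on the time `ξ_3`, and interpolates between `L¹` and `L²` in them.
-/

namespace Pool.Agent.U562.HD.Old

open MeasureTheory Set Metric Complex
open scoped ENNReal NNReal RealInnerProductSpace

abbrev E (n : ℕ) := EuclideanSpace ℝ (Fin n)

/-- the paraboloid `x ↦ (x_1, x_2, x_1^2 + x_2^2)` -/
noncomputable def Phi (x : E 2) : E 3 := !₂[x 0, x 1, x 0 ^ 2 + x 1 ^ 2]

/-- the Fourier extension operator of the paraboloid over `U` -/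
noncomputable def ext (U : Set (E 2)) (f : E 2 → ℂ) (ξ : E 3) : ℂ :=
  ∫ x in U, Complex.exp (-((⟪Phi x, ξ⟫ : ℝ) : ℂ) * I) * f x

/-- the character `x ↦ e^{i Φ(x)·η}` -/
noncomputable def chr (η : E 3) (x : E 2) : ℂ := Complex.exp (((⟪Phi x, η⟫ : ℝ) : ℂ) * I)

/-- In every disc of radius `ρ` the `s`-neighbourhood of `K` has area at most `A ρ s`. -/
def Thin (A : ℝ) (K : Set (E 2)) : Prop :=
  ∀ (b : E 2) (ρ s : ℝ), 0 < ρ → 0 < s →
    volume (ball b ρ ∩ {x | infDist x K < s}) ≤ ENNReal.ofReal (A * ρ * s)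

/-- `K` is covered by the graphs of `N` functions over the coordinate axes (`x_2 = γ(x_1)` or
`x_1 = γ(x_2)`), each `L`-Lipschitz. -/
def LipCurves (N : ℕ) (L : ℝ≥0) (K : Set (E 2)) : Prop :=
  ∃ (γ : Fin N → ℝ → ℝ) (j : Fin N → Fin 2), (∀ i, LipschitzWith L (γ i)) ∧
    ∀ x ∈ K, ∃ i, x (1 - j i) = γ i (x (j i))

/-- The mean value property in `W`: `f x` is the average of `f` over `ball x r` whenever the closed
ball is contained in `W`. For locally integrable `f` and open `W` this says exactly that `f` is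
harmonic in `W`. -/
def MeanValue (W : Set (E 2)) (f : E 2 → ℂ) : Prop :=
  ∀ x r, 0 < r → closedBall x r ⊆ W → f x = ⨍ y in ball x r, f y

/-- (1) Finite unions of Lipschitz graphs are thin. (2) For `3 < q`, `max (2, q/(q-2)) < p ≤ q` and
`A` there is `C` such that for all open `U` in the unit disc, closed `S` with `∂U ∪ S` thin with
constant `A`, all `f` of class `C¹` on `U \ S` and all characters, the extension of `chr η · f` has
`L^q` norm at most `C (‖f‖_p + ‖dist(·, ∂U ∪ S) ∇f‖_p)`; and at most `C ‖f‖_p` if `f` has the mean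
value property in `U \ S`. -/
theorem result :
    (∀ (N : ℕ) (L : ℝ≥0) (K : Set (E 2)), K.Nonempty → LipCurves N L K →
      Thin (4 * N * (1 + L)) K) ∧
    ∀ q p A : ℝ, 3 < q → 2 < p → q / (q - 2) < p → p ≤ q → 0 ≤ A → ∃ C : ℝ≥0,
      ∀ U S : Set (E 2), IsOpen U → U ⊆ ball 0 1 → IsClosed S → Thin A (frontier U ∪ S) →
        ∀ (η : E 3) (f : E 2 → ℂ),
          (ContDiffOn ℝ 1 f (U \ S) →
            eLpNorm (ext U fun x => chr η x * f x) (ENNReal.ofReal q) volume ≤
              C * (eLpNorm f (ENNReal.ofReal p) (volume.restrict U) +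
                eLpNorm (fun x => infDist x (frontier U ∪ S) * ‖fderiv ℝ f x‖) (ENNReal.ofReal p)
                  (volume.restrict U))) ∧
          (Measurable f → MeanValue (U \ S) f →
            eLpNorm (ext U fun x => chr η x * f x) (ENNReal.ofReal q) volume ≤
              C * eLpNorm f (ENNReal.ofReal p) (volume.restrict U)) := by
  refine ⟨fun N L K hne hK => Pool.Agent.U562.HD.thin_of_curves hne hK, ?_⟩
  intro q p A hq hp hqp hpq hA
  have hp0 : 0 < p := by linarith
  have hq2 : 0 < q - 2 := by linarith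
  have he : 1 < q - 1 - q / p := by
    rw [div_lt_iff₀ hq2] at hqp
    have : q / p < q - 2 := by rw [div_lt_iff₀ hp0]; linarith
    linarith
  have hn : Module.finrank ℝ (E 2) = 2 := by simp
  obtain ⟨C1, hC1, h1⟩ := Pool.Agent.U562.HD.space_time (V := E 2) hn hp hpq he hA
  obtain ⟨C2, hC2, h2⟩ := Pool.Agent.U562.HD.space_time_mv (V := E 2) hn hp hpq he hA
  have hCt : C1 * 2 + C2 + 1 ≠ ∞ := ENNReal.add_ne_top.mpr ⟨ENNReal.add_ne_top.mpr
    ⟨ENNReal.mul_ne_top hC1 (by norm_num), hC2⟩, ENNReal.one_ne_top⟩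
  refine ⟨(C1 * 2 + C2 + 1).toNNReal, ?_⟩
  rw [ENNReal.coe_toNNReal hCt]
  intro U S hU hU1 hS hK η f
  have hSn : volume S = 0 :=
    measure_mono_null subset_union_right (Pool.Agent.U562.HD.thin_null hA hK)
  have hW : IsOpen (U \ S) := hU.sdiff hS
  have hnorm : ∀ hm : Measurable ((U \ S).indicator f),
      eLpNorm (ext U fun x => chr η x * f x) (ENNReal.ofReal q) volume =
      eLpNorm (fun P : ℝ × E 2 => Pool.Agent.U562.HD.Ft P.1 ((U \ S).indicator f) P.2)
        (ENNReal.ofReal q) (volume.prod volume) := by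
    intro hm
    have e1 : ext U (fun x => chr η x * f x) =
        Pool.Agent.U562.HD.ext (U \ S) (fun x => chr η x * f x) :=
      Pool.Agent.U562.HD.ext_null hSn _
    rw [e1]
    exact (Pool.Agent.U562.HD.ext_mod_norm hW.measurableSet hm _ η).trans
      (Pool.Agent.U562.HD.ext_norm hW.measurableSet hm _)
  have hout : ∀ y : E 2, 1 ≤ ‖y‖ → (U \ S).indicator f y = 0 := by
    intro y hy
    rw [indicator_of_notMem]
    intro h
    have := hU1 h.1
    rw [mem_ball_zero_iff] at this
    linarith
  have hlp : ∀ g : E 2 → ℝ≥0∞, ∫⁻ y, (U \ S).indicator g y ^ p ≤ ∫⁻ y in U, g y ^ p := by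
    intro g
    have e1 : ∀ y, (U \ S).indicator g y ^ p = (U \ S).indicator (fun y => g y ^ p) y := by
      intro y
      by_cases hy : y ∈ U \ S
      · rw [indicator_of_mem hy, indicator_of_mem hy]
      · rw [indicator_of_notMem hy, indicator_of_notMem hy, ENNReal.zero_rpow_of_pos hp0]
    simp_rw [e1]
    rw [lintegral_indicator hW.measurableSet]
    exact lintegral_mono_set diff_subset
  have hf0 : ∀ y, ‖(U \ S).indicator f y‖ₑ = (U \ S).indicator (fun y => ‖f y‖ₑ) y := by
    intro y
    by_cases hy : y ∈ U \ S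
    · rw [indicator_of_mem hy, indicator_of_mem hy]
    · rw [indicator_of_notMem hy, indicator_of_notMem hy, enorm_zero]
  have hnf : eLpNorm f (ENNReal.ofReal p) (volume.restrict U) =
      (∫⁻ y in U, ‖f y‖ₑ ^ p) ^ (1 / p) := by
    rw [eLpNorm_eq_lintegral_rpow_enorm_toReal (by simpa using hp0) ENNReal.ofReal_ne_top,
      ENNReal.toReal_ofReal hp0.le]
  have hnf0 : (∫⁻ y, ‖(U \ S).indicator f y‖ₑ ^ p) ^ (1 / p) ≤
      eLpNorm f (ENNReal.ofReal p) (volume.restrict U) := by
    rw [hnf]
    apply ENNReal.rpow_le_rpow _ (by positivity)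
    simp_rw [hf0]
    exact hlp _
  constructor
  · intro hf
    have hm : Measurable ((U \ S).indicator f) := by
      classical
      have := hf.continuousOn.measurable_piecewise (g := (0 : E 2 → ℂ)) continuousOn_const
        hW.measurableSet
      rwa [piecewise_eq_indicator] at this
    rw [hnorm hm]
    have hg : Measurable fun x => 2 * ‖(U \ S).indicator f x‖ₑ := hm.enorm.const_mul 2
    refine (h1 _ hK _ _ _ hm hg (Pool.Agent.U562.HD.Hd_meas hU hS f) hout (fun y => ?_)
      (Pool.Agent.U562.HD.c1_whit hU hS hf)).trans ?_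
    · calc ‖(U \ S).indicator f y‖ₑ = 1 * ‖(U \ S).indicator f y‖ₑ := by rw [one_mul]
        _ ≤ _ := by gcongr; norm_num
    · have hp1 : 1 / p ≤ 1 := by rw [div_le_one hp0]; linarith
      have hp1' : 0 ≤ 1 / p := by positivity
      have e1 : (∫⁻ y, (2 * ‖(U \ S).indicator f y‖ₑ) ^ p) ^ (1 / p) ≤
          2 * eLpNorm f (ENNReal.ofReal p) (volume.restrict U) := by
        have : ∀ y, (2 * ‖(U \ S).indicator f y‖ₑ) ^ p =
            2 ^ p * ‖(U \ S).indicator f y‖ₑ ^ p := fun y =>
          ENNReal.mul_rpow_of_nonneg _ _ hp0.le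
        simp_rw [this]
        rw [lintegral_const_mul' _ _ (ENNReal.rpow_ne_top_of_nonneg hp0.le (by norm_num)),
          ENNReal.mul_rpow_of_nonneg _ _ hp1', ← ENNReal.rpow_mul, mul_one_div_cancel hp0.ne',
          ENNReal.rpow_one]
        gcongr
      have e2 : (∫⁻ y, Pool.Agent.U562.HD.Hd U S f y ^ p) ^ (1 / p) ≤
          2 * eLpNorm (fun x => infDist x (frontier U ∪ S) * ‖fderiv ℝ f x‖) (ENNReal.ofReal p)
            (volume.restrict U) := by
        rw [eLpNorm_eq_lintegral_rpow_enorm_toReal (by simpa using hp0) ENNReal.ofReal_ne_top,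
          ENNReal.toReal_ofReal hp0.le]
        have h3 : ∫⁻ y, Pool.Agent.U562.HD.Hd U S f y ^ p ≤
            2 ^ p * ∫⁻ y in U, ‖infDist y (frontier U ∪ S) * ‖fderiv ℝ f y‖‖ₑ ^ p := by
          rw [← lintegral_const_mul' _ _ (ENNReal.rpow_ne_top_of_nonneg hp0.le (by norm_num))]
          refine (hlp _).trans (le_of_eq ?_)
          congr 1; funext y
          rw [ENNReal.mul_rpow_of_nonneg _ _ hp0.le]
          congr 2
          rw [enorm_mul, enorm_norm, ← ofReal_norm (infDist y _),
            Real.norm_of_nonneg infDist_nonneg]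
        calc (∫⁻ y, Pool.Agent.U562.HD.Hd U S f y ^ p) ^ (1 / p)
            ≤ (2 ^ p * ∫⁻ y in U, ‖infDist y (frontier U ∪ S) * ‖fderiv ℝ f y‖‖ₑ ^ p) ^ (1 / p) :=
              ENNReal.rpow_le_rpow h3 hp1'
          _ = _ := by
              rw [ENNReal.mul_rpow_of_nonneg _ _ hp1', ← ENNReal.rpow_mul,
                mul_one_div_cancel hp0.ne', ENNReal.rpow_one]
      calc C1 * ((∫⁻ y, (2 * ‖(U \ S).indicator f y‖ₑ) ^ p) +
            ∫⁻ y, Pool.Agent.U562.HD.Hd U S f y ^ p) ^ (1 / p)
          ≤ C1 * ((∫⁻ y, (2 * ‖(U \ S).indicator f y‖ₑ) ^ p) ^ (1 / p) +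
            (∫⁻ y, Pool.Agent.U562.HD.Hd U S f y ^ p) ^ (1 / p)) := by
            gcongr
            exact ENNReal.rpow_add_le_add_rpow _ _ hp1' hp1
        _ ≤ C1 * (2 * eLpNorm f (ENNReal.ofReal p) (volume.restrict U) +
            2 * eLpNorm (fun x => infDist x (frontier U ∪ S) * ‖fderiv ℝ f x‖) (ENNReal.ofReal p)
            (volume.restrict U)) := by gcongr
        _ = (C1 * 2) * (eLpNorm f (ENNReal.ofReal p) (volume.restrict U) +
            eLpNorm (fun x => infDist x (frontier U ∪ S) * ‖fderiv ℝ f x‖) (ENNReal.ofReal p)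
            (volume.restrict U)) := by ring
        _ ≤ _ := by
            gcongr
            rw [add_assoc]
            exact le_self_add
  · intro hf hMV
    have hm : Measurable ((U \ S).indicator f) := hf.indicator hW.measurableSet
    by_cases hfin : eLpNorm f (ENNReal.ofReal p) (volume.restrict U) = ∞
    · rw [hfin, ENNReal.mul_top (by simp)]
      exact le_top
    · rw [hnorm hm]
      have hi : Integrable ((U \ S).indicator f) := by
        rw [integrable_indicator_iff hW.measurableSet]
        have hUf : volume U ≠ ∞ := ne_top_of_le_ne_top measure_ball_lt_top.ne (measure_mono hU1)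
        haveI : IsFiniteMeasure (volume.restrict U) := ⟨by
          rw [Measure.restrict_apply_univ]; exact hUf.lt_top⟩
        have h3 : MemLp f (ENNReal.ofReal p) (volume.restrict U) :=
          ⟨hf.aestronglyMeasurable, Ne.lt_top hfin⟩
        have h4 : IntegrableOn f U := h3.integrable (by
          rw [← ENNReal.ofReal_one]; exact ENNReal.ofReal_le_ofReal (by linarith))
        exact h4.mono_set diff_subset
      refine (h2 _ hK _ hm hi hout (Pool.Agent.U562.HD.mvoff_of hU hMV)).trans ?_
      refine mul_le_mul' ?_ hnf0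
      rw [add_comm (C1 * 2) C2, add_assoc]
      exact le_self_add

end Pool.Agent.U562.HD.Old
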