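import Pool.Agent.U562.HD.Conv
set_option autoImplicit false

/-! The operators `Tt`: Fubini, Plancherel, semigroup property, limit -/

namespace Pool.Agent.U562.HD

open MeasureTheory Complex Set Metric Filter Topology FourierTransform
open scoped ENNReal NNReal RealInnerProductSpace Real

variable {V : Type*} [NormedAddCommGroup V] [InnerProductSpace ℝ V] [FiniteDimensional ℝ V]
  [MeasurableSpace V] [BorelSpace V]

lemma ph_cc {X : Type*} [TopologicalSpace X] {t : X → ℝ} {x y : X → V} (ht : Continuous t)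
    (hx : Continuous x) (hy : Continuous y) : Continuous fun p => ph (t p) (x p) (y p) := by
  unfold ph
  have h1 : Continuous fun p => (⟪y p, x p⟫ + t p * ‖y p‖ ^ 2 : ℝ) := by fun_prop
  fun_prop

lemma Gs_cc {X : Type*} [TopologicalSpace X] (a : ℝ) {x : X → V}
    (hx : Continuous x) : Continuous fun p => (Gs a (x p) : ℂ) :=
  Complex.continuous_ofReal.comp ((Gs_cont a).comp hx)

lemma sg_pos (a t : ℝ) : 0 < sg V a t := by
  unfold sg
  have : 0 < Real.sqrt (1 + (t * a) ^ 2) := Real.sqrt_pos.mpr (by positivity)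
  positivity

lemma sg_le_one (a t : ℝ) : sg V a t ≤ 1 := by
  unfold sg
  apply Real.rpow_le_one_of_one_le_of_nonpos
  · exact Real.one_le_sqrt.mpr (by nlinarith [sq_nonneg (t * a)])
  · have : (0 : ℝ) ≤ (Module.finrank ℝ V / 2 : ℝ) := by positivity
    linarith

lemma kern_norm_le_sg {a : ℝ} (ha : 0 < a) (t : ℝ) (x y : V) : ‖kern a t x y‖ ≤ sg V a t := by
  rw [kern_norm ha]
  have h1 : rexp (-(a / (4 * (1 + (t * a) ^ 2)) * ‖x + (2 * t) • y‖ ^ 2)) ≤ 1 := by
    rw [Real.exp_le_one_iff]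
    have : 0 ≤ a / (4 * (1 + (t * a) ^ 2)) * ‖x + (2 * t) • y‖ ^ 2 := by positivity
    linarith
  have := sg_pos (V := V) a t
  nlinarith

lemma kern_norm_le {a : ℝ} (ha : 0 < a) (t : ℝ) (x y : V) : ‖kern a t x y‖ ≤ 1 :=
  (kern_norm_le_sg ha t x y).trans (sg_le_one a t)

lemma kern_sm (a : ℝ) :
    StronglyMeasurable (fun p : (ℝ × V) × V => kern a p.1.1 p.1.2 p.2) := by
  have hc : Continuous (fun q : ((ℝ × V) × V) × V =>
      ph q.1.1.1 q.1.1.2 q.2 * (Gs a (q.2 - q.1.2) : ℂ)) :=
    (ph_cc (by fun_prop) (by fun_prop) (by fun_prop)).mul (Gs_cc a (by fun_prop))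
  exact hc.stronglyMeasurable.integral_prod_right'

lemma kern_meas_y (a t : ℝ) (x : V) : Measurable (fun y => kern a t x y) := by
  have h := (kern_sm (V := V) a).measurable
  have hg : Measurable (fun y : V => (((t, x), y) : (ℝ × V) × V)) := by fun_prop
  exact h.comp hg

/-- joint measurability -/
lemma Tt_sm (a : ℝ) {h : V → ℂ} (hh : Measurable h) :
    StronglyMeasurable (fun p : ℝ × V => Tt a p.1 h p.2) := by
  have h1 : StronglyMeasurable (fun q : (ℝ × V) × V => h q.2 * kern a q.1.1 q.1.2 q.2) :=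
    (hh.comp measurable_snd).stronglyMeasurable.mul (kern_sm a)
  exact h1.integral_prod_right'

lemma Tt_meas (a t : ℝ) {h : V → ℂ} (hh : Measurable h) : Measurable (fun x => Tt a t h x) := by
  have h1 := (Tt_sm a hh).measurable
  have hg : Measurable (fun x : V => ((t, x) : ℝ × V)) := by fun_prop
  have h2 : Measurable ((fun p : ℝ × V => Tt a p.1 h p.2) ∘ (fun x : V => ((t, x) : ℝ × V))) :=
    h1.comp hg
  have e : ((fun p : ℝ × V => Tt a p.1 h p.2) ∘ (fun x : V => ((t, x) : ℝ × V))) =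
    fun x => Tt a t h x := by funext x; simp only [Function.comp_apply]
  rw [e] at h2
  exact h2

lemma Tt_int {a : ℝ} (ha : 0 < a) (t : ℝ) {h : V → ℂ} (hi : Integrable h) (x : V) :
    Integrable fun y => h y * kern a t x y := by
  refine hi.mul_bdd (c := 1) (kern_meas_y a t x).aestronglyMeasurable
    (Eventually.of_forall fun y => kern_norm_le ha t x y)

/-- the convolution of `h` and the Gaussian -/
noncomputable def cv (a : ℝ) (h : V → ℂ) (w : V) : ℂ := ∫ y, h y * (Gs a (w - y) : ℂ)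

lemma cv_prod {a : ℝ} (ha : 0 < a) {h : V → ℂ} (hi : Integrable h) :
    Integrable (fun p : V × V => h p.2 * (Gs a (p.1 - p.2) : ℂ)) (volume.prod volume) := by
  have hg : Integrable (fun z : V => (Gs a z : ℂ)) := (Gs_integrable ha).ofReal
  exact hi.convolution_integrand (ContinuousLinearMap.mul ℂ ℂ) hg

lemma cv_integrable {a : ℝ} (ha : 0 < a) {h : V → ℂ} (hi : Integrable h) :
    Integrable (cv a h) := (cv_prod ha hi).integral_prod_left

lemma cv_meas (a : ℝ) {h : V → ℂ} (hh : Measurable h) : Measurable (cv a h) := by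
  unfold cv
  have h1 : StronglyMeasurable (fun q : V × V => h q.2 * (Gs a (q.1 - q.2) : ℂ)) :=
    ((hh.comp measurable_snd).mul
      (Gs_cc a (continuous_fst.sub continuous_snd)).measurable).stronglyMeasurable
  exact h1.integral_prod_right'.measurable

lemma cv_enorm_le {a : ℝ} (ha : 0 < a) {h : V → ℂ} (w : V) :
    ‖cv a h w‖ₑ ≤ ∫⁻ z, ‖h (w - z)‖ₑ * ENNReal.ofReal (Gs a z) := by
  unfold cv
  calc ‖∫ y, h y * (Gs a (w - y) : ℂ)‖ₑ ≤ ∫⁻ y, ‖h y * (Gs a (w - y) : ℂ)‖ₑ :=
        enorm_integral_le_lintegral_enorm _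
    _ = ∫⁻ y, ‖h y‖ₑ * ENNReal.ofReal (Gs a (w - y)) := by
        congr 1; funext y
        rw [enorm_mul]; congr 1
        rw [← ofReal_norm, Complex.norm_real, Real.norm_of_nonneg (Gs_nonneg ha _)]
    _ = ∫⁻ z, ‖h (w - z)‖ₑ * ENNReal.ofReal (Gs a z) := by
        rw [← lintegral_sub_left_eq_self (fun y => ‖h y‖ₑ * ENNReal.ofReal (Gs a (w - y))) w]
        congr 1; funext z
        rw [sub_sub_cancel]

/-- Fubini -/
lemma Tt_eq_Ft {a : ℝ} (ha : 0 < a) (t : ℝ) {h : V → ℂ} (hi : Integrable h) (x : V) :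
    Tt a t h x = Ft t (cv a h) x := by
  unfold Tt Ft kern cv
  have e1 : ∀ y, h y * ∫ w, ph t x w * (Gs a (w - y) : ℂ) =
      ∫ w, ph t x w * (h y * (Gs a (w - y) : ℂ)) := by
    intro y; rw [← integral_const_mul]; congr 1; funext w; ring
  have e2 : ∀ w, ph t x w * ∫ y, h y * (Gs a (w - y) : ℂ) =
      ∫ y, ph t x w * (h y * (Gs a (w - y) : ℂ)) := by
    intro w; rw [← integral_const_mul]
  simp_rw [e1, e2]
  rw [integral_integral_swap]
  have h0 := (cv_prod ha hi).swap
  have hc : Continuous fun w : V => ph t x w :=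
    ph_cc continuous_const continuous_const continuous_id
  refine Integrable.bdd_mul (c := 1) (f := fun p : V × V => ph t x p.2) ?_ ?_ ?_
  · exact h0
  · exact (hc.comp continuous_snd).aestronglyMeasurable
  · exact Eventually.of_forall fun p => (ph_norm t x p.2).le

/-- Plancherel for the extension at a fixed time -/
lemma Ft_l2 (t : ℝ) {u : V → ℂ} (hi : Integrable u) (h2 : MemLp u 2) :
    ∫⁻ x, ‖Ft t u x‖ₑ ^ 2 =
      ENNReal.ofReal ((2 * π) ^ Module.finrank ℝ V) * ∫⁻ x, ‖u x‖ₑ ^ 2 := by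
  set c : V → ℂ := fun y => cexp (((-(t * ‖y‖ ^ 2) : ℝ) : ℂ) * I) with hc
  have hcc : Continuous c := by rw [hc]; fun_prop
  have hcn : ∀ y, ‖c y‖ = 1 := fun y => by rw [hc]; exact Complex.norm_exp_ofReal_mul_I _
  set v : V → ℂ := fun y => c y * u y with hv
  have hvi : Integrable v := hi.bdd_mul (c := 1) hcc.aestronglyMeasurable
    (Eventually.of_forall fun y => (hcn y).le)
  have hve : ∀ y, ‖v y‖ₑ = ‖u y‖ₑ := by
    intro y
    rw [hv]
    show ‖c y * u y‖ₑ = _
    rw [enorm_mul, ← ofReal_norm (c y), hcn, ENNReal.ofReal_one, one_mul]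
  have hv2 : MemLp v 2 := by
    refine ⟨hvi.aestronglyMeasurable, ?_⟩
    rw [eLpNorm_congr_enorm_ae (g := u) (Eventually.of_forall hve)]
    exact h2.2
  have hpl := Pool.Agent.H153R4.plancherel v hvi hv2
  have hF : ∀ x, Ft t u x = 𝓕 v ((2 * π)⁻¹ • x) := by
    intro x
    rw [Real.fourier_eq']
    unfold Ft
    congr 1; funext y
    rw [hv, hc]
    show ph t x y * u y = _ • (cexp _ * u y)
    rw [smul_eq_mul, ← mul_assoc, ← Complex.exp_add]
    unfold ph
    congr 2
    rw [real_inner_smul_right]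
    have hp : (π : ℂ) ≠ 0 := by exact_mod_cast Real.pi_ne_zero
    push_cast
    field_simp
    ring
  have hcont : Continuous (𝓕 v) :=
    VectorFourier.fourierIntegral_continuous (L := innerₗ V) Real.continuous_fourierChar
      continuous_inner hvi
  simp_rw [hF]
  rw [lint_smul (r := (2 * π)⁻¹) (by positivity) (fun x => ‖𝓕 v x‖ₑ ^ 2)
    (hcont.enorm.measurable.pow_const 2), hpl]
  congr 1
  · congr 1; rw [inv_pow, inv_inv]
  · congr 1; funext x; rw [hve]

/-- the `L²` bound -/
lemma Tt_l2 {a : ℝ} (ha : 0 < a) (t : ℝ) {h : V → ℂ} (hh : Measurable h) (hi : Integrable h)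
    (h2 : ∫⁻ y, ‖h y‖ₑ ^ 2 ≠ ∞) :
    ∫⁻ x, ‖Tt a t h x‖ₑ ^ 2 ≤
      ENNReal.ofReal ((2 * π) ^ Module.finrank ℝ V) * ∫⁻ y, ‖h y‖ₑ ^ 2 := by
  have hb : ∫⁻ x, ‖cv a h x‖ₑ ^ 2 ≤ ∫⁻ y, ‖h y‖ₑ ^ 2 := by
    have hy := young (V := V) (p := 2) (by norm_num) (F := fun y => ‖h y‖ₑ)
      (Γ := fun z => ENNReal.ofReal (Gs a z)) hh.enorm (Gs_cont a).measurable.ennreal_ofReal
      (by rw [Gs_lintegral ha]; exact ENNReal.one_ne_top)
    rw [Gs_lintegral ha, ENNReal.one_rpow, one_mul] at hy
    simp only [ENNReal.rpow_ofNat] at hy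
    exact (lintegral_mono fun x => by
      show ‖cv a h x‖ₑ ^ 2 ≤ _
      gcongr
      exact cv_enorm_le ha x).trans hy
  have hci := cv_integrable ha hi
  have hm : MemLp (cv a h) 2 := by
    refine ⟨hci.aestronglyMeasurable, ?_⟩
    rw [eLpNorm_lt_top_iff_lintegral_rpow_enorm_lt_top (by norm_num) (by norm_num)]
    simp only [ENNReal.toReal_ofNat, ENNReal.rpow_ofNat]
    exact hb.trans_lt h2.lt_top
  simp_rw [Tt_eq_Ft ha t hi]
  rw [Ft_l2 t hci hm]
  gcongr

/-- the semigroup property -/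
lemma Tt_cv {a b : ℝ} (ha : 0 < a) (hb : 0 < b) (t : ℝ) {f : V → ℂ} (hi : Integrable f) (x : V) :
    Tt a t (cv b f) x = Tt (a + b) t f x := by
  unfold Tt cv
  have e0 : ∀ y, (∫ z, f z * (Gs b (y - z) : ℂ)) * kern a t x y =
      ∫ z, f z * ((Gs b (y - z) : ℂ) * kern a t x y) := by
    intro y; rw [← integral_mul_const]; congr 1; funext z; ring
  simp_rw [e0]
  rw [integral_integral_swap]
  · congr 1; funext z
    rw [integral_const_mul]
    congr 1
    -- ∫ y, Gs b (y - z) * kern a t x y = kern (a + b) t x z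
    unfold kern
    have e1 : ∀ y, (Gs b (y - z) : ℂ) * ∫ w, ph t x w * (Gs a (w - y) : ℂ) =
        ∫ w, ph t x w * ((Gs a (w - y) * Gs b (y - z) : ℝ) : ℂ) := by
      intro y; rw [← integral_const_mul]; congr 1; funext w; push_cast; ring
    simp_rw [e1]
    rw [integral_integral_swap]
    · congr 1; funext w
      rw [integral_const_mul, integral_complex_ofReal, Gs_conv ha hb]
    · have h1 : Integrable (fun p : V × V => (Gs b (p.2 - z) : ℂ) * (Gs a (p.1 - p.2) : ℂ))
          (volume.prod volume) := by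
        have hg : Integrable (fun y : V => (Gs b (y - z) : ℂ)) :=
          ((Gs_integrable hb).comp_sub_right z).ofReal
        exact cv_prod ha hg
      have hc : Continuous fun w : V => ph t x w :=
    ph_cc continuous_const continuous_const continuous_id
      have h2 : Integrable (fun p : V × V => ph t x p.2 *
          ((Gs b (p.1 - z) : ℂ) * (Gs a (p.2 - p.1) : ℂ))) (volume.prod volume) :=
        h1.swap.bdd_mul (c := 1) (hc.comp continuous_snd).aestronglyMeasurable
          (Eventually.of_forall fun p => (ph_norm t x p.2).le)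
      convert h2 using 2 with p
      simp only [Function.uncurry]
      push_cast; ring
  · have h1 := cv_prod hb hi
    have h2 : Integrable (fun p : V × V => kern a t x p.1 * (f p.2 * (Gs b (p.1 - p.2) : ℂ)))
        (volume.prod volume) :=
      h1.bdd_mul (c := 1) ((kern_meas_y a t x).comp measurable_fst).aestronglyMeasurable
        (Eventually.of_forall fun p => kern_norm_le ha t x p.1)
    convert h2 using 2 with p
    simp only [Function.uncurry]
    ring

lemma kern_scaled {a : ℝ} (ha : 0 < a) (t : ℝ) (x y : V) :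
    kern a t x y = ∫ u, ph t x (y + Real.sqrt a • u) * (Gs 1 u : ℂ) := by
  unfold kern
  rw [← integral_add_right_eq_self (fun w => ph t x w * (Gs a (w - y) : ℂ)) y]
  have hs : 0 < Real.sqrt a := Real.sqrt_pos.mpr ha
  have h := Measure.integral_comp_smul (volume : Measure V)
    (fun w => ph t x (w + y) * (Gs a (w + y - y) : ℂ)) (Real.sqrt a)
  rw [abs_of_pos (by positivity)] at h
  have hg : ∀ u : V, Gs a (Real.sqrt a • u + y - y) =
      (Real.sqrt a ^ Module.finrank ℝ V)⁻¹ * Gs 1 u := by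
    intro u
    rw [add_sub_cancel_right]
    unfold Gs
    rw [norm_smul, Real.norm_of_nonneg hs.le, mul_pow, Real.sq_sqrt ha.le, mul_one, div_one,
      Real.mul_rpow Real.pi_pos.le ha.le]
    have e1 : a ^ (-(Module.finrank ℝ V / 2 : ℝ)) = (Real.sqrt a ^ Module.finrank ℝ V)⁻¹ := by
      rw [Real.sqrt_eq_rpow, ← Real.rpow_natCast, ← Real.rpow_mul ha.le, ← Real.rpow_neg ha.le]
      congr 1; ring
    rw [e1]
    have e2 : -(a * ‖u‖ ^ 2) / a = -(‖u‖ ^ 2) := by field_simp
    rw [e2]; ring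
  have h3 : ∫ u, ph t x (Real.sqrt a • u + y) * (Gs a (Real.sqrt a • u + y - y) : ℂ) =
      ((Real.sqrt a ^ Module.finrank ℝ V)⁻¹ : ℝ) • ∫ u, ph t x (y + Real.sqrt a • u) *
        (Gs 1 u : ℂ) := by
    rw [← integral_smul]
    congr 1; funext u
    rw [hg, add_comm (Real.sqrt a • u) y, Complex.real_smul]
    push_cast; ring
  rw [h3] at h
  have hne : ((Real.sqrt a ^ Module.finrank ℝ V)⁻¹ : ℝ) ≠ 0 := by positivity
  exact (smul_right_injective ℂ hne h).symm

lemma kern_tendsto (t : ℝ) (x y : V) {α : ℕ → ℝ} (hα : ∀ n, 0 < α n)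
    (hl : Tendsto α atTop (𝓝 0)) :
    Tendsto (fun n => kern (α n) t x y) atTop (𝓝 (ph t x y)) := by
  have e : ph t x y = ∫ u : V, ph t x y * (Gs 1 u : ℂ) := by
    rw [integral_const_mul, integral_complex_ofReal, Gs_integral one_pos]; simp
  rw [e]
  simp_rw [fun n => kern_scaled (hα n) t x y]
  apply tendsto_integral_of_dominated_convergence (fun u => Gs 1 u)
  · intro n
    apply Continuous.aestronglyMeasurable
    exact (ph_cc continuous_const continuous_const (by fun_prop)).mul (Gs_cc 1 continuous_id)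
  · exact Gs_integrable one_pos
  · intro n
    filter_upwards with u
    rw [norm_mul, ph_norm, one_mul, Complex.norm_real, Real.norm_of_nonneg (Gs_nonneg one_pos u)]
  · filter_upwards with u
    apply Tendsto.mul_const
    have h1 : Tendsto (fun n => y + Real.sqrt (α n) • u) atTop (𝓝 (y + (0 : ℝ) • u)) := by
      apply Tendsto.const_add
      apply Tendsto.smul_const
      have := (Real.continuous_sqrt.tendsto 0).comp hl
      rwa [Real.sqrt_zero] at this
    rw [zero_smul, add_zero] at h1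
    have hc : Continuous fun w : V => ph t x w :=
    ph_cc continuous_const continuous_const continuous_id
    exact (hc.tendsto y).comp h1

lemma Tt_tendsto (t : ℝ) {f : V → ℂ} (hi : Integrable f) (x : V) {α : ℕ → ℝ}
    (hα : ∀ n, 0 < α n) (hl : Tendsto α atTop (𝓝 0)) :
    Tendsto (fun n => Tt (α n) t f x) atTop (𝓝 (Ft t f x)) := by
  unfold Tt Ft
  apply tendsto_integral_of_dominated_convergence (fun y => ‖f y‖)
  · intro n
    exact (Tt_int (hα n) t hi x).aestronglyMeasurable
  · exact hi.norm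
  · intro n
    filter_upwards with y
    rw [norm_mul]
    exact mul_le_of_le_one_right (norm_nonneg _) (kern_norm_le (hα n) t x y)
  · filter_upwards with y
    have h1 := (kern_tendsto t x y hα hl).const_mul (f y)
    rwa [mul_comm (f y) (ph t x y)] at h1

end Pool.Agent.U562.HD
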