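import Pool.Agent.U562.HD.Main
set_option autoImplicit false

/-! The space time estimate for one piece in dimension two -/

namespace Pool.Agent.U562.HD

open MeasureTheory Complex Set Metric Filter Topology
open scoped ENNReal NNReal RealInnerProductSpace Real

variable {V : Type*} [NormedAddCommGroup V] [InnerProductSpace ℝ V] [FiniteDimensional ℝ V]
  [MeasurableSpace V] [BorelSpace V]

lemma sg_two (hn : Module.finrank ℝ V = 2) {δ t ρ : ℝ} (hδ : 0 < δ) (ht : t ≠ 0) (hρ : 0 < ρ)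
    (hρ2 : ρ ^ 2 = δ ^ 2 + 1 / (δ ^ 2 * t ^ 2)) : sg V (δ ^ 2) t * (ρ * δ) = 1 / |t| := by
  have ht' : 0 < |t| := abs_pos.mpr ht
  unfold sg
  rw [hn]
  have e1 : (-((2 : ℕ) / 2 : ℝ)) = -1 := by norm_num
  rw [e1, Real.rpow_neg_one]
  have hs : 0 < Real.sqrt (1 + (t * δ ^ 2) ^ 2) := Real.sqrt_pos.mpr (by positivity)
  have e2 : ρ * δ * |t| = Real.sqrt (1 + (t * δ ^ 2) ^ 2) := by
    rw [eq_comm, Real.sqrt_eq_iff_eq_sq (by positivity) (by positivity)]
    have e3 : (ρ * δ * |t|) ^ 2 = ρ ^ 2 * δ ^ 2 * |t| ^ 2 := by ring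
    rw [e3, hρ2, sq_abs]
    field_simp
    ring
  rw [← e2]
  field_simp

/-- the space time estimate for one piece -/
lemma main_piece (hn : Module.finrank ℝ V = 2) {p q : ℝ} (hp : 2 < p) (hpq : p ≤ q)
    (he : 1 < q - 1 - q / p) : ∃ C : ℝ≥0∞, C ≠ ∞ ∧ ∀ (M : ℝ≥0∞) (δ : ℝ), M ≠ ∞ → 0 < δ → δ ≤ 1 →
    ∀ (h : V → ℂ) (m G : V → ℝ≥0∞), Measurable h → Measurable m → Measurable G →
    (∀ y, ‖h y‖ₑ ≤ m y * G y) → (∀ y, m y ≤ 1) →
    (∀ b ρ, δ ≤ ρ → ρ ≤ 2 → ∫⁻ y in ball b ρ, m y ^ (p / (p - 1)) ≤ M * ENNReal.ofReal (ρ * δ)) →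
    (∫⁻ y, m y ^ (p / (p - 1)) ≤ M * ENNReal.ofReal δ) → (∫⁻ y, G y ^ p ≠ ∞) →
    Integrable h ∧ ∫⁻ t : ℝ, ∫⁻ x, ‖Tt (δ ^ 2) t h x‖ₑ ^ q ≤
      C * (M ^ (q - 1 - q / p) * ENNReal.ofReal (δ ^ (q - 1 - q / p - 1)) *
        (∫⁻ y, G y ^ p) ^ (q / p)) := by
  have hp0 : 0 < p := by linarith
  have hq2 : 0 < q - 2 := by linarith
  have heq : q - 1 - q / p ≤ q - 2 := by
    have : 1 ≤ q / p := by rw [le_div_iff₀ hp0]; linarith
    linarith
  set e := q - 1 - q / p with hedef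
  set K := ∫⁻ u : ℝ, ENNReal.ofReal ((1 + |u|) ^ (-e)) with hK
  set C1 : ℝ≥0∞ := ENNReal.ofReal (2 ^ e) * (ENNReal.ofReal ((2 * π) ^ Module.finrank ℝ V) + cF V q)
    with hC1
  refine ⟨C1 * K, ENNReal.mul_ne_top (ENNReal.mul_ne_top ENNReal.ofReal_ne_top
    (ENNReal.add_ne_top.mpr ⟨ENNReal.ofReal_ne_top, cF_ne_top (by linarith)⟩)) (time_fin he), ?_⟩
  intro M δ hM hδ hδ1 h m G hh hm hG hH hm1 hM1 hM2 hI
  have hloc := loc_holder volume hp hpq hm hG hH hm1
  have hNt : ∫⁻ y, m y ^ (p / (p - 1)) ≠ ∞ :=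
    ne_top_of_le_ne_top (ENNReal.mul_ne_top hM ENNReal.ofReal_ne_top) hM2
  have hi : Integrable h := by
    refine ⟨hh.aestronglyMeasurable, ?_⟩
    rw [hasFiniteIntegral_iff_enorm]
    refine lt_of_le_of_lt hloc.1 (ENNReal.mul_lt_top ?_ ?_)
    · exact ENNReal.rpow_lt_top_of_nonneg (div_nonneg (by linarith) hp0.le) hNt
    · exact ENNReal.rpow_lt_top_of_nonneg (by positivity) hI
  have h2 : ∫⁻ y, ‖h y‖ₑ ^ 2 ≠ ∞ := by
    refine (lt_of_le_of_lt hloc.2.1 (ENNReal.mul_lt_top ?_ ?_)).ne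
    · exact ENNReal.rpow_lt_top_of_nonneg (div_nonneg (by linarith) hp0.le) hNt
    · exact ENNReal.rpow_lt_top_of_nonneg (by positivity) hI
  refine ⟨hi, ?_⟩
  set I := ∫⁻ y, G y ^ p with hIdef
  have hδ2 : 0 < δ ^ 2 := by positivity
  have hpt : ∀ t : ℝ, t ≠ 0 → ∫⁻ x, ‖Tt (δ ^ 2) t h x‖ₑ ^ q ≤
      (C1 * (M ^ e * I ^ (q / p))) * ENNReal.ofReal ((1 / δ + |t|) ^ (-e)) := by
    intro t ht
    have ht' : 0 < |t| := abs_pos.mpr ht
    by_cases hn1 : |t| ≤ 1 / δ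
    · have hr : δ ^ e ≤ 2 ^ e * (1 / δ + |t|) ^ (-e) := by
        have h3 : (2 / δ) ^ (-e) ≤ (1 / δ + |t|) ^ (-e) := by
          apply Real.rpow_le_rpow_of_nonpos (by positivity) _ (by linarith)
          have : 2 / δ = 1 / δ + 1 / δ := by ring
          linarith
        have h4 : (2 / δ) ^ (-e) = (2 ^ e)⁻¹ * δ ^ e := by
          rw [Real.div_rpow (by norm_num) hδ.le, Real.rpow_neg (by norm_num), Real.rpow_neg hδ.le]
          rw [div_inv_eq_mul]
        rw [h4] at h3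
        have h5 : (0 : ℝ) < 2 ^ e := by positivity
        calc δ ^ e = 2 ^ e * ((2 ^ e)⁻¹ * δ ^ e) := by field_simp
          _ ≤ _ := by gcongr
      calc ∫⁻ x, ‖Tt (δ ^ 2) t h x‖ₑ ^ q ≤ ENNReal.ofReal ((2 * π) ^ Module.finrank ℝ V) *
            ((∫⁻ y, m y ^ (p / (p - 1))) ^ e * I ^ (q / p)) :=
            slice_near hp hpq hδ2 t hh hi h2 hm hG hH hm1
        _ ≤ ENNReal.ofReal ((2 * π) ^ Module.finrank ℝ V) *
            ((M * ENNReal.ofReal δ) ^ e * I ^ (q / p)) := by gcongr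
        _ = ENNReal.ofReal ((2 * π) ^ Module.finrank ℝ V) *
            (M ^ e * I ^ (q / p)) * ENNReal.ofReal (δ ^ e) := by
            rw [ENNReal.mul_rpow_of_nonneg _ _ (by linarith),
              ENNReal.ofReal_rpow_of_pos hδ]
            ring
        _ ≤ ENNReal.ofReal ((2 * π) ^ Module.finrank ℝ V) *
            (M ^ e * I ^ (q / p)) * (ENNReal.ofReal (2 ^ e) *
              ENNReal.ofReal ((1 / δ + |t|) ^ (-e))) := by
            rw [← ENNReal.ofReal_mul (by positivity)]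
            gcongr
        _ ≤ _ := by
            rw [hC1]
            calc ENNReal.ofReal ((2 * π) ^ Module.finrank ℝ V) *
                (M ^ e * I ^ (q / p)) * (ENNReal.ofReal (2 ^ e) *
                  ENNReal.ofReal ((1 / δ + |t|) ^ (-e)))
                = (ENNReal.ofReal (2 ^ e) * (ENNReal.ofReal ((2 * π) ^ Module.finrank ℝ V) + 0) *
                  (M ^ e * I ^ (q / p))) * ENNReal.ofReal ((1 / δ + |t|) ^ (-e)) := by
                  rw [add_zero]; ring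
              _ ≤ _ := by gcongr; exact bot_le
    · push Not at hn1
      set ρ := Real.sqrt (δ ^ 2 + 1 / (δ ^ 2 * t ^ 2)) with hρ
      have hpos : 0 < δ ^ 2 + 1 / (δ ^ 2 * t ^ 2) := by positivity
      have hρ0 : 0 < ρ := Real.sqrt_pos.mpr hpos
      have hρ2 : ρ ^ 2 = δ ^ 2 + 1 / (δ ^ 2 * t ^ 2) := Real.sq_sqrt hpos.le
      have hδρ : δ ≤ ρ := by
        apply Real.le_sqrt_of_sq_le
        have : 0 < 1 / (δ ^ 2 * t ^ 2) := by positivity
        linarith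
      have hρ' : ρ ≤ 2 := by
        rw [hρ, Real.sqrt_le_left (by norm_num)]
        have h3 : 1 < δ * |t| := by
          rw [div_lt_iff₀ hδ] at hn1; linarith [mul_comm |t| δ]
        have h4 : 1 ≤ δ ^ 2 * t ^ 2 := by
          have : δ ^ 2 * t ^ 2 = (δ * |t|) ^ 2 := by rw [mul_pow, sq_abs]
          rw [this]
          nlinarith
        have h5 : 1 / (δ ^ 2 * t ^ 2) ≤ 1 := by
          rw [div_le_one (by positivity)]; exact h4
        nlinarith
      have hr : (1 / |t|) ^ e ≤ 2 ^ e * (1 / δ + |t|) ^ (-e) := by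
        have h3 : (2 * |t|) ^ (-e) ≤ (1 / δ + |t|) ^ (-e) := by
          apply Real.rpow_le_rpow_of_nonpos (by positivity) _ (by linarith)
          linarith
        have h4 : (2 * |t|) ^ (-e) = (2 ^ e)⁻¹ * (1 / |t|) ^ e := by
          rw [Real.mul_rpow (by norm_num) ht'.le, Real.rpow_neg (by norm_num),
            Real.rpow_neg ht'.le, one_div, Real.inv_rpow ht'.le]
        rw [h4] at h3
        have h5 : (0 : ℝ) < 2 ^ e := by positivity
        calc (1 / |t|) ^ e = 2 ^ e * ((2 ^ e)⁻¹ * (1 / |t|) ^ e) := by field_simp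
          _ ≤ _ := by gcongr
      have hsg0 := sg_pos (V := V) (δ ^ 2) t
      have hsg1 : ENNReal.ofReal (sg V (δ ^ 2) t) ^ (q - 2) ≤
          ENNReal.ofReal (sg V (δ ^ 2) t) ^ e := by
        apply ENNReal.rpow_le_rpow_of_exponent_ge _ heq
        rw [← ENNReal.ofReal_one]
        exact ENNReal.ofReal_le_ofReal (sg_le_one _ _)
      calc ∫⁻ x, ‖Tt (δ ^ 2) t h x‖ₑ ^ q ≤ cF V q * (ENNReal.ofReal (sg V (δ ^ 2) t) ^ (q - 2) *
            (M * ENNReal.ofReal (ρ * δ)) ^ e * I ^ (q / p)) :=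
            slice_far hp hpq hδ2 ht hρ0 hρ2 hh hi h2 hm hG hH hm1 (fun b => hM1 b ρ hδρ hρ')
              (by linarith)
        _ ≤ cF V q * (ENNReal.ofReal (sg V (δ ^ 2) t) ^ e *
            (M * ENNReal.ofReal (ρ * δ)) ^ e * I ^ (q / p)) := by gcongr
        _ = cF V q * (M ^ e * I ^ (q / p)) * ENNReal.ofReal ((1 / |t|) ^ e) := by
            rw [← sg_two hn hδ ht hρ0 hρ2, ENNReal.mul_rpow_of_nonneg _ _ (by linarith : 0 ≤ e),
              Real.mul_rpow hsg0.le (by positivity),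
              ENNReal.ofReal_rpow_of_pos hsg0,
              ENNReal.ofReal_rpow_of_pos (show 0 < ρ * δ by positivity),
              ENNReal.ofReal_mul (show 0 ≤ sg V (δ ^ 2) t ^ e by positivity)]
            ring
        _ ≤ cF V q * (M ^ e * I ^ (q / p)) * (ENNReal.ofReal (2 ^ e) *
              ENNReal.ofReal ((1 / δ + |t|) ^ (-e))) := by
            rw [← ENNReal.ofReal_mul (by positivity)]
            gcongr
        _ ≤ _ := by
            rw [hC1]
            calc cF V q *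
                (M ^ e * I ^ (q / p)) * (ENNReal.ofReal (2 ^ e) *
                  ENNReal.ofReal ((1 / δ + |t|) ^ (-e)))
                = (ENNReal.ofReal (2 ^ e) * (0 + cF V q) *
                  (M ^ e * I ^ (q / p))) * ENNReal.ofReal ((1 / δ + |t|) ^ (-e)) := by
                  rw [zero_add]; ring
              _ ≤ _ := by gcongr; exact bot_le
  calc ∫⁻ t : ℝ, ∫⁻ x, ‖Tt (δ ^ 2) t h x‖ₑ ^ q
      ≤ ∫⁻ t : ℝ, (C1 * (M ^ e * I ^ (q / p))) * ENNReal.ofReal ((1 / δ + |t|) ^ (-e)) := by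
        apply lintegral_mono_ae
        have : ∀ᵐ t : ℝ ∂volume, t ≠ 0 := by
          rw [ae_iff]; simp
        filter_upwards [this] with t ht using hpt t ht
    _ = (C1 * (M ^ e * I ^ (q / p))) * (ENNReal.ofReal (δ ^ (e - 1)) * K) := by
        rw [lintegral_const_mul _ (by fun_prop), time_int hδ]
    _ = _ := by ring

end Pool.Agent.U562.HD
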