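import Mathlib
set_option autoImplicit false

/-! Gradient bound for polynomials of degree at most `k` in each of two variables. -/

open MeasureTheory Set Metric
open scoped ENNReal NNReal

namespace Pool.Agent.U562.HD

abbrev P2 := EuclideanSpace ℝ (Fin 2)

/-- the polynomial with the coefficients `c i j`, `i, j ≤ k` -/
noncomputable def pol {k : ℕ} (c : Fin (k + 1) → Fin (k + 1) → ℂ) (y : P2) : ℂ :=
  ∑ i, ∑ j, c i j * ((y 0 : ℝ) : ℂ) ^ (i : ℕ) * ((y 1 : ℝ) : ℂ) ^ (j : ℕ)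

lemma pow_shift {k : ℕ} (i : Fin (k + 1)) (a r t : ℂ) : (a + r * t) ^ (i : ℕ) =
    ∑ l : Fin (k + 1), (((i : ℕ).choose l : ℂ) * a ^ ((i : ℕ) - (l : ℕ)) * r ^ (l : ℕ)) * t ^ (l : ℕ) := by
  rw [add_comm a, add_pow, ← Fin.sum_univ_eq_sum_range
    (fun l => (r * t) ^ l * a ^ ((i : ℕ) - l) * ((i : ℕ).choose l : ℂ)) ((i : ℕ) + 1)]
  have h1 : (∑ l : Fin ((i : ℕ) + 1), (r * t) ^ (l : ℕ) * a ^ ((i : ℕ) - (l : ℕ)) *
      ((i : ℕ).choose l : ℂ)) = ∑ l ∈ Finset.range ((i : ℕ) + 1),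
      (r * t) ^ l * a ^ ((i : ℕ) - l) * ((i : ℕ).choose l : ℂ) :=
    Fin.sum_univ_eq_sum_range (fun l => (r * t) ^ l * a ^ ((i : ℕ) - l) *
      ((i : ℕ).choose l : ℂ)) ((i : ℕ) + 1)
  have h2 : (∑ l : Fin (k + 1), (((i : ℕ).choose l : ℂ) * a ^ ((i : ℕ) - (l : ℕ)) *
      r ^ (l : ℕ)) * t ^ (l : ℕ)) = ∑ l ∈ Finset.range (k + 1),
      (((i : ℕ).choose l : ℂ) * a ^ ((i : ℕ) - l) * r ^ l) * t ^ l :=
    Fin.sum_univ_eq_sum_range (fun l => (((i : ℕ).choose l : ℂ) * a ^ ((i : ℕ) - l) *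
      r ^ l) * t ^ l) (k + 1)
  rw [h1, h2]
  have hi : (i : ℕ) + 1 ≤ k + 1 := i.2
  rw [← Finset.sum_subset (Finset.range_subset_range.mpr hi)]
  · refine Finset.sum_congr rfl fun l _ => ?_
    rw [mul_pow]
    ring
  · intro l _ hl
    rw [Finset.mem_range, not_lt] at hl
    rw [Nat.choose_eq_zero_of_lt (by omega)]
    simp

lemma pol_shift {k : ℕ} (c : Fin (k + 1) → Fin (k + 1) → ℂ) (x : P2) (r : ℝ) :
    ∃ c' : Fin (k + 1) → Fin (k + 1) → ℂ, ∀ y : P2, pol c (x + r • y) = pol c' y := by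
  set B : ℂ → Fin (k + 1) → Fin (k + 1) → ℂ := fun a i l =>
    ((i : ℕ).choose l : ℂ) * a ^ ((i : ℕ) - (l : ℕ)) * (r : ℂ) ^ (l : ℕ) with hB
  refine ⟨fun l m => ∑ i, ∑ j, c i j * B ((x 0 : ℝ) : ℂ) i l * B ((x 1 : ℝ) : ℂ) j m, fun y => ?_⟩
  unfold pol
  have e0 : ∀ n : Fin 2, (((x + r • y) n : ℝ) : ℂ) = ((x n : ℝ) : ℂ) + (r : ℂ) * ((y n : ℝ) : ℂ) := by
    intro n
    simp
  simp only [e0]
  have e1 : ∀ i j : Fin (k + 1), c i j * (((x 0 : ℝ) : ℂ) + (r : ℂ) * ((y 0 : ℝ) : ℂ)) ^ (i : ℕ) *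
      (((x 1 : ℝ) : ℂ) + (r : ℂ) * ((y 1 : ℝ) : ℂ)) ^ (j : ℕ) =
      ∑ l : Fin (k + 1), ∑ m : Fin (k + 1), c i j * B ((x 0 : ℝ) : ℂ) i l * B ((x 1 : ℝ) : ℂ) j m *
        ((y 0 : ℝ) : ℂ) ^ (l : ℕ) * ((y 1 : ℝ) : ℂ) ^ (m : ℕ) := by
    intro i j
    rw [pow_shift i, pow_shift j, mul_assoc, Finset.sum_mul_sum, Finset.mul_sum]
    refine Finset.sum_congr rfl fun l _ => ?_
    rw [Finset.mul_sum]
    refine Finset.sum_congr rfl fun m _ => ?_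
    simp only [hB]
    ring
  simp only [e1]
  calc ∑ i, ∑ j, ∑ l : Fin (k + 1), ∑ m : Fin (k + 1), c i j * B ((x 0 : ℝ) : ℂ) i l *
        B ((x 1 : ℝ) : ℂ) j m * ((y 0 : ℝ) : ℂ) ^ (l : ℕ) * ((y 1 : ℝ) : ℂ) ^ (m : ℕ)
      = ∑ l : Fin (k + 1), ∑ m : Fin (k + 1), ∑ i, ∑ j, c i j * B ((x 0 : ℝ) : ℂ) i l *
        B ((x 1 : ℝ) : ℂ) j m * ((y 0 : ℝ) : ℂ) ^ (l : ℕ) * ((y 1 : ℝ) : ℂ) ^ (m : ℕ) := by
        have s1 : ∀ i, ∑ j, ∑ l : Fin (k + 1), ∑ m : Fin (k + 1), c i j * B ((x 0 : ℝ) : ℂ) i l *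
            B ((x 1 : ℝ) : ℂ) j m * ((y 0 : ℝ) : ℂ) ^ (l : ℕ) * ((y 1 : ℝ) : ℂ) ^ (m : ℕ) =
            ∑ l : Fin (k + 1), ∑ m : Fin (k + 1), ∑ j, c i j * B ((x 0 : ℝ) : ℂ) i l *
            B ((x 1 : ℝ) : ℂ) j m * ((y 0 : ℝ) : ℂ) ^ (l : ℕ) * ((y 1 : ℝ) : ℂ) ^ (m : ℕ) := by
          intro i
          rw [Finset.sum_comm]
          refine Finset.sum_congr rfl fun l _ => ?_
          rw [Finset.sum_comm]
        simp only [s1]
        rw [Finset.sum_comm]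
        refine Finset.sum_congr rfl fun l _ => ?_
        rw [Finset.sum_comm]
    _ = _ := by
        refine Finset.sum_congr rfl fun l _ => Finset.sum_congr rfl fun m _ => ?_
        rw [Finset.sum_mul, Finset.sum_mul]
        refine Finset.sum_congr rfl fun i _ => ?_
        rw [Finset.sum_mul, Finset.sum_mul]

/-- one variable -/
lemma one_zero {k : ℕ} {a : Fin (k + 1) → ℂ}
    (h : ∀ t : ℝ, |t| < 1 / 2 → ∑ i, a i * (t : ℂ) ^ (i : ℕ) = 0) : a = 0 := by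
  set Q : Polynomial ℂ := ∑ i : Fin (k + 1), Polynomial.C (a i) * Polynomial.X ^ (i : ℕ) with hQ
  have hz : Q = 0 := by
    apply Polynomial.eq_zero_of_infinite_isRoot
    have hinf : ((fun t : ℝ => (t : ℂ)) '' Ioo (0 : ℝ) (1 / 2)).Infinite :=
      (Ioo_infinite (by norm_num)).image (Complex.ofReal_injective.injOn)
    refine hinf.mono ?_
    rintro _ ⟨t, ht, rfl⟩
    have := h t (by rw [abs_of_pos ht.1]; exact ht.2)
    simp only [mem_ofPred_eq, Polynomial.IsRoot.def, hQ, Polynomial.eval_finsetSum,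
      Polynomial.eval_mul, Polynomial.eval_C, Polynomial.eval_pow, Polynomial.eval_X]
    exact this
  funext i
  have h1 : Q.coeff (i : ℕ) = a i := by
    rw [hQ, Polynomial.finset_sum_coeff]
    rw [Finset.sum_eq_single i]
    · simp
    · intro j _ hj
      rw [Polynomial.coeff_C_mul, Polynomial.coeff_X_pow, if_neg, mul_zero]
      intro h
      exact hj (Fin.ext h.symm)
    · intro h
      exact absurd (Finset.mem_univ i) h
  rw [← h1, hz]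
  simp

lemma pol_zero {k : ℕ} {c : Fin (k + 1) → Fin (k + 1) → ℂ}
    (h : ∀ y ∈ ball (0 : P2) 1, pol c y = 0) : c = 0 := by
  have h1 : ∀ t : ℝ, |t| < 1 / 2 → (fun i => ∑ j, c i j * (t : ℂ) ^ (j : ℕ)) = 0 := by
    intro t ht
    apply one_zero
    intro s hs
    have hy : (!₂[s, t] : P2) ∈ ball (0 : P2) 1 := by
      rw [mem_ball_zero_iff, EuclideanSpace.norm_eq, Real.sqrt_lt' one_pos]
      simp only [Fin.sum_univ_two, Real.norm_eq_abs, sq_abs, one_pow]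
      have h3 : s ^ 2 < 1 / 4 := by
        have := sq_lt_sq' (by linarith [abs_nonneg s] : -(1 / 2) < |s|) hs
        rw [sq_abs] at this
        linarith
      have h4 : t ^ 2 < 1 / 4 := by
        have := sq_lt_sq' (by linarith [abs_nonneg t] : -(1 / 2) < |t|) ht
        rw [sq_abs] at this
        linarith
      show s ^ 2 + t ^ 2 < 1
      linarith
    have := h _ hy
    unfold pol at this
    rw [← this]
    refine Finset.sum_congr rfl fun i _ => ?_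
    rw [Finset.sum_mul]
    refine Finset.sum_congr rfl fun j _ => ?_
    show c i j * (t : ℂ) ^ (j : ℕ) * (s : ℂ) ^ (i : ℕ) = c i j * (s : ℂ) ^ (i : ℕ) * (t : ℂ) ^ (j : ℕ)
    ring
  funext i
  apply one_zero
  intro t ht
  exact congrFun (h1 t ht) i

lemma pol_cont {k : ℕ} (c : Fin (k + 1) → Fin (k + 1) → ℂ) : Continuous (pol c) := by
  unfold pol
  fun_prop

/-- the gradient at the origin -/
lemma pol_grad0 {k : ℕ} (c : Fin (k + 1) → Fin (k + 1) → ℂ) :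
    ‖fderiv ℝ (pol c) 0‖ ≤ (k + 1) * (k + 1) * (2 * ‖c‖) := by
  have hx : ∀ n : Fin 2, HasFDerivAt (fun y : P2 => ((y n : ℝ) : ℂ))
      (Complex.ofRealCLM.comp (EuclideanSpace.proj (𝕜 := ℝ) n)) 0 := fun n =>
    (Complex.ofRealCLM.comp (EuclideanSpace.proj (𝕜 := ℝ) n)).hasFDerivAt
  have hn : ∀ n : Fin 2, ‖(Complex.ofRealCLM.comp (EuclideanSpace.proj (𝕜 := ℝ) n) : P2 →L[ℝ] ℂ)‖ ≤ 1 := by
    intro n
    apply ContinuousLinearMap.opNorm_le_bound _ zero_le_one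
    intro v
    simp only [ContinuousLinearMap.comp_apply, Complex.ofRealCLM_apply, Complex.norm_real]
    rw [one_mul]
    exact PiLp.norm_apply_le v n
  have hterm : ∀ i j : Fin (k + 1), HasFDerivAt (fun y : P2 => c i j * ((y 0 : ℝ) : ℂ) ^ (i : ℕ) *
      ((y 1 : ℝ) : ℂ) ^ (j : ℕ)) (((c i j * ((0 : P2) 0 : ℂ) ^ (i : ℕ))) •
        (((j : ℕ) : ℂ) * ((0 : P2) 1 : ℂ) ^ ((j : ℕ) - 1)) •
          (Complex.ofRealCLM.comp (EuclideanSpace.proj (𝕜 := ℝ) (1 : Fin 2))) +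
        (((0 : P2) 1 : ℂ) ^ (j : ℕ)) • (c i j • (((i : ℕ) : ℂ) * ((0 : P2) 0 : ℂ) ^ ((i : ℕ) - 1)) •
          (Complex.ofRealCLM.comp (EuclideanSpace.proj (𝕜 := ℝ) (0 : Fin 2))))) 0 := by
    intro i j
    have h1 := ((hx 0).pow (i : ℕ)).const_mul (c i j)
    have h2 := (hx 1).pow (j : ℕ)
    have h3 := h1.mul h2
    refine HasFDerivAt.congr_fderiv h3 ?_
    simp only [nsmul_eq_mul]
  have hsum : HasFDerivAt (pol c) (∑ i, ∑ j, (((c i j * ((0 : P2) 0 : ℂ) ^ (i : ℕ))) •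
        (((j : ℕ) : ℂ) * ((0 : P2) 1 : ℂ) ^ ((j : ℕ) - 1)) •
          (Complex.ofRealCLM.comp (EuclideanSpace.proj (𝕜 := ℝ) (1 : Fin 2))) +
        (((0 : P2) 1 : ℂ) ^ (j : ℕ)) • (c i j • (((i : ℕ) : ℂ) * ((0 : P2) 0 : ℂ) ^ ((i : ℕ) - 1)) •
          (Complex.ofRealCLM.comp (EuclideanSpace.proj (𝕜 := ℝ) (0 : Fin 2)))))) 0 := by
    unfold pol
    exact HasFDerivAt.fun_sum fun i _ => HasFDerivAt.fun_sum fun j _ => hterm i j
  have hk : ∀ m : ℕ, ‖((m : ℂ)) * (0 : ℂ) ^ (m - 1)‖ ≤ 1 := by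
    intro m
    rcases m with _ | _ | m
    · simp
    · simp
    · simp
  have h0 : ∀ m : ℕ, ‖(0 : ℂ) ^ m‖ ≤ 1 := by
    intro m
    rcases m with _ | m
    · simp
    · simp
  have hc : ∀ i j, ‖c i j‖ ≤ ‖c‖ := fun i j => (norm_le_pi_norm (c i) j).trans (norm_le_pi_norm c i)
  rw [hsum.fderiv]
  refine (norm_sum_le _ _).trans ?_
  have hin : ∀ i ∈ (Finset.univ : Finset (Fin (k + 1))), ‖∑ j, (((c i j * ((0 : P2) 0 : ℂ) ^ (i : ℕ))) •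
        (((j : ℕ) : ℂ) * ((0 : P2) 1 : ℂ) ^ ((j : ℕ) - 1)) •
          (Complex.ofRealCLM.comp (EuclideanSpace.proj (𝕜 := ℝ) (1 : Fin 2))) +
        (((0 : P2) 1 : ℂ) ^ (j : ℕ)) • (c i j • (((i : ℕ) : ℂ) * ((0 : P2) 0 : ℂ) ^ ((i : ℕ) - 1)) •
          (Complex.ofRealCLM.comp (EuclideanSpace.proj (𝕜 := ℝ) (0 : Fin 2)))))‖ ≤
      (k + 1) * (2 * ‖c‖) := by
    intro i _
    refine (norm_sum_le _ _).trans ?_
    have : ∀ j ∈ (Finset.univ : Finset (Fin (k + 1))), ‖(((c i j * ((0 : P2) 0 : ℂ) ^ (i : ℕ))) •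
        (((j : ℕ) : ℂ) * ((0 : P2) 1 : ℂ) ^ ((j : ℕ) - 1)) •
          (Complex.ofRealCLM.comp (EuclideanSpace.proj (𝕜 := ℝ) (1 : Fin 2))) +
        (((0 : P2) 1 : ℂ) ^ (j : ℕ)) • (c i j • (((i : ℕ) : ℂ) * ((0 : P2) 0 : ℂ) ^ ((i : ℕ) - 1)) •
          (Complex.ofRealCLM.comp (EuclideanSpace.proj (𝕜 := ℝ) (0 : Fin 2)))))‖ ≤ 2 * ‖c‖ := by
      intro j _
      refine (norm_add_le _ _).trans ?_
      have z : ∀ n : Fin 2, (((0 : P2) n : ℝ) : ℂ) = 0 := fun n => by simp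
      rw [norm_smul, norm_smul, norm_smul, norm_smul, norm_smul, norm_mul, z 0, z 1]
      have a1 := hk (j : ℕ)
      have a2 := hk (i : ℕ)
      have a3 := h0 (i : ℕ)
      have a4 := h0 (j : ℕ)
      have a5 := hn 0
      have a6 := hn 1
      have a7 := hc i j
      calc _ ≤ ‖c‖ * 1 * (1 * 1) + 1 * (‖c‖ * (1 * 1)) := by gcongr
        _ = 2 * ‖c‖ := by ring
    calc _ ≤ ∑ _j : Fin (k + 1), 2 * ‖c‖ := Finset.sum_le_sum this
      _ = _ := by simp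
  calc _ ≤ ∑ _i : Fin (k + 1), ((k : ℝ) + 1) * (2 * ‖c‖) := Finset.sum_le_sum hin
    _ = _ := by simp; ring

end Pool.Agent.U562.HD
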