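import Pool.Agent.U562.HD.Gj
set_option autoImplicit false

/-! Summation of the pieces -/

namespace Pool.Agent.U562.HD

open MeasureTheory Complex Set Metric Filter Topology
open scoped ENNReal NNReal RealInnerProductSpace Real

variable {V : Type*} [NormedAddCommGroup V] [InnerProductSpace ℝ V] [FiniteDimensional ℝ V]
  [MeasurableSpace V] [BorelSpace V]

lemma Tt_sub {a : ℝ} (ha : 0 < a) (t : ℝ) {f h : V → ℂ} (hf : Integrable f) (hh : Integrable h)
    (x : V) : Tt a t (fun y => f y - h y) x = Tt a t f x - Tt a t h x := by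
  unfold Tt
  rw [← integral_sub (Tt_int ha t hf x) (Tt_int ha t hh x)]
  congr 1; funext y; ring

/-- norms on space time -/
lemma elp {q : ℝ} (hq : 0 < q) {F : ℝ × V → ℂ} (hF : Measurable F) :
    eLpNorm F (ENNReal.ofReal q) (volume.prod volume) =
      (∫⁻ t, ∫⁻ x, ‖F (t, x)‖ₑ ^ q) ^ (1 / q) := by
  rw [eLpNorm_eq_lintegral_rpow_enorm_toReal (by simpa using hq) ENNReal.ofReal_ne_top,
    ENNReal.toReal_ofReal hq.le, lintegral_prod _ (hF.enorm.pow_const q).aemeasurable]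

lemma pow_root {q p e : ℝ} (hq : 0 < q) {C Y Z X : ℝ≥0∞} :
    (C * (Y ^ e * Z * X ^ (q / p))) ^ (1 / q) =
      C ^ (1 / q) * (Y ^ (e / q) * Z ^ (1 / q)) * X ^ (1 / p) := by
  have h : 0 ≤ 1 / q := by positivity
  rw [ENNReal.mul_rpow_of_nonneg _ _ h, ENNReal.mul_rpow_of_nonneg _ _ h,
    ENNReal.mul_rpow_of_nonneg _ _ h, ← ENNReal.rpow_mul, ← ENNReal.rpow_mul]
  have e1 : e * (1 / q) = e / q := by ring
  have e2 : q / p * (1 / q) = 1 / p := by field_simp
  rw [e1, e2]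
  ring

/-- the extension theorem on space time in dimension two -/
theorem space_time (hn : Module.finrank ℝ V = 2) {p q : ℝ} (hp : 2 < p) (hpq : p ≤ q)
    (he : 1 < q - 1 - q / p) {A : ℝ} (hA : 0 ≤ A) : ∃ C : ℝ≥0∞, C ≠ ∞ ∧
    ∀ (K : Set V), Thin A K → ∀ (f : V → ℂ) (g H : V → ℝ≥0∞), Measurable f → Measurable g →
      Measurable H → (∀ y, 1 ≤ ‖y‖ → f y = 0) → (∀ y, ‖f y‖ₑ ≤ g y) → Whit K f g H →
      eLpNorm (fun P : ℝ × V => Ft P.1 f P.2) (ENNReal.ofReal q) (volume.prod volume) ≤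
        C * ((∫⁻ y, g y ^ p) + ∫⁻ y, H y ^ p) ^ (1 / p) := by
  have hp0 : 0 < p := by linarith
  have hp1 : 0 < p - 1 := by linarith
  have hq0 : 0 < q := by linarith
  have hs : 1 < p / (p - 1) := by rw [lt_div_iff₀ hp1]; linarith
  obtain ⟨C, hC, hmain⟩ := main_piece (V := V) hn hp hpq he
  set e := q - 1 - q / p with hedef
  set ω := volume (ball (0 : V) 1) with hω
  set M := cM V A (p / (p - 1)) with hM
  have hMt : M ≠ ∞ := cM_ne_top hn _ _
  set B0 : ℝ≥0∞ := C ^ (1 / q) * (ω ^ (e / q) * 1) with hB0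
  set r : ℝ≥0∞ := ENNReal.ofReal (2⁻¹ ^ ((e - 1) / q)) with hr
  set B1 : ℝ≥0∞ := C ^ (1 / q) * M ^ (e / q) * ENNReal.ofReal (108 * cG V) with hB1
  have hB0t : B0 ≠ ∞ := by
    refine ENNReal.mul_ne_top (ENNReal.rpow_ne_top_of_nonneg (by positivity) hC)
      (ENNReal.mul_ne_top (ENNReal.rpow_ne_top_of_nonneg (by positivity) (vol_ne_top 1))
        ENNReal.one_ne_top)
  have hB1t : B1 ≠ ∞ := by
    refine ENNReal.mul_ne_top (ENNReal.mul_ne_top
      (ENNReal.rpow_ne_top_of_nonneg (by positivity) hC)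
      (ENNReal.rpow_ne_top_of_nonneg (by positivity) hMt)) ENNReal.ofReal_ne_top
  have hr1 : r < 1 := by
    rw [hr, ← ENNReal.ofReal_one, ENNReal.ofReal_lt_ofReal_iff one_pos]
    apply Real.rpow_lt_one (by norm_num) (by norm_num)
    have : 0 < e - 1 := by linarith
    positivity
  have hgeo : (1 - r)⁻¹ ≠ ∞ := by
    rw [ENNReal.inv_ne_top]
    exact (tsub_pos_of_lt hr1).ne'
  refine ⟨B0 + B1 * (1 - r)⁻¹ + 1, ENNReal.add_ne_top.mpr ⟨ENNReal.add_ne_top.mpr
    ⟨hB0t, ENNReal.mul_ne_top hB1t hgeo⟩, ENNReal.one_ne_top⟩, ?_⟩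
  intro K hK f g H hf hg hH hf0 hfg hW
  by_cases hX : (∫⁻ y, g y ^ p) + ∫⁻ y, H y ^ p = ∞
  · rw [hX, ENNReal.top_rpow_of_pos (by positivity), ENNReal.mul_top (by simp)]
    exact le_top
  have hgX : ∫⁻ y, g y ^ p ≤ (∫⁻ y, g y ^ p) + ∫⁻ y, H y ^ p := le_self_add
  set X := (∫⁻ y, g y ^ p) + ∫⁻ y, H y ^ p with hXdef
  -- the first piece
  have h0 := hmain ω 1 (vol_ne_top 1) one_pos le_rfl f
    (fun y => (ball (0 : V) 1).indicator (fun _ => (1 : ℝ≥0∞)) y) g hf
    (measurable_const.indicator measurableSet_ball) hg (by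
      intro y
      by_cases hy : y ∈ ball (0 : V) 1
      · rw [indicator_of_mem hy, one_mul]; exact hfg y
      · rw [hf0 y (by rw [mem_ball_zero_iff] at hy; linarith)]
        rw [enorm_zero]; exact bot_le) (by
      intro y
      exact indicator_le_self' (fun _ _ => bot_le) y) (by
      intro b ρ h1 h2
      calc ∫⁻ y in ball b ρ, (ball (0 : V) 1).indicator (fun _ => (1 : ℝ≥0∞)) y ^ (p / (p - 1))
          ≤ ∫⁻ y, (ball (0 : V) 1).indicator (fun _ => (1 : ℝ≥0∞)) y ^ (p / (p - 1)) :=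
            setLIntegral_le_lintegral _ _
        _ = ω := by
            have : ∀ y, (ball (0 : V) 1).indicator (fun _ => (1 : ℝ≥0∞)) y ^ (p / (p - 1)) =
                (ball (0 : V) 1).indicator (fun _ => (1 : ℝ≥0∞)) y := by
              intro y
              by_cases hy : y ∈ ball (0 : V) 1
              · rw [indicator_of_mem hy, ENNReal.one_rpow]
              · rw [indicator_of_notMem hy, ENNReal.zero_rpow_of_pos (by positivity)]
            simp_rw [this]
            rw [lintegral_indicator measurableSet_ball, setLIntegral_const, one_mul]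
        _ ≤ ω * ENNReal.ofReal (ρ * 1) := by
            conv_lhs => rw [← mul_one ω]
            refine mul_le_mul' le_rfl ?_
            rw [mul_one, ← ENNReal.ofReal_one]
            exact ENNReal.ofReal_le_ofReal h1) (by
      have : ∀ y, (ball (0 : V) 1).indicator (fun _ => (1 : ℝ≥0∞)) y ^ (p / (p - 1)) =
          (ball (0 : V) 1).indicator (fun _ => (1 : ℝ≥0∞)) y := by
        intro y
        by_cases hy : y ∈ ball (0 : V) 1
        · rw [indicator_of_mem hy, ENNReal.one_rpow]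
        · rw [indicator_of_notMem hy, ENNReal.zero_rpow_of_pos (by positivity)]
      simp_rw [this]
      rw [lintegral_indicator measurableSet_ball, setLIntegral_const, one_mul, ENNReal.ofReal_one,
        mul_one]) (ne_top_of_le_ne_top hX hgX)
  obtain ⟨hfi, h0'⟩ := h0
  have hmeas : ∀ (a : ℝ) {h : V → ℂ}, Measurable h →
      Measurable (fun P : ℝ × V => Tt a P.1 h P.2) := fun a h hh => (Tt_sm a hh).measurable
  have first : eLpNorm (fun P : ℝ × V => Tt 1 P.1 f P.2) (ENNReal.ofReal q)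
      (volume.prod volume) ≤ B0 * X ^ (1 / p) := by
    rw [elp hq0 (hmeas 1 hf)]
    rw [one_pow] at h0'
    calc (∫⁻ t : ℝ, ∫⁻ x, ‖Tt 1 t f x‖ₑ ^ q) ^ (1 / q)
        ≤ (C * (ω ^ e * ENNReal.ofReal (1 ^ (e - 1)) * X ^ (q / p))) ^ (1 / q) := by
          apply ENNReal.rpow_le_rpow _ (by positivity)
          refine h0'.trans ?_
          gcongr
      _ = _ := by
          rw [pow_root hq0, Real.one_rpow, ENNReal.ofReal_one, ENNReal.one_rpow]
  -- the other pieces
  have other : ∀ j : ℕ, eLpNorm (fun P : ℝ × V => Tt ((2⁻¹ ^ (j + 1)) ^ 2) P.1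
      (fun y => f y - cv (3 * (2⁻¹ ^ (j + 1)) ^ 2) f y) P.2) (ENNReal.ofReal q)
      (volume.prod volume) ≤ B1 * r ^ j * X ^ (1 / p) := by
    intro j
    set δ : ℝ := 2⁻¹ ^ (j + 1) with hδdef
    have hδ : 0 < δ := by rw [hδdef]; positivity
    have hδ1 : δ ≤ 1 := by
      rw [hδdef]; exact pow_le_one₀ (by norm_num) (by norm_num)
    have ha : 0 < 3 * δ ^ 2 := by positivity
    have hgm : Measurable fun y => f y - cv (3 * δ ^ 2) f y := hf.sub (cv_meas _ hf)
    have hGX : ∫⁻ y, Gb δ g H y ^ p ≤ ENNReal.ofReal (108 * cG V) ^ p * X :=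
      Gb_lp (by linarith) hδ hg hH
    have hGX' : ∫⁻ y, Gb δ g H y ^ p ≠ ∞ := ne_top_of_le_ne_top (ENNReal.mul_ne_top
      (ENNReal.rpow_ne_top_of_nonneg hp0.le ENNReal.ofReal_ne_top) hX) hGX
    have h1 := (hmain M δ hMt hδ hδ1 (fun y => f y - cv (3 * δ ^ 2) f y)
      (fun y => ENNReal.ofReal (wt K δ y)) (Gb δ g H) hgm (wt_meas K δ).ennreal_ofReal
      (Gb_meas hδ hg hH) (gj_bound hf hfi hg hH hf0 hfg hW hδ hδ1)
      (fun y => by
        rw [← ENNReal.ofReal_one]; exact ENNReal.ofReal_le_ofReal (wt_le_one K hδ hδ1 y))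
      (fun b ρ h1 h2 => wt_M1 hn hA hK hs hδ hδ1 (hδ.trans_le h1) h2 b)
      (wt_M2 hA hK hs hδ hδ1) hGX').2
    rw [elp hq0 (hmeas _ hgm)]
    calc (∫⁻ t : ℝ, ∫⁻ x, ‖Tt (δ ^ 2) t (fun y => f y - cv (3 * δ ^ 2) f y) x‖ₑ ^ q) ^ (1 / q)
        ≤ (C * (M ^ e * ENNReal.ofReal (δ ^ (e - 1)) *
            (ENNReal.ofReal (108 * cG V) ^ p * X) ^ (q / p))) ^ (1 / q) := by
          apply ENNReal.rpow_le_rpow _ (by positivity)
          refine h1.trans ?_
          gcongr
      _ = C ^ (1 / q) * (M ^ (e / q) * ENNReal.ofReal (δ ^ (e - 1)) ^ (1 / q)) *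
          (ENNReal.ofReal (108 * cG V) * X ^ (1 / p)) := by
          rw [pow_root hq0, ENNReal.mul_rpow_of_nonneg _ _ (by positivity : 0 ≤ 1 / p),
            ← ENNReal.rpow_mul, mul_one_div_cancel hp0.ne', ENNReal.rpow_one]
      _ ≤ _ := by
          have e1 : ENNReal.ofReal (δ ^ (e - 1)) ^ (1 / q) ≤ r ^ j := by
            rw [ENNReal.ofReal_rpow_of_pos (by positivity), hr,
              ← ENNReal.ofReal_pow (by positivity)]
            apply ENNReal.ofReal_le_ofReal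
            rw [← Real.rpow_mul hδ.le, ← Real.rpow_natCast, ← Real.rpow_mul (by norm_num),
              hδdef, ← Real.rpow_natCast, ← Real.rpow_mul (by norm_num)]
            apply Real.rpow_le_rpow_of_exponent_ge (by norm_num) (by norm_num)
            have h5 : 0 ≤ (e - 1) / q := div_nonneg (by linarith) hq0.le
            push_cast
            have : (e - 1) * (1 / q) = (e - 1) / q := by ring
            rw [this]
            nlinarith
          calc C ^ (1 / q) * (M ^ (e / q) * ENNReal.ofReal (δ ^ (e - 1)) ^ (1 / q)) *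
              (ENNReal.ofReal (108 * cG V) * X ^ (1 / p))
              ≤ C ^ (1 / q) * (M ^ (e / q) * r ^ j) *
              (ENNReal.ofReal (108 * cG V) * X ^ (1 / p)) := by gcongr
            _ = _ := by rw [hB1]; ring
  -- the partial sums
  have tele : ∀ (j : ℕ) (P : ℝ × V), Tt ((2⁻¹ ^ (j + 1)) ^ 2) P.1 f P.2 =
      Tt ((2⁻¹ ^ j) ^ 2) P.1 f P.2 + Tt ((2⁻¹ ^ (j + 1)) ^ 2) P.1
        (fun y => f y - cv (3 * (2⁻¹ ^ (j + 1)) ^ 2) f y) P.2 := by
    intro j P
    have ha : (0 : ℝ) < (2⁻¹ ^ (j + 1)) ^ 2 := by positivity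
    have ha3 : (0 : ℝ) < 3 * (2⁻¹ ^ (j + 1)) ^ 2 := by positivity
    rw [Tt_sub ha _ hfi (cv_integrable ha3 hfi), Tt_cv ha ha3 _ hfi]
    have e1 : ((2⁻¹ : ℝ) ^ (j + 1)) ^ 2 + 3 * (2⁻¹ ^ (j + 1)) ^ 2 = (2⁻¹ ^ j) ^ 2 := by
      rw [pow_succ]; ring
    rw [e1]; ring
  have partial_sum : ∀ N : ℕ, eLpNorm (fun P : ℝ × V => Tt ((2⁻¹ ^ N) ^ 2) P.1 f P.2)
      (ENNReal.ofReal q) (volume.prod volume) ≤
      B0 * X ^ (1 / p) + ∑ j ∈ Finset.range N, B1 * r ^ j * X ^ (1 / p) := by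
    intro N
    induction N with
    | zero => simpa using first
    | succ N ih =>
      have e1 : (fun P : ℝ × V => Tt ((2⁻¹ ^ (N + 1)) ^ 2) P.1 f P.2) =
          (fun P : ℝ × V => Tt ((2⁻¹ ^ N) ^ 2) P.1 f P.2) +
          (fun P : ℝ × V => Tt ((2⁻¹ ^ (N + 1)) ^ 2) P.1
            (fun y => f y - cv (3 * (2⁻¹ ^ (N + 1)) ^ 2) f y) P.2) := by
        funext P; exact tele N P
      rw [e1, Finset.sum_range_succ, ← add_assoc]
      refine (eLpNorm_add_le (hmeas _ hf).aestronglyMeasurable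
        (hmeas _ (hf.sub (cv_meas _ hf))).aestronglyMeasurable ?_).trans
        (add_le_add ih (other N))
      rw [← ENNReal.ofReal_one]
      exact ENNReal.ofReal_le_ofReal (by linarith)
  have bound : ∀ N : ℕ, eLpNorm (fun P : ℝ × V => Tt ((2⁻¹ ^ N) ^ 2) P.1 f P.2)
      (ENNReal.ofReal q) (volume.prod volume) ≤
      (B0 + B1 * (1 - r)⁻¹ + 1) * X ^ (1 / p) := by
    intro N
    refine (partial_sum N).trans ?_
    calc B0 * X ^ (1 / p) + ∑ j ∈ Finset.range N, B1 * r ^ j * X ^ (1 / p)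
        = (B0 + B1 * ∑ j ∈ Finset.range N, r ^ j) * X ^ (1 / p) := by
          rw [add_mul, Finset.mul_sum, Finset.sum_mul]
      _ ≤ (B0 + B1 * (1 - r)⁻¹ + 1) * X ^ (1 / p) := by
          refine mul_le_mul' (le_trans ?_ le_self_add) le_rfl
          gcongr
          rw [← ENNReal.tsum_geometric]
          exact ENNReal.sum_le_tsum _
  -- the limit
  have hlim : ∀ P : ℝ × V, Tendsto (fun N : ℕ => Tt ((2⁻¹ ^ N) ^ 2) P.1 f P.2) atTop
      (𝓝 (Ft P.1 f P.2)) := by
    intro P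
    apply Tt_tendsto _ hfi _ (fun n => by positivity)
    have h1 : Tendsto (fun N : ℕ => (2⁻¹ : ℝ) ^ N) atTop (𝓝 0) :=
      tendsto_pow_atTop_nhds_zero_of_lt_one (by norm_num) (by norm_num)
    simpa using h1.pow 2
  refine (Lp.eLpNorm_lim_le_liminf_eLpNorm
    (fun N => (hmeas ((2⁻¹ ^ N) ^ 2) hf).aestronglyMeasurable) _
    (Eventually.of_forall hlim)).trans ?_
  exact liminf_le_of_frequently_le' (Frequently.of_forall bound)

end Pool.Agent.U562.HD
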