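import Pool.Agent.U562.HD.Piece
set_option autoImplicit false

/-! Thin sets, the weights, and the pieces of a function with a Whitney condition -/

namespace Pool.Agent.U562.HD

open MeasureTheory Complex Set Metric Filter Topology
open scoped ENNReal NNReal RealInnerProductSpace Real

variable {V : Type*} [NormedAddCommGroup V] [InnerProductSpace ℝ V] [FiniteDimensional ℝ V]
  [MeasurableSpace V] [BorelSpace V]

/-- the `s`-neighbourhood of `K` has measure at most `A ρ s` in every ball of radius `ρ` -/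
def Thin (A : ℝ) (K : Set V) : Prop :=
  ∀ (b : V) (ρ s : ℝ), 0 < ρ → 0 < s →
    volume (ball b ρ ∩ {x | infDist x K < s}) ≤ ENNReal.ofReal (A * ρ * s)

/-- the Whitney type condition off `K` for the increments of `f`, with the majorants `g` and `H`
(`H` is averaged over the segment) -/
def Whit (K : Set V) (f : V → ℂ) (g H : V → ℝ≥0∞) : Prop :=
  ∀ y z, ENNReal.ofReal (infDist y K) * ‖f y - f (y - z)‖ₑ ≤
    ‖z‖ₑ * (g y + (g (y - z) + ∫⁻ s in Icc (0 : ℝ) 1, H (y - s • z)))

lemma rpow_unit_int {s : ℝ} (hs : 1 < s) :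
    ∫⁻ t in Ioc (0 : ℝ) 1, ENNReal.ofReal (t ^ (s - 2)) = ENNReal.ofReal (1 / (s - 1)) := by
  have h1 : IntervalIntegrable (fun t : ℝ => t ^ (s - 2)) volume 0 1 :=
    intervalIntegral.intervalIntegrable_rpow' (by linarith)
  have h2 : IntegrableOn (fun t : ℝ => t ^ (s - 2)) (Ioc 0 1) volume :=
    (intervalIntegrable_iff_integrableOn_Ioc_of_le zero_le_one).mp h1
  rw [← ofReal_integral_eq_lintegral_ofReal h2]
  · rw [← intervalIntegral.integral_of_le zero_le_one, integral_rpow (Or.inl (by linarith))]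
    rw [show s - 2 + 1 = s - 1 by ring, Real.one_rpow, Real.zero_rpow (by linarith), sub_zero]
  · filter_upwards [ae_restrict_mem measurableSet_Ioc] with t ht
    exact Real.rpow_nonneg ht.1.le _

/-- the layer cake estimate -/
lemma layer {A : ℝ} {K : Set V} (hA : 0 ≤ A) (hK : Thin A K) {s : ℝ} (hs : 1 < s) {δ ρ : ℝ}
    (hδ : 0 < δ) (hρ : 0 < ρ) (b : V) :
    ∫⁻ y in ball b ρ, ENNReal.ofReal (δ / max δ (infDist y K)) ^ s ≤
      ENNReal.ofReal (A * (s / (s - 1)) * ρ * δ) := by
  have hs1 : 0 < s - 1 := by linarith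
  have hf0 : ∀ y : V, 0 ≤ δ / max δ (infDist y K) := fun y =>
    div_nonneg hδ.le (le_max_of_le_left hδ.le)
  have hfm : Measurable fun y : V => δ / max δ (infDist y K) := by
    have : Measurable fun y : V => infDist y K := (continuous_infDist_pt K).measurable
    fun_prop
  have e1 : ∀ y : V, ENNReal.ofReal (δ / max δ (infDist y K)) ^ s =
      ENNReal.ofReal ((δ / max δ (infDist y K)) ^ s) := fun y =>
    ENNReal.ofReal_rpow_of_nonneg (hf0 y) (by linarith)
  simp_rw [e1]
  rw [lintegral_rpow_eq_lintegral_meas_lt_mul (volume.restrict (ball b ρ))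
    (Eventually.of_forall hf0) hfm.aemeasurable (by linarith : 0 < s)]
  have key : ∀ t ∈ Ioi (0 : ℝ), (volume.restrict (ball b ρ)) {y | t < δ / max δ (infDist y K)} *
      ENNReal.ofReal (t ^ (s - 1)) ≤
      (Ioc (0 : ℝ) 1).indicator (fun t => ENNReal.ofReal (A * ρ * δ) * ENNReal.ofReal (t ^ (s - 2))) t := by
    intro t ht
    have ht0 : 0 < t := ht
    by_cases h1 : t ≤ 1
    · rw [indicator_of_mem (show t ∈ Ioc (0 : ℝ) 1 from ⟨ht0, h1⟩)]
      have hsub : {y | t < δ / max δ (infDist y K)} ⊆ {y : V | infDist y K < δ / t} := by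
        intro y hy
        have hy' : t < δ / max δ (infDist y K) := hy
        have hmax : 0 < max δ (infDist y K) := lt_max_of_lt_left hδ
        rw [lt_div_iff₀ hmax] at hy'
        show infDist y K < δ / t
        rw [lt_div_iff₀ ht0]
        calc infDist y K * t ≤ max δ (infDist y K) * t := by gcongr; exact le_max_right _ _
          _ < δ := by linarith
      calc (volume.restrict (ball b ρ)) {y | t < δ / max δ (infDist y K)} *
            ENNReal.ofReal (t ^ (s - 1))
          ≤ (volume.restrict (ball b ρ)) {y : V | infDist y K < δ / t} *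
            ENNReal.ofReal (t ^ (s - 1)) := by gcongr
        _ ≤ ENNReal.ofReal (A * ρ * (δ / t)) * ENNReal.ofReal (t ^ (s - 1)) := by
            gcongr
            rw [Measure.restrict_apply' measurableSet_ball, inter_comm]
            exact hK b ρ (δ / t) hρ (by positivity)
        _ = _ := by
            rw [← ENNReal.ofReal_mul (by positivity), ← ENNReal.ofReal_mul (by positivity)]
            congr 1
            rw [show s - 2 = (s - 1) - 1 by ring, Real.rpow_sub_one ht0.ne' (s - 1)]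
            field_simp
    · have hemp : {y : V | t < δ / max δ (infDist y K)} = ∅ := by
        rw [eq_empty_iff_forall_notMem]
        intro y hy
        have hy' : t < δ / max δ (infDist y K) := hy
        have : δ / max δ (infDist y K) ≤ 1 := by
          rw [div_le_one (lt_max_of_lt_left hδ)]; exact le_max_left _ _
        linarith
      rw [hemp, measure_empty, zero_mul]
      exact bot_le
  calc ENNReal.ofReal s * ∫⁻ t in Ioi (0 : ℝ),
        (volume.restrict (ball b ρ)) {y | t < δ / max δ (infDist y K)} *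
          ENNReal.ofReal (t ^ (s - 1))
      ≤ ENNReal.ofReal s * ∫⁻ t in Ioi (0 : ℝ), (Ioc (0 : ℝ) 1).indicator
          (fun t => ENNReal.ofReal (A * ρ * δ) * ENNReal.ofReal (t ^ (s - 2))) t :=
        mul_le_mul' le_rfl (setLIntegral_mono' measurableSet_Ioi key)
    _ ≤ ENNReal.ofReal s * ∫⁻ t, (Ioc (0 : ℝ) 1).indicator
          (fun t => ENNReal.ofReal (A * ρ * δ) * ENNReal.ofReal (t ^ (s - 2))) t :=
        mul_le_mul' le_rfl (setLIntegral_le_lintegral _ _)
    _ = ENNReal.ofReal s * (ENNReal.ofReal (A * ρ * δ) * ENNReal.ofReal (1 / (s - 1))) := by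
        rw [lintegral_indicator measurableSet_Ioc, lintegral_const_mul' _ _ ENNReal.ofReal_ne_top,
          rpow_unit_int hs]
    _ = _ := by
        rw [← ENNReal.ofReal_mul (by positivity), ← ENNReal.ofReal_mul (by positivity)]
        congr 1
        field_simp

/-- the weight -/
noncomputable def wt (K : Set V) (δ : ℝ) (y : V) : ℝ :=
  open scoped Classical in
  if ‖y‖ < 2 then δ / max δ (infDist y K) else δ / (1 + ‖y‖) ^ 3

lemma wt_meas (K : Set V) (δ : ℝ) : Measurable (wt K δ) := by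
  unfold wt
  have h1 : Measurable fun y : V => infDist y K := (continuous_infDist_pt K).measurable
  have hs : MeasurableSet {y : V | ‖y‖ < 2} :=
    (isOpen_lt continuous_norm continuous_const).measurableSet
  exact Measurable.ite hs (by fun_prop) (by fun_prop)

lemma wt_nonneg (K : Set V) {δ : ℝ} (hδ : 0 < δ) (y : V) : 0 ≤ wt K δ y := by
  unfold wt
  split_ifs
  · exact div_nonneg hδ.le (le_max_of_le_left hδ.le)
  · positivity

lemma wt_le_one (K : Set V) {δ : ℝ} (hδ : 0 < δ) (hδ1 : δ ≤ 1) (y : V) : wt K δ y ≤ 1 := by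
  unfold wt
  split_ifs
  · rw [div_le_one (lt_max_of_lt_left hδ)]; exact le_max_left _ _
  · rw [div_le_one (by positivity)]
    have := norm_nonneg y
    have : 1 ≤ (1 + ‖y‖) ^ 3 := one_le_pow₀ (by linarith)
    linarith

/-- the constant of the weight -/
noncomputable def cM (V : Type*) [NormedAddCommGroup V] [InnerProductSpace ℝ V]
    [FiniteDimensional ℝ V] [MeasurableSpace V] [BorelSpace V] (A s : ℝ) : ℝ≥0∞ :=
  ENNReal.ofReal (2 * (A * (s / (s - 1)))) + 2 * volume (ball (0 : V) 1) +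
    ∫⁻ y : V, ENNReal.ofReal ((1 + ‖y‖) ^ (-3 : ℝ))

lemma cM_ne_top (hn : Module.finrank ℝ V = 2) (A s : ℝ) : cM V A s ≠ ∞ := by
  unfold cM
  refine ENNReal.add_ne_top.mpr ⟨ENNReal.add_ne_top.mpr ⟨ENNReal.ofReal_ne_top,
    ENNReal.mul_ne_top (by norm_num) (vol_ne_top 1)⟩, ?_⟩
  have h := integrable_one_add_norm (E := V) (μ := volume) (r := 3) (by rw [hn]; norm_num)
  exact h.lintegral_lt_top.ne

lemma wt_le (K : Set V) {δ : ℝ} (hδ : 0 < δ) (hδ1 : δ ≤ 1) {s : ℝ} (hs : 1 < s) (y : V) :
    ENNReal.ofReal (wt K δ y) ^ s ≤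
      (ball (0 : V) 2).indicator (fun y => ENNReal.ofReal (δ / max δ (infDist y K)) ^ s) y +
      ENNReal.ofReal δ * ENNReal.ofReal ((1 + ‖y‖) ^ (-3 : ℝ)) := by
  unfold wt
  split_ifs with h
  · rw [indicator_of_mem (by rwa [mem_ball_zero_iff])]
    exact le_self_add
  · rw [indicator_of_notMem (by rwa [mem_ball_zero_iff]), zero_add]
    rw [← ENNReal.ofReal_mul hδ.le]
    have e : δ * (1 + ‖y‖) ^ (-3 : ℝ) = δ / (1 + ‖y‖) ^ 3 := by
      rw [Real.rpow_neg (by positivity), div_eq_mul_inv]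
      congr 2
      exact_mod_cast Real.rpow_natCast (1 + ‖y‖) 3
    rw [e]
    conv_rhs => rw [← ENNReal.rpow_one (ENNReal.ofReal (δ / (1 + ‖y‖) ^ 3))]
    apply ENNReal.rpow_le_rpow_of_exponent_ge _ hs.le
    rw [← ENNReal.ofReal_one]
    apply ENNReal.ofReal_le_ofReal
    rw [div_le_one (by positivity)]
    have := norm_nonneg y
    have : 1 ≤ (1 + ‖y‖) ^ 3 := one_le_pow₀ (by linarith)
    linarith

lemma wt_M1 (hn : Module.finrank ℝ V = 2) {A : ℝ} {K : Set V} (hA : 0 ≤ A) (hK : Thin A K)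
    {s : ℝ} (hs : 1 < s) {δ ρ : ℝ} (hδ : 0 < δ) (hδ1 : δ ≤ 1) (hρ : 0 < ρ) (hρ2 : ρ ≤ 2) (b : V) :
    ∫⁻ y in ball b ρ, ENNReal.ofReal (wt K δ y) ^ s ≤ cM V A s * ENNReal.ofReal (ρ * δ) := by
  have hs1 : 0 < s - 1 := by linarith
  have hm : Measurable fun y : V => ENNReal.ofReal δ * ENNReal.ofReal ((1 + ‖y‖) ^ (-3 : ℝ)) := by
    fun_prop
  calc ∫⁻ y in ball b ρ, ENNReal.ofReal (wt K δ y) ^ s
      ≤ ∫⁻ y in ball b ρ, (ENNReal.ofReal (δ / max δ (infDist y K)) ^ s + ENNReal.ofReal δ) := by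
        apply lintegral_mono
        intro y
        refine (wt_le K hδ hδ1 hs y).trans ?_
        refine add_le_add ?_ ?_
        · exact indicator_le_self' (fun _ _ => bot_le) y
        · calc ENNReal.ofReal δ * ENNReal.ofReal ((1 + ‖y‖) ^ (-3 : ℝ))
              ≤ ENNReal.ofReal δ * 1 := by
                gcongr
                rw [← ENNReal.ofReal_one]
                apply ENNReal.ofReal_le_ofReal
                apply Real.rpow_le_one_of_one_le_of_nonpos _ (by norm_num)
                have := norm_nonneg y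
                linarith
            _ = _ := mul_one _
    _ = (∫⁻ y in ball b ρ, ENNReal.ofReal (δ / max δ (infDist y K)) ^ s) +
        ENNReal.ofReal δ * volume (ball b ρ) := by
        rw [lintegral_add_right _ measurable_const, setLIntegral_const]
    _ ≤ ENNReal.ofReal (A * (s / (s - 1)) * ρ * δ) +
        ENNReal.ofReal (ρ * δ) * (2 * volume (ball (0 : V) 1)) := by
        refine add_le_add (layer hA hK hs hδ hρ b) ?_
        rw [Measure.addHaar_ball_of_pos _ _ hρ, hn, ← mul_assoc, ← ENNReal.ofReal_mul hδ.le]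
        calc ENNReal.ofReal (δ * ρ ^ 2) * volume (ball (0 : V) 1)
            ≤ ENNReal.ofReal (ρ * δ * 2) * volume (ball (0 : V) 1) := by
              refine mul_le_mul' (ENNReal.ofReal_le_ofReal ?_) le_rfl
              have : 0 < ρ * δ := by positivity
              nlinarith
          _ = _ := by
              rw [ENNReal.ofReal_mul (by positivity)]
              simp only [ENNReal.ofReal_ofNat]
              ring
    _ ≤ ENNReal.ofReal (2 * (A * (s / (s - 1)))) * ENNReal.ofReal (ρ * δ) +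
        2 * volume (ball (0 : V) 1) * ENNReal.ofReal (ρ * δ) +
        (∫⁻ y : V, ENNReal.ofReal ((1 + ‖y‖) ^ (-3 : ℝ))) * ENNReal.ofReal (ρ * δ) := by
        refine le_trans (add_le_add ?_ ?_) le_self_add
        · rw [← ENNReal.ofReal_mul (by positivity)]
          apply ENNReal.ofReal_le_ofReal
          have : 0 ≤ A * (s / (s - 1)) * (ρ * δ) := by positivity
          nlinarith
        · rw [mul_comm]
    _ = _ := by unfold cM; ring

lemma wt_M2 {A : ℝ} {K : Set V} (hA : 0 ≤ A) (hK : Thin A K)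
    {s : ℝ} (hs : 1 < s) {δ : ℝ} (hδ : 0 < δ) (hδ1 : δ ≤ 1) :
    ∫⁻ y, ENNReal.ofReal (wt K δ y) ^ s ≤ cM V A s * ENNReal.ofReal δ := by
  have hs1 : 0 < s - 1 := by linarith
  have hm : Measurable fun y : V => ENNReal.ofReal δ * ENNReal.ofReal ((1 + ‖y‖) ^ (-3 : ℝ)) := by
    fun_prop
  calc ∫⁻ y, ENNReal.ofReal (wt K δ y) ^ s
      ≤ ∫⁻ y, ((ball (0 : V) 2).indicator
          (fun y => ENNReal.ofReal (δ / max δ (infDist y K)) ^ s) y +
          ENNReal.ofReal δ * ENNReal.ofReal ((1 + ‖y‖) ^ (-3 : ℝ))) :=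
        lintegral_mono fun y => wt_le K hδ hδ1 hs y
    _ = (∫⁻ y in ball (0 : V) 2, ENNReal.ofReal (δ / max δ (infDist y K)) ^ s) +
        ENNReal.ofReal δ * ∫⁻ y : V, ENNReal.ofReal ((1 + ‖y‖) ^ (-3 : ℝ)) := by
        rw [lintegral_add_right _ hm, lintegral_indicator measurableSet_ball,
          lintegral_const_mul' _ _ ENNReal.ofReal_ne_top]
    _ ≤ ENNReal.ofReal (A * (s / (s - 1)) * 2 * δ) +
        ENNReal.ofReal δ * ∫⁻ y : V, ENNReal.ofReal ((1 + ‖y‖) ^ (-3 : ℝ)) :=
        add_le_add (layer hA hK hs hδ two_pos 0) le_rfl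
    _ = ENNReal.ofReal (2 * (A * (s / (s - 1)))) * ENNReal.ofReal δ +
        (∫⁻ y : V, ENNReal.ofReal ((1 + ‖y‖) ^ (-3 : ℝ))) * ENNReal.ofReal δ := by
        rw [← ENNReal.ofReal_mul (by positivity), mul_comm (ENNReal.ofReal δ)]
        congr 2; ring
    _ ≤ _ := by
        unfold cM
        rw [add_mul, add_mul]
        exact add_le_add le_self_add le_rfl

end Pool.Agent.U562.HD
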